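import Pool.Agent.Q206.ME.Defs

/-!
# The complexes of the reduction: gadgets, switches, collectors
-/

namespace Pool.Agent.Q206.ME

open Finset

/-- `a → b`: the edge matched with the triangle `a` is an edge of the other triangle `b`. Here `T` is
the type of the triangles and `vs t` is the set of the vertices of `t`. -/
def Rel {T W : Type} (vs φ : T → Finset W) (a b : T) : Prop := b ≠ a ∧ φ a ⊆ vs b

/-- Full acyclic matchings: every triangle is matched with one of its edges. -/
structure IsFam {T W : Type} (vs φ : T → Finset W) : Prop where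
  sub : ∀ t, φ t ⊆ vs t
  card : ∀ t, (φ t).card = 2
  inj : Function.Injective φ
  acyc : ∀ t, ¬ Relation.TransGen (Rel vs φ) t t

/-- The triangles of the gadget (a complex with 7 vertices, 13 triangles and 19 edges; `{2, 3}` is
the only edge which lies in one triangle only). -/
def P : Fin 13 → Finset (Fin 7) :=
  ![{0, 2, 4}, {0, 1, 4}, {0, 2, 5}, {0, 3, 5}, {0, 1, 6}, {0, 3, 6}, {2, 4, 5}, {3, 4, 5},
    {1, 3, 4}, {1, 2, 5}, {1, 2, 6}, {2, 3, 6}, {1, 3, 5}]

/-- The tap of the gadget. -/
def tapE : Finset (Fin 7) := {0, 1}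

/-- The exit of the gadget. -/
def exE : Finset (Fin 7) := {2, 3}

/-- The triangle which contains the exit. -/
def tEx : Fin 13 := 11

/-- A triangle which contains the tap. -/
def tTap : Fin 13 := 1

/-- The copies of the gadget: `D u p v` (diodes) have their tap glued to the port `(u, p)`, and, if
there is an arc from this port to `v`, their exit to a side of the collector of `v`; `B u p v` and
`E v l` block the other sides of the collector of `v`. -/
inductive Gad (n : ℕ) : Type
  | D (u : Fin n) (p : Bool) (v : Fin n)
  | B (u : Fin n) (p : Bool) (v : Fin n)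
  | E (v : Fin n) (l : Bool)
  deriving DecidableEq, Fintype

/-- The vertices. -/
inductive Vtx (n : ℕ) : Type
  | X (v : Fin n)
  | Z (v : Fin n)
  | b (v : Fin n) (j : ℕ)
  | g (i : Gad n) (k : Fin 7)
  deriving DecidableEq

/-- The triangles: the switches `s v`, the collectors (fans with apex `Z v`) `c v j`, and the
triangles `g i t` of the gadgets. -/
inductive Nod (n : ℕ) : Type
  | s (v : Fin n)
  | c (v : Fin n) (j : Fin (2 * n + 1))
  | g (i : Gad n) (t : Fin 13)
  deriving DecidableEq, Fintype

variable {n : ℕ}

/-- The number of the side of a collector which belongs to the port `(u, p)`. -/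
def num (u : Fin n) (p : Bool) : ℕ := 1 + u + (if p then n else 0)

/-- The port to which the tap of a gadget is glued, if any. -/
def port : Gad n → Option (Fin n × Bool)
  | .D u p _ => some (u, p)
  | _ => none

/-- The side to which the exit of a gadget is glued, if any: `some (v, j)` is the edge
`{b v j, b v (j + 1)}` if `j ≤ 2 n`, and `{Z v, b v (2 n + 1)}` if `j = 2 n + 1`. -/
def side (A : Fin n → Bool → Fin n → Bool) : Gad n → Option (Fin n × ℕ)
  | .D u p v => if A u p v = true then some (v, num u p) else none
  | .B u p v => if A u p v = true then none else some (v, num u p)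
  | .E v l => some (v, if l = true then 2 * n + 1 else 0)

/-- The vertices of a copy of the gadget. -/
def emb (A : Fin n → Bool → Fin n → Bool) (i : Gad n) (k : Fin 7) : Vtx n :=
  if k = 0 then (port i).elim (.g i 0) (fun x => .X x.1)
  else if k = 1 then (port i).elim (.g i 1) (fun x => if x.2 = true then .b x.1 0 else .Z x.1)
  else if k = 2 then
    (side A i).elim (.g i 2) (fun x => if x.2 = 2 * n + 1 then .Z x.1 else .b x.1 (x.2 + 1))
  else if k = 3 then (side A i).elim (.g i 3) (fun x => .b x.1 x.2)
  else .g i k

/-- The vertices of the triangles. -/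
def vs (A : Fin n → Bool → Fin n → Bool) : Nod n → Finset (Vtx n)
  | .s v => {.X v, .b v 0, .Z v}
  | .c v j => {.Z v, .b v j, .b v (j + 1)}
  | .g i t => (P t).image (emb A i)

/-- The ports of the switch `v`, two edges of the triangle `s v`. -/
def pe (v : Fin n) (p : Bool) : Finset (Vtx n) := {.X v, if p = true then .b v 0 else .Z v}

/-- The chain edges of the collector of `v`. -/
def ce (v : Fin n) (j : ℕ) : Finset (Vtx n) := {.Z v, .b v j}

/-- The facts on the gadget. -/
structure PFacts : Prop where
  /-- every full acyclic matching of the gadget uses the exit, and from every triangle there is a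
  path to the triangle with the exit -/
  exit : ∀ φ, IsFam P φ → φ tEx = exE ∧ ∀ t, Relation.ReflTransGen (Rel P φ) t tEx
  /-- some full acyclic matching does not use the tap -/
  noTap : ∃ φ, IsFam P φ ∧ ∀ t, φ t ≠ tapE

/-- The facts on the incidence of edges and triangles. -/
structure Geo (A : Fin n → Bool → Fin n → Bool) : Prop where
  emb_inj : ∀ i, Function.Injective (emb A i)
  vs_inj : Function.Injective (vs A)
  vs_card : ∀ x, (vs A x).card = 3
  /-- ports -/
  port_edge : ∀ v p y, pe v p ⊆ vs A y → y = .s v ∨ ∃ w t, y = .g (.D v p w) t ∧ tapE ⊆ P t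
  /-- chain edges -/
  chain_edge : ∀ v j y, j < 2 * n + 1 → ce v j ⊆ vs A y →
    (j = 0 ∧ y = .s v) ∨ ∃ i : Fin (2 * n + 1), y = .c v i ∧ ((i : ℕ) = j ∨ (i : ℕ) + 1 = j)
  /-- inner edges of the gadgets -/
  inner_edge : ∀ i e y, e.card = 2 → e ≠ tapE → e ≠ exE → e.image (emb A i) ⊆ vs A y →
    ∃ t, y = .g i t ∧ e ⊆ P t
  /-- exits -/
  exit_edge : ∀ i y, exE.image (emb A i) ⊆ vs A y → (∃ t, y = .g i t ∧ exE ⊆ P t) ∨
    ∃ v, ∃ j : Fin (2 * n + 1), y = .c v j ∧
      (side A i = some (v, (j : ℕ)) ∨ ((j : ℕ) = 2 * n ∧ side A i = some (v, 2 * n + 1)))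
  /-- taps which are not glued -/
  tap_edge : ∀ i y, port i = none → tapE.image (emb A i) ⊆ vs A y → ∃ t, y = .g i t ∧ tapE ⊆ P t

/-- The matching of the gadget uses the tap. -/
def uses (μ : Fin 13 → Finset (Fin 7)) : Prop := ∃ t, μ t = tapE

/-- The network with the arcs `A` has no cycle of active arcs in the state `s`. -/
def Acyc (A : Fin n → Bool → Fin n → Bool) (s : Fin n → Bool) : Prop :=
  ∀ v, ¬ Relation.TransGen (fun u w => A u (s u) w = true) v v

/-- The matching given by a state of the switches and matchings of the gadgets. -/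
def phi (A : Fin n → Bool → Fin n → Bool) (s : Fin n → Bool)
    (μ : Gad n → Fin 13 → Finset (Fin 7)) : Nod n → Finset (Vtx n)
  | .s v => pe v (s v)
  | .c v j => ce v j
  | .g i t => (μ i t).image (emb A i)

/-- The taps at the port in use are not used by gadgets, and the taps at the other port by at most
one. -/
def TapOk (s : Fin n → Bool) (μ : Gad n → Fin 13 → Finset (Fin 7)) : Prop :=
  (∀ i, IsFam P (μ i)) ∧ ∀ v, (∀ w, ¬ uses (μ (.D v (s v) w))) ∧
    ∀ w w', uses (μ (.D v (!s v) w)) → uses (μ (.D v (!s v) w')) → w = w'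

/-- The complex with the given triangles. -/
def cx {T : Type} [Fintype T] (f : T → Finset ℕ) : Finset (Finset ℕ) :=
  univ.biUnion fun t => (f t).powerset.filter fun s => s.Nonempty

/-- Sum of the coefficients of the monomials with `c₀ = f₀` and `c₂ = 0`. -/
def pick (f₀ : ℕ) (O : List (List ℕ × ℕ)) : ℕ :=
  ((O.filter fun x => decide (x.1.getD 0 0 = f₀) && decide (x.1.getD 2 0 = 0)).map Prod.snd).sum

end Pool.Agent.Q206.ME
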