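import Pool.Agent.Q206.ME.Stm

/-!
# Counting full acyclic matchings of the complex of a network
-/

namespace Pool.Agent.Q206.ME

open Finset

/-- The structure `Geo` from the two lemmas. -/
theorem geo_of (h1 : S_GEO1) (h2 : S_GEO2) {n : ℕ} (A : Fin n → Bool → Fin n → Bool)
    (hA : ∀ v p, A v p v = false) : Geo A := by
  obtain ⟨a, b, c, d, e, f⟩ := h1 n A hA
  obtain ⟨g, h⟩ := h2 n A hA a
  exact ⟨a, b, c, d, e, g, h, f⟩

theorem ce_subset {n : ℕ} (A : Fin n → Bool → Fin n → Bool) (v : Fin n) (j : Fin (2 * n + 1)) :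
    ce v j ⊆ vs A (.c v j) := by
  intro x hx
  simp only [ce, vs, mem_insert, mem_singleton] at hx ⊢
  tauto

theorem pe_inj {n : ℕ} {v : Fin n} {p q : Bool} (h : pe v p = pe v q) : p = q := by
  cases p <;> cases q <;> simp [pe, Finset.ext_iff] at h ⊢
  · have := h (.Z v)
    simp at this
  · have := h (.Z v)
    simp at this

/-- The state and the matchings of the gadgets are determined by the matching. -/
theorem phi_inj {n : ℕ} {A : Fin n → Bool → Fin n → Bool} (he : ∀ i, Function.Injective (emb A i))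
    {s s' : Fin n → Bool} {μ μ' : Gad n → Fin 13 → Finset (Fin 7)} (h : phi A s μ = phi A s' μ') :
    s = s' ∧ μ = μ' := by
  constructor
  · funext v
    exact pe_inj (congrFun h (.s v))
  · funext i t
    exact Finset.image_injective (he i) (congrFun h (.g i t))

/-- **The number of full acyclic matchings** is a multiple of the number of acyclic states. -/
theorem count (hP : S_P) (h1 : S_GEO1) (h2 : S_GEO2) (hF : S_FWD) (hB : S_BWD) (hV : S_VAL)
    (n : ℕ) : ∃ C : ℕ, 0 < C ∧ ∀ A : Fin n → Bool → Fin n → Bool, (∀ v p, A v p v = false) →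
      Nat.card {φ : Nod n → Finset (Vtx n) // IsFam (vs A) φ} =
        C * Nat.card {s : Fin n → Bool // Acyc A s} := by
  obtain ⟨C, hC, h⟩ := hV hP n
  refine ⟨C, hC, fun A hA => ?_⟩
  rw [← h A]
  have hG := geo_of h1 h2 A hA
  refine (Nat.card_congr (Equiv.ofBijective (fun x : {x : (Fin n → Bool) ×
    (Gad n → Fin 13 → Finset (Fin 7)) // Acyc A x.1 ∧ TapOk x.1 x.2} =>
    (⟨phi A x.1.1 x.1.2, hB n A hG hP x.1.1 x.1.2 x.2.1 x.2.2⟩ :
      {φ : Nod n → Finset (Vtx n) // IsFam (vs A) φ})) ⟨?_, ?_⟩)).symm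
  · intro x y hxy
    obtain ⟨e1, e2⟩ := phi_inj hG.emb_inj (Subtype.ext_iff.1 hxy)
    exact Subtype.ext (Prod.ext e1 e2)
  · rintro ⟨φ, hφ⟩
    obtain ⟨s, μ, a, b, c⟩ := hF n A hG hP φ hφ
    exact ⟨⟨(s, μ), a, b⟩, Subtype.ext c.symm⟩

/-- Renaming of the vertices. -/
theorem card_fam_image {T W V : Type} [DecidableEq W] [DecidableEq V] (f : T → Finset W)
    (c : W → V) (hc : Function.Injective c) :
    Nat.card {φ : T → Finset V // IsFam (fun t => (f t).image c) φ} =
      Nat.card {φ : T → Finset W // IsFam f φ} := by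
  have key : ∀ φ : T → Finset W, IsFam (fun t => (f t).image c) (fun t => (φ t).image c) ↔
      IsFam f φ := by
    intro φ
    have hR : Rel (fun t => (f t).image c) (fun t => (φ t).image c) = Rel f φ := by
      funext a b
      simp only [Rel, Finset.image_subset_image_iff hc]
    constructor
    · rintro ⟨a, b, d, e⟩
      refine ⟨fun t => (Finset.image_subset_image_iff hc).1 (a t), fun t => ?_, ?_, ?_⟩
      · rw [← b t, card_image_of_injective _ hc]
      · intro x y hxy
        exact d (by simp only [hxy])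
      · rwa [hR] at e
    · rintro ⟨a, b, d, e⟩
      refine ⟨fun t => image_subset_image (a t), fun t => ?_, ?_, ?_⟩
      · rw [card_image_of_injective _ hc, b t]
      · intro x y hxy
        exact d (image_injective hc hxy)
      · rwa [hR]
  refine (Nat.card_congr (Equiv.ofBijective (fun φ : {φ : T → Finset W // IsFam f φ} =>
    (⟨fun t => (φ.1 t).image c, (key φ.1).2 φ.2⟩ :
      {φ : T → Finset V // IsFam (fun t => (f t).image c) φ})) ⟨?_, ?_⟩)).symm
  · intro x y hxy
    refine Subtype.ext (funext fun t => image_injective hc ?_)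
    exact congrFun (Subtype.ext_iff.1 hxy) t
  · rintro ⟨φ, hφ⟩
    have h1 : ∀ t, ∃ e : Finset W, e ⊆ f t ∧ e.image c = φ t := by
      intro t
      obtain ⟨e, he1, he2⟩ := Finset.subset_image_iff.1 (hφ.sub t)
      exact ⟨e, by exact_mod_cast he1, he2⟩
    choose e he1 he2 using h1
    have h2 : (fun t => (e t).image c) = φ := funext he2
    refine ⟨⟨e, (key e).1 (by rw [h2]; exact hφ)⟩, Subtype.ext h2⟩

end Pool.Agent.Q206.ME
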