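import Pool.Agent.H527R2.SharpP

/-!
# The Morse ensemble polynomial and `#P`-hardness of its computation: definitions
-/

namespace Pool.Agent.Q206.ME

open Finset Pool.Agent.NPC

/-- A finite abstract simplicial complex on natural numbers, given by the set of its simplices:
all simplices are nonempty, and all nonempty subsets of simplices are simplices. -/
def IsComplex (K : Finset (Finset ℕ)) : Prop :=
  ∀ s ∈ K, s.Nonempty ∧ ∀ t ⊆ s, t.Nonempty → t ∈ K

/-- `(a, b)` is a covering pair of the face poset. -/
def Covers (K : Finset (Finset ℕ)) (a b : Finset ℕ) : Prop :=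
  a ∈ K ∧ b ∈ K ∧ a ⊆ b ∧ b.card = a.card + 1

/-- There is an arc from `a` to `b` in the Hasse diagram of the face poset (with the edges directed
downward) after reversing the pairs of `M`. -/
def Arc (K : Finset (Finset ℕ)) (M : Finset (Finset ℕ × Finset ℕ)) (a b : Finset ℕ) : Prop :=
  (Covers K b a ∧ (b, a) ∉ M) ∨ (Covers K a b ∧ (a, b) ∈ M)

/-- Acyclic matchings of the face poset (the empty one is allowed). -/
structure IsAcyclicMatching (K : Finset (Finset ℕ)) (M : Finset (Finset ℕ × Finset ℕ)) :
    Prop where
  covers : ∀ p ∈ M, Covers K p.1 p.2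
  /-- every simplex lies in at most one pair -/
  disjoint : ∀ p ∈ M, ∀ q ∈ M, p ≠ q → p.1 ≠ q.1 ∧ p.1 ≠ q.2 ∧ p.2 ≠ q.2
  acyclic : ∀ s, ¬ Relation.TransGen (Arc K M) s s

/-- The number of critical `i`-simplices. -/
def crit (K : Finset (Finset ℕ)) (M : Finset (Finset ℕ × Finset ℕ)) (i : ℕ) : ℕ :=
  (K.filter fun s => s.card = i + 1 ∧ ∀ p ∈ M, s ≠ p.1 ∧ s ≠ p.2).card

open Classical in
/-- The Morse ensemble polynomial. The number `K.sup Finset.card` is `d + 1`, where `d` is the
dimension of `K`. -/
noncomputable def ensemble (K : Finset (Finset ℕ)) : MvPolynomial ℕ ℕ :=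
  ∑ M ∈ (K ×ˢ K).powerset.filter (IsAcyclicMatching K),
    ∏ i ∈ range (K.sup Finset.card), MvPolynomial.X i ^ crit K M i

/-- `L` is the list of all simplices of the complex `K`, each listed once, a simplex being given
by the increasing list of its vertices. -/
def Lists (L : List (List ℕ)) (K : Finset (Finset ℕ)) : Prop :=
  L.Nodup ∧ (∀ s ∈ L, s.Pairwise (· < ·)) ∧ K = (L.map List.toFinset).toFinset

open Classical in
/-- `O` is a list (in any order, without repetitions) of the monomials of the Morse ensemble
polynomial of `K` with nonzero coefficient, together with their coefficients; the list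
`[c₀, …, c_d]` stands for the monomial `z₀ ^ c₀ ⋯ z_d ^ c_d`. -/
def IsOutput (K : Finset (Finset ℕ)) (O : List (List ℕ × ℕ)) : Prop :=
  (O.map Prod.fst).Nodup ∧ ∀ (c : List ℕ) (a : ℕ), (c, a) ∈ O ↔
    c.length = K.sup Finset.card ∧ a ≠ 0 ∧ a = (ensemble K).coeff c.toFinsupp

/-- The function `g` on strings computes the Morse ensemble polynomials of all complexes of
dimension at most `d`. -/
def Computes (d : ℕ) (g : List Bool → List Bool) : Prop :=
  ∀ (L : List (List ℕ)) (K : Finset (Finset ℕ)), IsComplex K → Lists L K →
    K.sup Finset.card ≤ d + 1 → ∃ O, IsOutput K O ∧ g (bits L) = bits O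

/-- Polynomial-time Turing reducibility of a counting function `f` to a function `g` on strings:
`f` is computed by a polynomial-time algorithm with oracle `g`. The algorithm is given by its
function `next`, which from the input `x` and the list of the answers received so far computes in
polynomial time either the next query (`Sum.inl q`) or the final output (`Sum.inr n`). On input `x`
it makes at most `p(|x|)` queries, the queries and the answers have length at most `p(|x|)`, and the
final output is `f x`. -/
def TuringReduces (f : List Bool → ℕ) (g : List Bool → List Bool) : Prop :=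
  ∃ (next : List Bool × List (List Bool) → List Bool ⊕ ℕ) (N : List Bool → List Bool)
    (p : Polynomial ℕ), PolyTime N ∧ (∀ s, N (bits s) = bits (next s)) ∧
    ∀ x, ∃ ans : List (List Bool), ans.length ≤ p.eval x.length ∧
      (∀ i (hi : i < ans.length), ∃ q : List Bool, next (x, ans.take i) = Sum.inl q ∧
        q.length ≤ p.eval x.length ∧ ans[i] = g q ∧ (g q).length ≤ p.eval x.length) ∧
      next (x, ans) = Sum.inr (f x)

/-- `#P`-hardness of a function on strings under polynomial-time Turing reductions. -/
def SharpPHard (g : List Bool → List Bool) : Prop := ∀ f, Cnt.SharpP f → TuringReduces f g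

end Pool.Agent.Q206.ME
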