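import Pool.Agent.Q206.ME.Stm

/-!
# A state and matchings of the gadgets give a full acyclic matching
-/

set_option autoImplicit false

namespace Pool.Agent.Q206.ME.Bwd

open Finset Relation

/-- an acyclic relation on a finite type has a rank function -/
lemma exists_rank {T : Type} [Finite T] (R : T → T → Prop) (h : ∀ t, ¬ TransGen R t t) :
    ∃ r : T → ℕ, ∀ a b, R a b → r b < r a := by
  classical
  refine ⟨fun a => {b | TransGen R a b}.ncard, fun a b hab => ?_⟩
  refine Set.ncard_lt_ncard ?_ (Set.toFinite _)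
  refine ⟨fun c hc => TransGen.head hab hc, fun hc => ?_⟩
  exact h b (hc (TransGen.single hab))

variable {n : ℕ} {A : Fin n → Bool → Fin n → Bool}

lemma tap_image (v : Fin n) (p : Bool) (w : Fin n) :
    tapE.image (emb A (.D v p w)) = pe v p := by
  simp [tapE, emb, port, pe]

lemma pe_card (v : Fin n) (p : Bool) : (pe v p).card = 2 := by
  cases p <;> simp [pe]

lemma ce_card (v : Fin n) (j : ℕ) : (ce v j).card = 2 := by
  simp [ce]

lemma pe_sub (v : Fin n) (p : Bool) : pe v p ⊆ vs A (.s v) := by
  cases p <;> simp [pe, vs, Finset.subset_iff]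

lemma ce_sub (v : Fin n) (j : Fin (2 * n + 1)) : ce v j ⊆ vs A (.c v j) := by
  simp [ce, vs, Finset.subset_iff]

section

variable (hG : Geo A) {s : Fin n → Bool} {μ : Gad n → Fin 13 → Finset (Fin 7)}
  (hT : TapOk s μ)

include hG

lemma img_inj (i : Gad n) {e e' : Finset (Fin 7)} (h : e.image (emb A i) = e'.image (emb A i)) :
    e = e' := Finset.image_injective (hG.emb_inj i) h

include hT

/-- if the image of `μ i t` is contained in the triangle `y` -/
lemma step_g (i : Gad n) (t : Fin 13) (y : Nod n) (h : (μ i t).image (emb A i) ⊆ vs A y) :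
    (∃ t', y = .g i t' ∧ μ i t ⊆ P t') ∨
    (μ i t = exE ∧ ∃ v, ∃ j : Fin (2 * n + 1), y = .c v j ∧
      (side A i = some (v, (j : ℕ)) ∨ ((j : ℕ) = 2 * n ∧ side A i = some (v, 2 * n + 1)))) ∨
    (μ i t = tapE ∧ ∃ v w, i = .D v (!s v) w ∧
      (y = .s v ∨ ∃ w' t', y = .g (.D v (!s v) w') t' ∧ tapE ⊆ P t')) := by
  by_cases h1 : μ i t = exE
  · rw [h1] at h
    rcases hG.exit_edge i y h with ⟨t', h2, h3⟩ | h2
    · exact Or.inl ⟨t', h2, h1 ▸ h3⟩
    · exact Or.inr (Or.inl ⟨h1, h2⟩)
  by_cases h2 : μ i t = tapE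
  · rw [h2] at h
    cases i with
    | D v p w =>
      have hp : p = !s v := by
        by_contra hc
        have hp : p = s v := by
          revert hc
          cases p <;> cases s v <;> simp
        subst hp
        exact (hT.2 v).1 w ⟨t, h2⟩
      subst hp
      rw [tap_image] at h
      rcases hG.port_edge v _ y h with h3 | ⟨w', t', h3, h4⟩
      · exact Or.inr (Or.inr ⟨h2, v, w, rfl, Or.inl h3⟩)
      · exact Or.inr (Or.inr ⟨h2, v, w, rfl, Or.inr ⟨w', t', h3, h4⟩⟩)
    | B u p v =>
      obtain ⟨t', h3, h4⟩ := hG.tap_edge (.B u p v) y rfl h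
      exact Or.inl ⟨t', h3, h2 ▸ h4⟩
    | E v l =>
      obtain ⟨t', h3, h4⟩ := hG.tap_edge (.E v l) y rfl h
      exact Or.inl ⟨t', h3, h2 ▸ h4⟩
  · obtain ⟨t', h3, h4⟩ := hG.inner_edge i (μ i t) y ((hT.1 i).card t) h2 h1 h
    exact Or.inl ⟨t', h3, h4⟩

/-- the images of `s` and `c` triangles -/
lemma inj_s (v : Fin n) (y : Nod n) (h : phi A s μ (.s v) = phi A s μ y)
    (hsub : phi A s μ y ⊆ vs A y) : y = .s v := by
  have h1 : pe v (s v) ⊆ vs A y := by
    have : phi A s μ (.s v) = pe v (s v) := rfl
    rw [← this, h]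
    exact hsub
  rcases hG.port_edge v _ y h1 with h2 | ⟨w, t, h2, -⟩
  · exact h2
  · exfalso
    subst h2
    have h3 : (μ (.D v (s v) w) t).image (emb A (.D v (s v) w)) =
        tapE.image (emb A (.D v (s v) w)) := by
      rw [tap_image]
      exact h.symm
    exact (hT.2 v).1 w ⟨t, img_inj hG _ h3⟩

lemma inj_c (v : Fin n) (j : Fin (2 * n + 1)) (y : Nod n)
    (h : phi A s μ (.c v j) = phi A s μ y) (hsub : phi A s μ y ⊆ vs A y) : y = .c v j := by
  have h1 : ce v j ⊆ vs A y := by
    have : phi A s μ (.c v j) = ce v j := rfl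
    rw [← this, h]
    exact hsub
  rcases hG.chain_edge v j y j.2 h1 with ⟨-, h2⟩ | ⟨i, h2, h3 | h3⟩
  · exfalso
    subst h2
    have h4 : Vtx.X v ∈ phi A s μ (.s v) := by simp [phi, pe]
    rw [← h] at h4
    simp [phi, ce] at h4
  · rw [h2, Fin.ext h3]
  · exfalso
    subst h2
    have h4 : Vtx.b v (i : ℕ) ∈ phi A s μ (.c v i) := by simp [phi, ce]
    rw [← h] at h4
    simp [phi, ce] at h4
    omega

end

lemma phi_sub {s : Fin n → Bool} {μ : Gad n → Fin 13 → Finset (Fin 7)} (hT : TapOk s μ)
    (x : Nod n) : phi A s μ x ⊆ vs A x := by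
  cases x with
  | s v => exact pe_sub v _
  | c v j => exact ce_sub v j
  | g i t => exact Finset.image_subset_image ((hT.1 i).sub t)

open Classical in
/-- first component of the rank of the triangles of a gadget -/
noncomputable def RR (A : Fin n → Bool → Fin n → Bool) (s : Fin n → Bool)
    (μ : Gad n → Fin 13 → Finset (Fin 7)) (ρ : Fin n → ℕ) (i : Gad n) : ℕ :=
  if ∃ v w, i = .D v (!s v) w ∧ uses (μ i) then 2 * (∑ v, ρ v) + 5
  else (side A i).elim 1 fun x => 2 * ρ x.1 + 3

lemma RR_lt (s : Fin n → Bool) (μ : Gad n → Fin 13 → Finset (Fin 7)) (ρ : Fin n → ℕ) (i : Gad n)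
    (h : ¬ ∃ v w, i = .D v (!s v) w ∧ uses (μ i)) :
    RR A s μ ρ i < 2 * (∑ v, ρ v) + 5 := by
  rw [RR, if_neg h]
  cases hs : side A i with
  | none => simp
  | some x =>
    have : ρ x.1 ≤ ∑ v, ρ v := Finset.single_le_sum (fun _ _ => Nat.zero_le _) (Finset.mem_univ x.1)
    simp only [Option.elim_some]
    omega

lemma RR_gt (s : Fin n → Bool) (μ : Gad n → Fin 13 → Finset (Fin 7)) (ρ : Fin n → ℕ) (i : Gad n)
    (v : Fin n) (j : ℕ) (h : side A i = some (v, j)) : 2 * ρ v + 2 < RR A s μ ρ i := by
  have : ρ v ≤ ∑ v, ρ v := Finset.single_le_sum (fun _ _ => Nat.zero_le _) (Finset.mem_univ v)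
  rw [RR]
  split_ifs
  · omega
  · rw [h]
    simp

/-- **ME-BWD.** -/
theorem bwd : S_BWD := by
  intro n A hG hP s μ hA hT
  refine ⟨phi_sub hT, ?_, ?_, ?_⟩
  · intro x
    cases x with
    | s v => exact pe_card v _
    | c v j => exact ce_card v j
    | g i t =>
      change ((μ i t).image (emb A i)).card = 2
      rw [Finset.card_image_of_injective _ (hG.emb_inj i)]
      exact (hT.1 i).card t
  · intro x y h
    cases x with
    | s v => exact (inj_s hG hT v y h (phi_sub hT y)).symm
    | c v j => exact (inj_c hG hT v j y h (phi_sub hT y)).symm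
    | g i t =>
      cases y with
      | s v => exact inj_s hG hT v _ h.symm (phi_sub hT _)
      | c v j => exact inj_c hG hT v j _ h.symm (phi_sub hT _)
      | g i' t' =>
        have hii : i' = i := by
          have h1 : (μ i t).image (emb A i) ⊆ vs A (.g i' t') := by
            have : phi A s μ (.g i t) = (μ i t).image (emb A i) := rfl
            rw [← this, h]
            exact phi_sub hT _
          rcases step_g hG hT i t _ h1 with ⟨t'', h2, -⟩ | ⟨-, v, j, h2, -⟩ |
            ⟨h0, v, w, h2, h3 | ⟨w', t'', h3, h4⟩⟩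
          · injection h2
          · cases h2
          · cases h3
          · injection h3 with h5 h6
            subst h5
            subst h2
            have h7 : (μ (.D v (!s v) w') t').image (emb A (.D v (!s v) w')) =
                tapE.image (emb A (.D v (!s v) w')) := by
              have e1 : phi A s μ (.g (.D v (!s v) w') t') =
                (μ (.D v (!s v) w') t').image (emb A (.D v (!s v) w')) := rfl
              have e2 : phi A s μ (.g (.D v (!s v) w) t) =
                (μ (.D v (!s v) w) t).image (emb A (.D v (!s v) w)) := rfl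
              rw [← e1, ← h, e2, h0, tap_image, tap_image]
            have h8 := (hT.2 v).2 w w' ⟨t, h0⟩ ⟨t', img_inj hG _ h7⟩
            rw [h8]
        subst hii
        have h1 : (μ i' t).image (emb A i') = (μ i' t').image (emb A i') := h
        rw [(hT.1 i').inj (img_inj hG _ h1)]
  · obtain ⟨ρ, hρ⟩ := exists_rank _ hA
    have hr := fun i => exists_rank _ (hT.1 i).acyc
    choose r hr using hr
    let rk : Nod n → ℕ ×ₗ ℕ := fun x => match x with
      | .s v => toLex (2 * ρ v + 2, 0)
      | .c v j => toLex (2 * ρ v + 2, (j : ℕ) + 1)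
      | .g i t => toLex (RR A s μ ρ i, r i t)
    have key : ∀ x y, Rel (vs A) (phi A s μ) x y → rk y < rk x := by
      intro x y h
      obtain ⟨hne, hsub⟩ := h
      cases x with
      | s v =>
        rcases hG.port_edge v _ y hsub with h2 | ⟨w, t, h2, -⟩
        · exact absurd h2 hne
        · subst h2
          refine Prod.Lex.toLex_lt_toLex.2 (Or.inl ?_)
          change RR A s μ ρ _ < 2 * ρ v + 2
          rw [RR, if_neg]
          · cases hA' : A v (s v) w
            · simp [side, hA']
            · have := hρ v w hA'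
              simp only [side, hA', if_true, Option.elim_some]
              omega
          · rintro ⟨v', w', h3, -⟩
            injection h3 with h4 h5 h6
            subst h4
            revert h5
            cases s v <;> simp
      | c v j =>
        rcases hG.chain_edge v j y j.2 hsub with ⟨-, h2⟩ | ⟨i, h2, h3 | h3⟩
        · subst h2
          exact Prod.Lex.toLex_lt_toLex.2 (Or.inr ⟨rfl, Nat.succ_pos _⟩)
        · exact absurd (by rw [h2, Fin.ext h3]) hne
        · subst h2
          refine Prod.Lex.toLex_lt_toLex.2 (Or.inr ⟨rfl, ?_⟩)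
          change (i : ℕ) + 1 < (j : ℕ) + 1
          omega
      | g i t =>
        have hin : ∀ t', y = .g i t' → μ i t ⊆ P t' → rk y < rk (.g i t) := by
          intro t' h2 h3
          subst h2
          refine Prod.Lex.toLex_lt_toLex.2 (Or.inr ⟨rfl, ?_⟩)
          exact hr i t t' ⟨fun hc => hne (by rw [hc]), h3⟩
        rcases step_g hG hT i t _ hsub with ⟨t'', h2, h3⟩ | ⟨-, v, j, h2, h3⟩ |
          ⟨h0, v, w, h2, h3⟩
        · exact hin t'' h2 h3
        · subst h2
          refine Prod.Lex.toLex_lt_toLex.2 (Or.inl ?_)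
          change 2 * ρ v + 2 < RR A s μ ρ i
          rcases h3 with h3 | ⟨-, h3⟩
          · exact RR_gt s μ ρ i v _ h3
          · exact RR_gt s μ ρ i v _ h3
        · subst h2
          have hbig : RR A s μ ρ (.D v (!s v) w) = 2 * (∑ v, ρ v) + 5 := by
            rw [RR, if_pos ⟨v, w, rfl, t, h0⟩]
          rcases h3 with h3 | ⟨w', t', h3, h4⟩
          · subst h3
            refine Prod.Lex.toLex_lt_toLex.2 (Or.inl ?_)
            change 2 * ρ v + 2 < RR A s μ ρ _
            rw [hbig]
            have : ρ v ≤ ∑ v, ρ v :=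
              Finset.single_le_sum (fun _ _ => Nat.zero_le _) (Finset.mem_univ v)
            omega
          · by_cases hw : w' = w
            · subst hw
              exact hin t' h3 (by rw [h0]; exact h4)
            · subst h3
              refine Prod.Lex.toLex_lt_toLex.2 (Or.inl ?_)
              change RR A s μ ρ _ < RR A s μ ρ _
              rw [hbig]
              apply RR_lt
              rintro ⟨v', w'', h5, h6⟩
              exact hw ((hT.2 v).2 w w' ⟨t, h0⟩ h6).symm
    intro x hx
    have : ∀ a b, TransGen (Rel (vs A) (phi A s μ)) a b → rk b < rk a := by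
      intro a b hab
      induction hab with
      | single h => exact key _ _ h
      | tail _ h ih => exact (key _ _ h).trans ih
    exact lt_irrefl _ (this x x hx)

end Pool.Agent.Q206.ME.Bwd
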