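import Pool.Agent.Q206.ME.JPick

/-!
# Outputs exist
-/

set_option autoImplicit false

namespace Pool.Agent.Q206.ME.Ex

open Finset Relation Pool.Agent.NPC Pool.Agent.Q206.ME.Pick

lemma coeff_ne_zero (K : Finset (Finset ℕ)) (c : List ℕ) (hc : c.length = K.sup Finset.card) :
    (ensemble K).coeff c.toFinsupp ≠ 0 ↔ ∃ M ∈ AM K, cr K M = c := by
  classical
  rw [coeff_eq K c hc]
  constructor
  · intro h
    obtain ⟨M, hM⟩ := Finset.card_pos.1 (Nat.pos_of_ne_zero h)
    exact ⟨M, (Finset.mem_filter.1 hM).1, (Finset.mem_filter.1 hM).2⟩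
  · rintro ⟨M, h1, h2⟩
    have : M ∈ (AM K).filter (fun M' => cr K M' = c) := Finset.mem_filter.2 ⟨h1, h2⟩
    exact (Finset.card_pos.2 ⟨M, this⟩).ne'

lemma exists_output (K : Finset (Finset ℕ)) : ∃ O, IsOutput K O := by
  classical
  refine ⟨((AM K).image (cr K)).toList.map fun c => (c, (ensemble K).coeff c.toFinsupp), ?_, ?_⟩
  · rw [List.map_map]
    have : (Prod.fst ∘ fun c : List ℕ => (c, (ensemble K).coeff c.toFinsupp)) = id := rfl
    rw [this, List.map_id]
    exact Finset.nodup_toList _
  · intro c a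
    rw [List.mem_map]
    constructor
    · rintro ⟨c', h1, h2⟩
      simp only [Prod.mk.injEq] at h2
      obtain ⟨rfl, rfl⟩ := h2
      rw [Finset.mem_toList, Finset.mem_image] at h1
      obtain ⟨M, h3, h4⟩ := h1
      have h5 : c'.length = K.sup Finset.card := by rw [← h4, length_cr]
      exact ⟨h5, (coeff_ne_zero K c' h5).2 ⟨M, h3, h4⟩, rfl⟩
    · rintro ⟨h1, h2, h3⟩
      subst h3
      obtain ⟨M, h4, h5⟩ := (coeff_ne_zero K c h1).1 h2
      exact ⟨c, by rw [Finset.mem_toList]; exact Finset.mem_image.2 ⟨M, h4, h5⟩, rfl⟩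

/-- **ME-EX.** -/
theorem main : S_EX := by
  classical
  intro d
  refine ⟨fun x => if h : ∃ L : List (List ℕ), bits L = x then
    bits (exists_output (h.choose.map List.toFinset).toFinset).choose else [], ?_⟩
  intro L K _ hL _
  have h : ∃ L' : List (List ℕ), bits L' = bits L := ⟨L, rfl⟩
  have h1 : h.choose = L := bits_injective h.choose_spec
  have h2 : K = (h.choose.map List.toFinset).toFinset := by
    rw [h1]
    exact hL.2.2
  refine ⟨(exists_output (h.choose.map List.toFinset).toFinset).choose, ?_, ?_⟩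
  · have := (exists_output (h.choose.map List.toFinset).toFinset).choose_spec
    rw [← h2] at this ⊢
    exact this
  · simp only [dif_pos h]

end Pool.Agent.Q206.ME.Ex
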