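import Pool.Agent.Q206.ME.Stm

/-!
# Every full acyclic matching comes from a state and matchings of the gadgets
-/

set_option autoImplicit false

namespace Pool.Agent.Q206.ME.Fwd

open Finset Relation

variable {n : ℕ} {A : Fin n → Bool → Fin n → Bool}

lemma side_exists (A : Fin n → Bool → Fin n → Bool) (v : Fin n) (j : ℕ) (hj : j ≤ 2 * n + 1) :
    ∃ i, side A i = some (v, j) := by
  rcases Nat.eq_zero_or_pos j with rfl | h0
  · exact ⟨.E v false, rfl⟩
  rcases Nat.lt_or_ge (2 * n) j with h1 | h1
  · have : j = 2 * n + 1 := by omega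
    subst this
    exact ⟨.E v true, rfl⟩
  · obtain ⟨u, p, hup⟩ : ∃ (u : Fin n) (p : Bool), num u p = j := by
      rcases Nat.lt_or_ge n j with h2 | h2
      · refine ⟨⟨j - 1 - n, by omega⟩, true, ?_⟩
        simp only [num, if_true]
        omega
      · refine ⟨⟨j - 1, by omega⟩, false, ?_⟩
        simp [num]
        omega
    cases hA : A u p v
    · exact ⟨.B u p v, by simp [side, hA, hup]⟩
    · exact ⟨.D u p v, by simp [side, hA, hup]⟩

lemma exit_image {i : Gad n} {v : Fin n} {j : ℕ} (hj : j ≤ 2 * n) (h : side A i = some (v, j)) :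
    exE.image (emb A i) = {.b v (j + 1), .b v j} := by
  have h1 : j ≠ 2 * n + 1 := by omega
  simp [exE, emb, h, h1]

lemma exit_image' {i : Gad n} {v : Fin n} (h : side A i = some (v, 2 * n + 1)) :
    exE.image (emb A i) = {.Z v, .b v (2 * n + 1)} := by
  simp [exE, emb, h]

lemma tap_image (v : Fin n) (p : Bool) (w : Fin n) :
    tapE.image (emb A (.D v p w)) = pe v p := by
  simp [tapE, emb, port, pe]

lemma num_le (u : Fin n) (p : Bool) : num u p ≤ 2 * n := by
  have := u.2
  cases p <;> simp [num] <;> omega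

/-- a two-element subset of a set of three elements -/
lemma two_of_three {W : Type} [DecidableEq W] {x y z : W} {e : Finset W} (h : e ⊆ {x, y, z})
    (hc : e.card = 2) : e = {x, y} ∨ e = {x, z} ∨ e = {y, z} := by
  obtain ⟨a, b, hab, rfl⟩ := Finset.card_eq_two.1 hc
  have ha := h (Finset.mem_insert_self a {b})
  have hb := h (Finset.mem_insert_of_mem (Finset.mem_singleton_self b))
  simp only [Finset.mem_insert, Finset.mem_singleton] at ha hb
  rcases ha with rfl | rfl | rfl <;> rcases hb with rfl | rfl | rfl <;>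
    first
    | exact absurd rfl hab
    | exact Or.inl rfl
    | exact Or.inl (Finset.pair_comm _ _)
    | exact Or.inr (Or.inl rfl)
    | exact Or.inr (Or.inl (Finset.pair_comm _ _))
    | exact Or.inr (Or.inr rfl)
    | exact Or.inr (Or.inr (Finset.pair_comm _ _))

/-- the matching of a gadget -/
noncomputable def mu (A : Fin n → Bool → Fin n → Bool) (φ : Nod n → Finset (Vtx n)) (i : Gad n)
    (t : Fin 13) : Finset (Fin 7) := (P t).filter fun k => emb A i k ∈ φ (.g i t)

lemma mu_image {φ : Nod n → Finset (Vtx n)} (hφ : IsFam (vs A) φ) (i : Gad n) (t : Fin 13) :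
    (mu A φ i t).image (emb A i) = φ (.g i t) := by
  ext x
  simp only [mu, Finset.mem_image, Finset.mem_filter]
  constructor
  · rintro ⟨k, ⟨-, hk⟩, rfl⟩
    exact hk
  · intro hx
    have h1 : x ∈ (P t).image (emb A i) := hφ.sub (.g i t) hx
    obtain ⟨k, hk, rfl⟩ := Finset.mem_image.1 h1
    exact ⟨k, ⟨hk, hx⟩, rfl⟩

lemma rel_lift {φ : Nod n → Finset (Vtx n)} (hφ : IsFam (vs A) φ) (i : Gad n) (a b : Fin 13)
    (h : Rel P (mu A φ i) a b) : Rel (vs A) φ (.g i a) (.g i b) := by
  refine ⟨fun hc => h.1 (by injection hc), ?_⟩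
  rw [← mu_image hφ]
  exact Finset.image_subset_image h.2

lemma mu_fam (hG : Geo A) {φ : Nod n → Finset (Vtx n)} (hφ : IsFam (vs A) φ) (i : Gad n) :
    IsFam P (mu A φ i) where
  sub t := Finset.filter_subset _ _
  card t := by
    rw [← Finset.card_image_of_injective _ (hG.emb_inj i), mu_image hφ]
    exact hφ.card _
  inj t t' h := by
    have h1 : φ (.g i t) = φ (.g i t') := by rw [← mu_image hφ, ← mu_image hφ, h]
    have h2 := hφ.inj h1
    injection h2
  acyc t h := hφ.acyc (.g i t) (TransGen.lift (fun t => Nod.g i t) (rel_lift hφ i) _ _ h)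

lemma exit_eq (hG : Geo A) (hP : PFacts) {φ : Nod n → Finset (Vtx n)} (hφ : IsFam (vs A) φ)
    (i : Gad n) : φ (.g i tEx) = exE.image (emb A i) := by
  rw [← mu_image hφ, (hP.exit _ (mu_fam hG hφ i)).1]

lemma chain (hG : Geo A) (hP : PFacts) {φ : Nod n → Finset (Vtx n)} (hφ : IsFam (vs A) φ)
    (v : Fin n) : ∀ d : ℕ, ∀ j : Fin (2 * n + 1), (j : ℕ) + d = 2 * n → φ (.c v j) = ce v j := by
  intro d
  induction d with
  | zero =>
    intro j hj
    have h1 : φ (.c v j) ⊆ {.Z v, .b v j, .b v (j + 1)} := hφ.sub (.c v j)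
    rcases two_of_three h1 (hφ.card _) with h | h | h
    · exact h
    · exfalso
      obtain ⟨i, hi⟩ := side_exists A v (2 * n + 1) le_rfl
      have h2 := exit_eq hG hP hφ i
      rw [exit_image' hi] at h2
      have h3 : φ (.c v j) = φ (.g i tEx) := by
        rw [h, h2]
        have : (j : ℕ) + 1 = 2 * n + 1 := by omega
        rw [this]
      have := hφ.inj h3
      cases this
    · exfalso
      obtain ⟨i, hi⟩ := side_exists A v j (by omega)
      have h2 := exit_eq hG hP hφ i
      rw [exit_image (by omega) hi] at h2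
      have h3 : φ (.c v j) = φ (.g i tEx) := by
        rw [h, h2, Finset.pair_comm]
      have := hφ.inj h3
      cases this
  | succ d ih =>
    intro j hj
    have h1 : φ (.c v j) ⊆ {.Z v, .b v j, .b v (j + 1)} := hφ.sub (.c v j)
    rcases two_of_three h1 (hφ.card _) with h | h | h
    · exact h
    · exfalso
      have h2 := ih ⟨(j : ℕ) + 1, by omega⟩ (by simp only; omega)
      have h3 : φ (.c v j) = φ (.c v ⟨(j : ℕ) + 1, by omega⟩) := by
        rw [h, h2]
        rfl
      have h4 := hφ.inj h3
      injection h4 with h5 h6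
      have := congrArg Fin.val h6
      simp at this
    · exfalso
      obtain ⟨i, hi⟩ := side_exists A v j (by omega)
      have h2 := exit_eq hG hP hφ i
      rw [exit_image (by omega) hi] at h2
      have h3 : φ (.c v j) = φ (.g i tEx) := by
        rw [h, h2, Finset.pair_comm]
      have := hφ.inj h3
      cases this

lemma chain' (hG : Geo A) (hP : PFacts) {φ : Nod n → Finset (Vtx n)} (hφ : IsFam (vs A) φ)
    (v : Fin n) (j : Fin (2 * n + 1)) : φ (.c v j) = ce v j :=
  chain hG hP hφ v (2 * n - j) j (by omega)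

lemma switch (hG : Geo A) (hP : PFacts) {φ : Nod n → Finset (Vtx n)} (hφ : IsFam (vs A) φ)
    (v : Fin n) : ∃ p, φ (.s v) = pe v p := by
  have h1 : φ (.s v) ⊆ {.X v, .b v 0, .Z v} := hφ.sub (.s v)
  rcases two_of_three h1 (hφ.card _) with h | h | h
  · exact ⟨true, h⟩
  · exact ⟨false, h⟩
  · exfalso
    have h2 := chain' hG hP hφ v ⟨0, by omega⟩
    have h3 : φ (.s v) = φ (.c v ⟨0, by omega⟩) := by
      rw [h, h2, Finset.pair_comm]
      rfl
    have := hφ.inj h3
    cases this

lemma down (hG : Geo A) (hP : PFacts) {φ : Nod n → Finset (Vtx n)} (hφ : IsFam (vs A) φ)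
    (w : Fin n) : ∀ (j : ℕ) (hj : j < 2 * n + 1), TransGen (Rel (vs A) φ) (.c w ⟨j, hj⟩) (.s w) := by
  intro j
  induction j with
  | zero =>
    intro hj
    refine TransGen.single ⟨by simp, ?_⟩
    rw [chain' hG hP hφ]
    intro x hx
    simp only [ce, Finset.mem_insert, Finset.mem_singleton] at hx
    simp only [vs, Finset.mem_insert, Finset.mem_singleton]
    rcases hx with rfl | rfl
    · exact Or.inr (Or.inr rfl)
    · exact Or.inr (Or.inl rfl)
  | succ j ih =>
    intro hj
    refine TransGen.head ⟨?_, ?_⟩ (ih (by omega))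
    · intro hc
      injection hc with _ h6
      have := congrArg Fin.val h6
      simp at this
    · rw [chain' hG hP hφ]
      intro x hx
      simp only [ce, Finset.mem_insert, Finset.mem_singleton] at hx
      simp only [vs, Finset.mem_insert, Finset.mem_singleton]
      rcases hx with rfl | rfl
      · exact Or.inl rfl
      · exact Or.inr (Or.inr rfl)

/-- **ME-FWD.** -/
theorem fwd : S_FWD := by
  intro n A hG hP φ hφ
  choose s hs using switch hG hP hφ
  refine ⟨s, mu A φ, ?_, ⟨fun i => mu_fam hG hφ i, fun v => ⟨?_, ?_⟩⟩, ?_⟩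
  · -- acyclicity
    have key : ∀ u w, A u (s u) w = true → TransGen (Rel (vs A) φ) (.s u) (.s w) := by
      intro u w h
      have hi : side A (.D u (s u) w) = some (w, num u (s u)) := by simp [side, h]
      have hnum := num_le u (s u)
      have h1 : Rel (vs A) φ (.s u) (.g (.D u (s u) w) tTap) := by
        refine ⟨by simp, ?_⟩
        rw [hs, ← tap_image (A := A) u (s u) w]
        exact Finset.image_subset_image (by decide)
      have h2 : ReflTransGen (Rel (vs A) φ) (.g (.D u (s u) w) tTap) (.g (.D u (s u) w) tEx) :=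
        ReflTransGen.lift (fun t => Nod.g (.D u (s u) w) t) (rel_lift hφ _) _ _
          ((hP.exit _ (mu_fam hG hφ (.D u (s u) w))).2 tTap)
      have h3 : Rel (vs A) φ (.g (.D u (s u) w) tEx) (.c w ⟨num u (s u), by omega⟩) := by
        refine ⟨by simp, ?_⟩
        rw [exit_eq hG hP hφ, exit_image hnum hi]
        intro x hx
        simp only [Finset.mem_insert, Finset.mem_singleton] at hx
        simp only [vs, Finset.mem_insert, Finset.mem_singleton]
        rcases hx with rfl | rfl
        · exact Or.inr (Or.inr rfl)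
        · exact Or.inr (Or.inl rfl)
      exact TransGen.trans_right (ReflTransGen.tail (ReflTransGen.head h1 h2) h3)
        (down hG hP hφ w _ _)
    intro v hv
    exact hφ.acyc (.s v) (TransGen.lift' (fun v => Nod.s v) key _ _ hv)
  · rintro w ⟨t, ht⟩
    have h1 := mu_image hφ (.D v (s v) w) t
    rw [ht, tap_image, ← hs] at h1
    have := hφ.inj h1
    cases this
  · rintro w w' ⟨t, ht⟩ ⟨t', ht'⟩
    have h1 := mu_image hφ (.D v (!s v) w) t
    have h2 := mu_image hφ (.D v (!s v) w') t'
    rw [ht, tap_image] at h1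
    rw [ht', tap_image] at h2
    have h3 := hφ.inj (h1.symm.trans h2)
    injection h3 with h4 h5
    injection h4
  · funext x
    cases x with
    | s v => exact hs v
    | c v j => exact chain' hG hP hφ v j
    | g i t => exact (mu_image hφ i t).symm

end Pool.Agent.Q206.ME.Fwd
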