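import Pool.Agent.Q206.ME.Stm

/-!
# The incidences of vertices and triangles
-/

set_option autoImplicit false

namespace Pool.Agent.Q206.ME.G1

open Finset Relation

variable {n : ℕ} {A : Fin n → Bool → Fin n → Bool}

lemma num_pos (u : Fin n) (p : Bool) : 1 ≤ num u p := by simp [num]; omega

lemma num_le (u : Fin n) (p : Bool) : num u p ≤ 2 * n := by
  have := u.2
  cases p <;> simp [num] <;> omega

lemma num_inj {u u' : Fin n} {p p' : Bool} (h : num u p = num u' p') : u = u' ∧ p = p' := by
  have h1 := u.2
  have h2 := u'.2
  cases p <;> cases p' <;> simp [num] at h ⊢ <;> first | (exact Fin.ext (by omega)) | omega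

lemma side_le {i : Gad n} {v : Fin n} {j : ℕ} (h : side A i = some (v, j)) : j ≤ 2 * n + 1 := by
  cases i with
  | D u p w =>
    have := num_le u p
    simp only [side] at h
    split_ifs at h
    simp at h
    omega
  | B u p w =>
    have := num_le u p
    simp only [side] at h
    split_ifs at h
    simp at h
    omega
  | E w l =>
    cases l <;> simp [side] at h <;> omega

lemma side_last {i : Gad n} {v : Fin n} (h : side A i = some (v, 2 * n + 1)) : i = .E v true := by
  cases i with
  | D u p w =>
    have := num_le u p
    simp only [side] at h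
    split_ifs at h
    simp at h
    omega
  | B u p w =>
    have := num_le u p
    simp only [side] at h
    split_ifs at h
    simp at h
    omega
  | E w l =>
    cases l
    · simp [side] at h
    · simp [side] at h
      rw [h]

lemma side_inj {i i' : Gad n} {x : Fin n × ℕ} (h : side A i = some x) (h' : side A i' = some x) :
    i = i' := by
  obtain ⟨v, j⟩ := x
  cases i with
  | D u p w =>
    have a1 := num_le u p
    have a2 := num_pos u p
    cases i' with
    | D u' p' w' =>
      simp only [side] at h h'
      split_ifs at h h'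
      simp at h h'
      obtain ⟨h1, h2⟩ := num_inj (h.2.trans h'.2.symm)
      rw [h1, h2, h.1, h'.1]
    | B u' p' w' =>
      simp only [side] at h h'
      split_ifs at h h' with h3 h4
      simp at h h'
      obtain ⟨h1, h2⟩ := num_inj (h.2.trans h'.2.symm)
      subst h1 h2
      rw [h'.1, ← h.1] at h4
      exact absurd h3 h4
    | E w' l =>
      simp only [side] at h h'
      split_ifs at h
      cases l <;> simp at h h' <;> omega
  | B u p w =>
    have a1 := num_le u p
    have a2 := num_pos u p
    cases i' with
    | D u' p' w' =>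
      simp only [side] at h h'
      split_ifs at h h' with h3 h4
      simp at h h'
      obtain ⟨h1, h2⟩ := num_inj (h.2.trans h'.2.symm)
      subst h1 h2
      rw [h'.1, ← h.1] at h4
      exact absurd h4 h3
    | B u' p' w' =>
      simp only [side] at h h'
      split_ifs at h h'
      simp at h h'
      obtain ⟨h1, h2⟩ := num_inj (h.2.trans h'.2.symm)
      rw [h1, h2, h.1, h'.1]
    | E w' l =>
      simp only [side] at h h'
      split_ifs at h
      cases l <;> simp at h h' <;> omega
  | E w l =>
    cases i' with
    | D u' p' w' =>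
      have a1 := num_le u' p'
      have a2 := num_pos u' p'
      simp only [side] at h h'
      split_ifs at h'
      cases l <;> simp at h h' <;> omega
    | B u' p' w' =>
      have a1 := num_le u' p'
      have a2 := num_pos u' p'
      simp only [side] at h h'
      split_ifs at h'
      cases l <;> simp at h h' <;> omega
    | E w' l' =>
      cases l <;> cases l' <;> simp [side] at h h'
      · rw [h.1, h'.1]
      · omega
      · omega
      · rw [h.1, h'.1]

lemma emb_X {i : Gad n} {k : Fin 7} {v : Fin n} (h : emb A i k = .X v) :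
    k = 0 ∧ ∃ p w, i = .D v p w := by
  by_cases h0 : k = 0
  · subst h0
    refine ⟨rfl, ?_⟩
    cases i with
    | D u p w =>
      simp [emb, port] at h
      exact ⟨p, w, by rw [h]⟩
    | B u p w => simp [emb, port] at h
    | E w l => simp [emb, port] at h
  exfalso
  unfold emb at h
  rw [if_neg h0] at h
  split_ifs at h
  · cases i <;> simp [port] at h
    split_ifs at h
  · cases hs : side A i with
    | none => simp [hs] at h
    | some x =>
      simp [hs] at h
      split_ifs at h
  · cases hs : side A i with
    | none => simp [hs] at h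
    | some x => simp [hs] at h

lemma emb_Z {i : Gad n} {k : Fin 7} {v : Fin n} (h : emb A i k = .Z v) :
    (k = 1 ∧ ∃ w, i = .D v false w) ∨ (k = 2 ∧ i = .E v true) := by
  by_cases h0 : k = 0
  · subst h0
    exfalso
    cases i <;> simp [emb, port] at h
  by_cases h1 : k = 1
  · subst h1
    refine Or.inl ⟨rfl, ?_⟩
    cases i with
    | D u p w =>
      cases p
      · simp [emb, port] at h
        exact ⟨w, by rw [h]⟩
      · simp [emb, port] at h
    | B u p w => simp [emb, port] at h
    | E w l => simp [emb, port] at h
  unfold emb at h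
  rw [if_neg h0, if_neg h1] at h
  split_ifs at h with h2 h3
  · cases hs : side A i with
    | none => simp [hs] at h
    | some x =>
      simp [hs] at h
      split_ifs at h with h4
      refine Or.inr ⟨h2, ?_⟩
      simp at h
      apply side_last (A := A)
      rw [hs, ← h, ← h4]
  · cases hs : side A i with
    | none => simp [hs] at h
    | some x => simp [hs] at h

lemma emb_b {i : Gad n} {k : Fin 7} {v : Fin n} {j : ℕ} (h : emb A i k = .b v j) :
    (k = 1 ∧ j = 0 ∧ ∃ w, i = .D v true w) ∨
    (k = 2 ∧ ∃ j', j = j' + 1 ∧ j' ≤ 2 * n ∧ side A i = some (v, j')) ∨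
    (k = 3 ∧ side A i = some (v, j)) := by
  by_cases h0 : k = 0
  · subst h0
    exfalso
    cases i <;> simp [emb, port] at h
  by_cases h1 : k = 1
  · subst h1
    refine Or.inl ⟨rfl, ?_⟩
    cases i with
    | D u p w =>
      cases p
      · simp [emb, port] at h
      · simp [emb, port] at h
        exact ⟨h.2.symm, w, by rw [h.1]⟩
    | B u p w => simp [emb, port] at h
    | E w l => simp [emb, port] at h
  unfold emb at h
  rw [if_neg h0, if_neg h1] at h
  split_ifs at h with h2 h3
  · cases hs : side A i with
    | none => simp [hs] at h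
    | some x =>
      obtain ⟨w, j'⟩ := x
      simp [hs] at h
      split_ifs at h with h4
      simp at h
      refine Or.inr (Or.inl ⟨h2, j', h.2.symm, ?_, by rw [h.1]⟩)
      have := side_le hs
      omega
  · cases hs : side A i with
    | none => simp [hs] at h
    | some x =>
      obtain ⟨w, j'⟩ := x
      simp [hs] at h
      exact Or.inr (Or.inr ⟨h3, by rw [h.1, h.2]⟩)

lemma emb_g {i i' : Gad n} {k k' : Fin 7} (h : emb A i k = .g i' k') : i = i' ∧ k = k' := by
  by_cases h0 : k = 0
  · subst h0
    cases i <;> simp [emb, port] at h <;> exact h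
  by_cases h1 : k = 1
  · subst h1
    cases i with
    | D u p w =>
      cases p <;> simp [emb, port] at h
    | B u p w =>
      simp [emb, port] at h
      exact h
    | E w l =>
      simp [emb, port] at h
      exact h
  unfold emb at h
  rw [if_neg h0, if_neg h1] at h
  split_ifs at h with h2 h3
  · subst h2
    cases hs : side A i with
    | none =>
      simp [hs] at h
      exact h
    | some x =>
      simp [hs] at h
      split_ifs at h
  · subst h3
    cases hs : side A i with
    | none =>
      simp [hs] at h
      exact h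
    | some x => simp [hs] at h
  · simp at h
    exact h

lemma emb_ge {i : Gad n} {k : Fin 7} (h : 4 ≤ k) : emb A i k = .g i k := by
  unfold emb
  rw [if_neg, if_neg, if_neg, if_neg]
  all_goals
    rintro rfl
    revert h
    decide

lemma mem_g {i : Gad n} {t : Fin 13} {x : Vtx n} : x ∈ vs A (.g i t) ↔ ∃ k ∈ P t, emb A i k = x := by
  simp [vs]

/-- the vertices `g i k` are only in the triangles of the gadget `i` -/
lemma mem_vs_g {i : Gad n} {k : Fin 7} {y : Nod n} (h : .g i k ∈ vs A y) :
    ∃ t, y = .g i t ∧ k ∈ P t := by
  cases y with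
  | s v => simp [vs] at h
  | c v j => simp [vs] at h
  | g i' t =>
    obtain ⟨k', hk, h1⟩ := mem_g.1 h
    obtain ⟨rfl, rfl⟩ := emb_g h1
    exact ⟨t, rfl, hk⟩

/-- **ME-GEO1.** -/
theorem geo1 : S_GEO1 := by
  intro n A hA
  have hinj : ∀ i, Function.Injective (emb A i) := by
    intro i a b h
    cases ha : emb A i a with
    | X v =>
      have h1 := emb_X ha
      have h2 := emb_X (h.symm.trans ha)
      rw [h1.1, h2.1]
    | Z v =>
      rcases emb_Z ha with ⟨h1, w, h2⟩ | ⟨h1, h2⟩ <;>
        rcases emb_Z (h.symm.trans ha) with ⟨h3, w', h4⟩ | ⟨h3, h4⟩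
      · rw [h1, h3]
      · rw [h2] at h4
        cases h4
      · rw [h2] at h4
        cases h4
      · rw [h1, h3]
    | b v j =>
      rcases emb_b ha with ⟨h1, h5, w, h2⟩ | ⟨h1, j1, h5, h6, h2⟩ | ⟨h1, h2⟩ <;>
        rcases emb_b (h.symm.trans ha) with ⟨h3, h7, w', h4⟩ | ⟨h3, j2, h7, h8, h4⟩ | ⟨h3, h4⟩
      · rw [h1, h3]
      · omega
      · subst h2
        simp only [side] at h4
        split_ifs at h4
        simp at h4
        have := num_pos v true
        omega
      · omega
      · rw [h1, h3]
      · rw [h2] at h4
        simp at h4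
        omega
      · subst h4
        simp only [side] at h2
        split_ifs at h2
        simp at h2
        have := num_pos v true
        omega
      · rw [h2] at h4
        simp at h4
        omega
      · rw [h1, h3]
    | g i' k =>
      have h1 := emb_g ha
      have h2 := emb_g (h.symm.trans ha)
      rw [h1.2, h2.2]
  have hP3 : ∀ t, (P t).card = 3 := by decide
  have hPinj : Function.Injective P := by decide
  have hP4 : ∀ t, ∃ k ∈ P t, 4 ≤ k := by decide
  -- the side of a gadget `D v p w` is not at `v`
  have hD : ∀ (v : Fin n) (p : Bool) (w : Fin n) (j : ℕ), side A (.D v p w) ≠ some (v, j) := by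
    intro v p w j h
    simp only [side] at h
    split_ifs at h with h1
    simp at h
    rw [h.1, hA] at h1
    cases h1
  refine ⟨hinj, ?_, ?_, ?_, ?_, ?_⟩
  · -- `vs` is injective
    intro x y h
    cases x with
    | s v =>
      have h1 : .X v ∈ vs A y := by rw [← h]; simp [vs]
      have h2 : .b v 0 ∈ vs A y := by rw [← h]; simp [vs]
      have h3 : .Z v ∈ vs A y := by rw [← h]; simp [vs]
      cases y with
      | s v' =>
        simp [vs] at h1
        rw [h1]
      | c v' j => simp [vs] at h1
      | g i t =>
        obtain ⟨k1, -, h4⟩ := mem_g.1 h1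
        obtain ⟨k3, -, h6⟩ := mem_g.1 h3
        obtain ⟨k2, -, h5⟩ := mem_g.1 h2
        obtain ⟨-, p, w, rfl⟩ := emb_X h4
        rcases emb_Z h6 with ⟨-, w', h7⟩ | ⟨-, h7⟩
        · injection h7 with _ h8 _
          subst h8
          rcases emb_b h5 with ⟨-, -, w', h9⟩ | ⟨-, j1, -, -, h9⟩ | ⟨-, h9⟩
          · injection h9 with _ h10 _
            cases h10
          · exact absurd h9 (hD _ _ _ _)
          · exact absurd h9 (hD _ _ _ _)
        · cases h7
    | c v j =>
      have h1 : .Z v ∈ vs A y := by rw [← h]; simp [vs]
      have h2 : .b v j ∈ vs A y := by rw [← h]; simp [vs]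
      have h3 : .b v (j + 1) ∈ vs A y := by rw [← h]; simp [vs]
      cases y with
      | s v' =>
        simp [vs] at h3
      | c v' j' =>
        simp [vs] at h1 h2 h3
        obtain rfl : v = v' := h1
        have : (j : ℕ) = j' := by omega
        rw [Fin.ext this]
      | g i t =>
        exfalso
        obtain ⟨k1, -, h4⟩ := mem_g.1 h1
        obtain ⟨k2, -, h5⟩ := mem_g.1 h2
        have hj := j.2
        rcases emb_Z h4 with ⟨-, w, rfl⟩ | ⟨-, rfl⟩
        · rcases emb_b h5 with ⟨-, -, w', h9⟩ | ⟨-, j1, -, -, h9⟩ | ⟨-, h9⟩
          · injection h9 with _ h10 _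
            cases h10
          · exact hD _ _ _ _ h9
          · exact hD _ _ _ _ h9
        · rcases emb_b h5 with ⟨-, -, w', h9⟩ | ⟨-, j1, -, h10, h9⟩ | ⟨-, h9⟩
          · cases h9
          · simp [side] at h9
            omega
          · simp [side] at h9
            omega
    | g i t =>
      obtain ⟨k, hk, hk4⟩ := hP4 t
      have h1 : .g i k ∈ vs A y := by
        rw [← h, mem_g]
        exact ⟨k, hk, emb_ge hk4⟩
      obtain ⟨t', rfl, -⟩ := mem_vs_g h1
      have h2 : (P t).image (emb A i) = (P t').image (emb A i) := h
      rw [hPinj (Finset.image_injective (hinj i) h2)]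
  · intro x
    cases x with
    | s v => simp [vs]
    | c v j => simp [vs]
    | g i t =>
      change ((P t).image (emb A i)).card = 3
      rw [Finset.card_image_of_injective _ (hinj i)]
      exact hP3 t
  · -- ports
    intro v p y h
    have h1 : .X v ∈ vs A y := h (by simp [pe])
    cases y with
    | s v' =>
      simp [vs] at h1
      exact Or.inl (by rw [h1])
    | c v' j => simp [vs] at h1
    | g i t =>
      obtain ⟨k1, hk1, h4⟩ := mem_g.1 h1
      obtain ⟨rfl, p', w, rfl⟩ := emb_X h4
      right
      cases p with
      | true =>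
        have h2 : .b v 0 ∈ vs A (.g (.D v p' w) t) := h (by simp [pe])
        obtain ⟨k2, hk2, h5⟩ := mem_g.1 h2
        rcases emb_b h5 with ⟨h6, -, w', h9⟩ | ⟨-, j1, -, -, h9⟩ | ⟨-, h9⟩
        · injection h9 with _ h10 _
          subst h6 h10
          refine ⟨w, t, rfl, ?_⟩
          intro x hx
          simp only [tapE, Finset.mem_insert, Finset.mem_singleton] at hx
          rcases hx with rfl | rfl
          · exact hk1
          · exact hk2
        · exact absurd h9 (hD _ _ _ _)
        · exact absurd h9 (hD _ _ _ _)
      | false =>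
        have h2 : .Z v ∈ vs A (.g (.D v p' w) t) := h (by simp [pe])
        obtain ⟨k2, hk2, h5⟩ := mem_g.1 h2
        rcases emb_Z h5 with ⟨h6, w', h9⟩ | ⟨-, h9⟩
        · injection h9 with _ h10 _
          subst h6 h10
          refine ⟨w, t, rfl, ?_⟩
          intro x hx
          simp only [tapE, Finset.mem_insert, Finset.mem_singleton] at hx
          rcases hx with rfl | rfl
          · exact hk1
          · exact hk2
        · cases h9
  · -- chain edges
    intro v j y hj h
    have h1 : .Z v ∈ vs A y := h (by simp [ce])
    have h2 : .b v j ∈ vs A y := h (by simp [ce])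
    cases y with
    | s v' =>
      simp [vs] at h1 h2
      exact Or.inl ⟨h2.2, by rw [h1]⟩
    | c v' j' =>
      simp [vs] at h1 h2
      obtain rfl : v = v' := h1
      exact Or.inr ⟨j', rfl, by omega⟩
    | g i t =>
      exfalso
      obtain ⟨k1, -, h4⟩ := mem_g.1 h1
      obtain ⟨k2, -, h5⟩ := mem_g.1 h2
      rcases emb_Z h4 with ⟨-, w, rfl⟩ | ⟨-, rfl⟩
      · rcases emb_b h5 with ⟨-, -, w', h9⟩ | ⟨-, j1, -, -, h9⟩ | ⟨-, h9⟩
        · injection h9 with _ h10 _
          cases h10
        · exact hD _ _ _ _ h9
        · exact hD _ _ _ _ h9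
      · rcases emb_b h5 with ⟨-, -, w', h9⟩ | ⟨-, j1, -, h10, h9⟩ | ⟨-, h9⟩
        · cases h9
        · simp [side] at h9
          omega
        · simp [side] at h9
          omega
  · -- taps
    intro i y hi h
    have e0 : emb A i 0 = .g i 0 := by simp [emb, hi]
    have e1 : emb A i 1 = .g i 1 := by simp [emb, hi]
    have h1 : .g i 0 ∈ vs A y := h (by rw [← e0]; exact Finset.mem_image_of_mem _ (by decide))
    have h2 : .g i 1 ∈ vs A y := h (by rw [← e1]; exact Finset.mem_image_of_mem _ (by decide))
    obtain ⟨t, rfl, h3⟩ := mem_vs_g h1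
    obtain ⟨t', h4, h5⟩ := mem_vs_g h2
    injection h4 with _ h6
    subst h6
    refine ⟨t, rfl, ?_⟩
    intro x hx
    simp only [tapE, Finset.mem_insert, Finset.mem_singleton] at hx
    rcases hx with rfl | rfl
    · exact h3
    · exact h5

end Pool.Agent.Q206.ME.G1
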