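import Pool.Agent.Q206.ME.JGeo1

/-!
# The incidences of edges and triangles
-/

set_option autoImplicit false

namespace Pool.Agent.Q206.ME.G2

open Finset Relation Pool.Agent.Q206.ME.G1

variable {n : ℕ} {A : Fin n → Bool → Fin n → Bool}

lemma emb_0 (i : Gad n) : emb A i 0 = (port i).elim (.g i 0) (fun x => .X x.1) := by
  simp [emb]

lemma emb_1 (i : Gad n) : emb A i 1 =
    (port i).elim (.g i 1) (fun x => if x.2 = true then .b x.1 0 else .Z x.1) := by
  simp [emb]

lemma emb_2 {i : Gad n} {v : Fin n} {j : ℕ} (h : side A i = some (v, j)) (hj : j ≤ 2 * n) :
    emb A i 2 = .b v (j + 1) := by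
  have : j ≠ 2 * n + 1 := by omega
  simp [emb, h, this]

lemma emb_3 {i : Gad n} {v : Fin n} {j : ℕ} (h : side A i = some (v, j)) :
    emb A i 3 = .b v j := by
  simp [emb, h]

/-- the edges of the gadget -/
lemma edges : ∀ e : Finset (Fin 7), e.card = 2 → e ≠ tapE → e ≠ exE →
    (∃ k ∈ e, 4 ≤ k) ∨ ∃ a c, (a = 0 ∨ a = 1) ∧ (c = 2 ∨ c = 3) ∧ e = {a, c} := by
  intro e hc h1 h2
  obtain ⟨a, b, hab, rfl⟩ := Finset.card_eq_two.1 hc
  clear hc
  by_cases ha : 4 ≤ a
  · exact Or.inl ⟨a, by simp, ha⟩
  by_cases hb : 4 ≤ b
  · exact Or.inl ⟨b, by simp, hb⟩
  right
  fin_cases a <;> fin_cases b <;> first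
    | (exfalso; revert ha; decide)
    | (exfalso; revert hb; decide)
    | (exfalso; revert hab; decide)
    | (exfalso; revert h1; decide)
    | (exfalso; revert h2; decide)
    | exact ⟨0, 2, by decide, by decide, by decide⟩
    | exact ⟨0, 3, by decide, by decide, by decide⟩
    | exact ⟨1, 2, by decide, by decide, by decide⟩
    | exact ⟨1, 3, by decide, by decide, by decide⟩

/-- **ME-GEO2.** -/
theorem geo2 : S_GEO2 := by
  intro n A hA hinj
  have hD : ∀ (v : Fin n) (p : Bool) (w : Fin n) (j : ℕ), side A (.D v p w) ≠ some (v, j) := by
    intro v p w j h
    simp only [side] at h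
    split_ifs at h with h1
    simp at h
    rw [h.1, hA] at h1
    cases h1
  -- it is enough to find the gadget
  have hfin : ∀ i e y, e.image (emb A i) ⊆ vs A y → (∃ t, y = .g i t) →
      ∃ t, y = .g i t ∧ e ⊆ P t := by
    rintro i e y h ⟨t, rfl⟩
    refine ⟨t, rfl, fun k hk => ?_⟩
    obtain ⟨k', hk', h1⟩ := mem_g.1 (h (Finset.mem_image_of_mem _ hk))
    rwa [← hinj i h1]
  constructor
  · intro i e y hc he1 he2 h
    refine hfin i e y h ?_
    rcases edges e hc he1 he2 with ⟨k, hk, h4⟩ | ⟨a, c, ha, hcc, rfl⟩
    · have h1 : .g i k ∈ vs A y := by
        have := h (Finset.mem_image_of_mem _ hk)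
        rwa [emb_ge h4] at this
      obtain ⟨t, h2, -⟩ := mem_vs_g h1
      exact ⟨t, h2⟩
    have hma : emb A i a ∈ vs A y := h (Finset.mem_image_of_mem _ (by simp))
    have hmc : emb A i c ∈ vs A y := h (Finset.mem_image_of_mem _ (by simp))
    cases hp : port i with
    | none =>
      have h1 : .g i a ∈ vs A y := by
        rcases ha with rfl | rfl
        · rwa [emb_0, hp] at hma
        · rwa [emb_1, hp] at hma
      obtain ⟨t, h2, -⟩ := mem_vs_g h1
      exact ⟨t, h2⟩
    | some x =>
      cases hs : side A i with
      | none =>
        have h1 : .g i c ∈ vs A y := by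
          rcases hcc with rfl | rfl
          · simpa [emb, hs] using hmc
          · simpa [emb, hs] using hmc
        obtain ⟨t, h2, -⟩ := mem_vs_g h1
        exact ⟨t, h2⟩
      | some z =>
        cases i with
        | B u p v => simp [port] at hp
        | E v l => simp [port] at hp
        | D u p v =>
          have hAt : A u p v = true := by
            by_contra hc
            simp [side, hc] at hs
          have huv : u ≠ v := by
            rintro rfl
            rw [hA] at hAt
            cases hAt
          have hn : 2 ≤ n := by
            by_contra hc
            apply huv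
            have h1 := u.2
            have h2 := v.2
            exact Fin.ext (by omega)
          have hs' : side A (.D u p v) = some (v, num u p) := by simp [side, hAt]
          have hnp := num_pos u p
          have hnl := num_le u p
          -- the second vertex
          obtain ⟨j, hj, hmc'⟩ : ∃ j, (j = num u p ∧ c = 3 ∨ j = num u p + 1 ∧ c = 2) ∧
              .b v j ∈ vs A y := by
            rcases hcc with rfl | rfl
            · rw [emb_2 hs' hnl] at hmc
              exact ⟨_, Or.inr ⟨rfl, rfl⟩, hmc⟩
            · rw [emb_3 hs'] at hmc
              exact ⟨_, Or.inl ⟨rfl, rfl⟩, hmc⟩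
          have hj0 : 1 ≤ j := by omega
          -- gadgets `D u p' v'`
          have hDD : ∀ (p' : Bool) (v' : Fin n) (t : Fin 13), y = .g (.D u p' v') t →
              (p' = p ∧ v' = v) := by
            intro p' v' t hy
            rw [hy] at hmc'
            obtain ⟨k, hk, h5⟩ := mem_g.1 hmc'
            rcases emb_b h5 with ⟨-, h6, -⟩ | ⟨-, j1, h6, -, h9⟩ | ⟨-, h9⟩
            · omega
            · simp only [side] at h9
              split_ifs at h9
              simp at h9
              refine ⟨?_, h9.1⟩
              have h10 := u.2
              cases p <;> cases p' <;> simp [num] at * <;> omega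
            · simp only [side] at h9
              split_ifs at h9
              simp at h9
              refine ⟨?_, h9.1⟩
              have h10 := u.2
              cases p <;> cases p' <;> simp [num] at * <;> omega
          rcases ha with rfl | rfl
          · -- the vertex `X u`
            rw [emb_0] at hma
            simp only [port, Option.elim_some] at hma
            cases y with
            | s w =>
              simp [vs] at hmc'
              omega
            | c w j' => simp [vs] at hma
            | g i' t =>
              obtain ⟨k1, -, h4⟩ := mem_g.1 hma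
              obtain ⟨-, p', v', rfl⟩ := emb_X h4
              obtain ⟨h5, h6⟩ := hDD p' v' t rfl
              exact ⟨t, by rw [h5, h6]⟩
          · rw [emb_1] at hma
            simp only [port, Option.elim_some] at hma
            cases p with
            | true =>
              simp only [if_true] at hma
              cases y with
              | s w =>
                simp [vs] at hmc'
                omega
              | c w j' =>
                simp [vs] at hma hmc'
                exact absurd (hma.1.trans (hmc'.elim (·.1) (·.1)).symm) huv
              | g i' t =>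
                obtain ⟨k1, -, h4⟩ := mem_g.1 hma
                rcases emb_b h4 with ⟨-, -, v', rfl⟩ | ⟨-, j1, h6, -, -⟩ | ⟨-, h9⟩
                · obtain ⟨h5, h6⟩ := hDD _ v' t rfl
                  exact ⟨t, by rw [h6]⟩
                · omega
                · exfalso
                  obtain ⟨k2, -, h5⟩ := mem_g.1 hmc'
                  rcases emb_b h5 with ⟨-, h6, -⟩ | ⟨-, j1, h6, -, h10⟩ | ⟨-, h10⟩
                  · omega
                  · rw [h9] at h10
                    simp at h10
                    exact huv h10.1
                  · rw [h9] at h10
                    simp at h10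
                    exact huv h10.1
            | false =>
              simp only [Bool.false_eq_true, if_false] at hma
              cases y with
              | s w =>
                simp [vs] at hmc'
                omega
              | c w j' =>
                simp [vs] at hma hmc'
                exact absurd (hma.trans (hmc'.elim (·.1) (·.1)).symm) huv
              | g i' t =>
                obtain ⟨k1, -, h4⟩ := mem_g.1 hma
                rcases emb_Z h4 with ⟨-, v', rfl⟩ | ⟨-, rfl⟩
                · obtain ⟨h5, h6⟩ := hDD _ v' t rfl
                  exact ⟨t, by rw [h6]⟩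
                · exfalso
                  obtain ⟨k2, -, h5⟩ := mem_g.1 hmc'
                  rcases emb_b h5 with ⟨-, h6, -⟩ | ⟨-, j1, h6, -, h10⟩ | ⟨-, h10⟩
                  · omega
                  · simp [side] at h10
                    exact huv h10.1
                  · simp [side] at h10
                    exact huv h10.1
  · intro i y h
    have hm2 : emb A i 2 ∈ vs A y := h (Finset.mem_image_of_mem _ (by decide))
    have hm3 : emb A i 3 ∈ vs A y := h (Finset.mem_image_of_mem _ (by decide))
    cases hs : side A i with
    | none =>
      left
      refine hfin i exE y h ?_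
      have h1 : .g i 2 ∈ vs A y := by simpa [emb, hs] using hm2
      obtain ⟨t, h2, -⟩ := mem_vs_g h1
      exact ⟨t, h2⟩
    | some x =>
      obtain ⟨v, j⟩ := x
      rw [emb_3 hs] at hm3
      rcases Nat.lt_or_ge (2 * n) j with hj | hj
      · -- the last side
        have hj' : j = 2 * n + 1 := by
          have := side_le hs
          omega
        subst hj'
        have hi := side_last hs
        subst hi
        have hZ : .Z v ∈ vs A y := by simpa [emb, side] using hm2
        cases y with
        | s w =>
          simp [vs] at hm3
        | c w j' =>
          simp [vs] at hZ hm3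
          right
          obtain rfl : v = w := hZ
          refine ⟨v, j', rfl, Or.inr ⟨?_, rfl⟩⟩
          have := j'.2
          omega
        | g i' t =>
          obtain ⟨k1, -, h4⟩ := mem_g.1 hZ
          rcases emb_Z h4 with ⟨-, v', rfl⟩ | ⟨-, rfl⟩
          · exfalso
            obtain ⟨k2, -, h5⟩ := mem_g.1 hm3
            rcases emb_b h5 with ⟨-, h6, -⟩ | ⟨-, j1, h6, -, h10⟩ | ⟨-, h10⟩
            · omega
            · exact hD _ _ _ _ h10
            · exact hD _ _ _ _ h10
          · exact Or.inl (hfin _ _ _ h ⟨t, rfl⟩)
      · rw [emb_2 hs hj] at hm2
        cases y with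
        | s w =>
          simp [vs] at hm2
        | c w j' =>
          simp [vs] at hm2 hm3
          right
          obtain rfl : v = w := by
            rcases hm2 with h1 | h1
            · exact h1.1
            · exact h1.1
          refine ⟨v, j', rfl, Or.inl ?_⟩
          have : j = (j' : ℕ) := by omega
          rw [this]
        | g i' t =>
          left
          refine hfin _ _ _ h ⟨t, ?_⟩
          obtain ⟨k1, -, h4⟩ := mem_g.1 hm2
          obtain ⟨k2, -, h5⟩ := mem_g.1 hm3
          have hii : side A i' = some (v, j) := by
            rcases emb_b h5 with ⟨-, h6, v', rfl⟩ | ⟨-, j1, h6, h7, h10⟩ | ⟨-, h10⟩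
            · exfalso
              rcases emb_b h4 with ⟨-, h8, -⟩ | ⟨-, j2, -, -, h11⟩ | ⟨-, h11⟩
              · omega
              · exact hD _ _ _ _ h11
              · exact hD _ _ _ _ h11
            · exfalso
              rcases emb_b h4 with ⟨-, h8, -⟩ | ⟨-, j2, h8, -, h11⟩ | ⟨-, h11⟩
              · omega
              · rw [h10] at h11
                simp at h11
                omega
              · rw [h10] at h11
                simp at h11
                omega
            · exact h10
          rw [side_inj hs hii]

end Pool.Agent.Q206.ME.G2
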