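import Pool.Agent.Q206.ME.JGeo2

/-!
# The list of the simplices
-/

set_option autoImplicit false

namespace Pool.Agent.Q206.ME.LL

open Finset Relation Pool.Agent.Q206.ME.G1

variable {n : ℕ} {A : Fin n → Bool → Fin n → Bool}

lemma code_injective : Function.Injective (code (n := n)) := by
  intro x y h
  cases x with
  | X v =>
    cases y with
    | X v' => simp [code] at h; rw [Fin.ext h]
    | Z v' => simp [code] at h
    | b v' j' => simp [code] at h
    | g i' k' => cases i' <;> simp [code] at h
  | Z v =>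
    cases y with
    | X v' => simp [code] at h
    | Z v' => simp [code] at h; rw [Fin.ext h]
    | b v' j' => simp [code] at h
    | g i' k' => cases i' <;> simp [code] at h
  | b v j =>
    cases y with
    | X v' => simp [code] at h
    | Z v' => simp [code] at h
    | b v' j' => simp [code] at h; rw [Fin.ext h.1, h.2]
    | g i' k' => cases i' <;> simp [code] at h
  | g i k =>
    cases i with
    | D u p v =>
      cases y with
      | X v' => simp [code] at h
      | Z v' => simp [code] at h
      | b v' j' => simp [code] at h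
      | g i' k' =>
        cases i' with
        | D u' p' v' =>
          simp [code] at h
          obtain ⟨⟨h1, h2⟩, h3, h4⟩ := h
          have hp : p = p' := by
            revert h2
            cases p <;> cases p' <;> simp
          rw [Fin.ext h1, hp, Fin.ext h3, Fin.ext h4]
        | B u' p' v' => simp [code] at h
        | E v' l' => simp [code] at h
    | B u p v =>
      cases y with
      | X v' => simp [code] at h
      | Z v' => simp [code] at h
      | b v' j' => simp [code] at h
      | g i' k' =>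
        cases i' with
        | D u' p' v' => simp [code] at h
        | B u' p' v' =>
          simp [code] at h
          obtain ⟨⟨h1, h2⟩, h3, h4⟩ := h
          have hp : p = p' := by
            revert h2
            cases p <;> cases p' <;> simp
          rw [Fin.ext h1, hp, Fin.ext h3, Fin.ext h4]
        | E v' l' => simp [code] at h
    | E v l =>
      cases y with
      | X v' => simp [code] at h
      | Z v' => simp [code] at h
      | b v' j' => simp [code] at h
      | g i' k' =>
        cases i' with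
        | D u' p' v' => simp [code] at h
        | B u' p' v' => simp [code] at h
        | E v' l' =>
          simp [code] at h
          obtain ⟨⟨h1, h2⟩, h4⟩ := h
          have hp : l = l' := by
            revert h2
            cases l <;> cases l' <;> simp
          rw [Fin.ext h1, hp, Fin.ext h4]

lemma sort3_spec {a b c : ℕ} (h1 : a ≠ b) (h2 : a ≠ c) (h3 : b ≠ c) :
    ∃ x y z, sort3 [a, b, c] = [x, y, z] ∧ x < y ∧ y < z ∧
      ({x, y, z} : Finset ℕ) = {a, b, c} := by
  refine ⟨min a (min b c), a + b + c - min a (min b c) - max a (max b c), max a (max b c), rfl,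
    by omega, by omega, ?_⟩
  ext k
  simp only [Finset.mem_insert, Finset.mem_singleton]
  omega

lemma faces_pairwise {x y z : ℕ} (h1 : x < y) (h2 : y < z) {l : List ℕ} (hl : l ∈ faces [x, y, z]) :
    l.Pairwise (· < ·) := by
  have h3 := h1.trans h2
  simp [faces] at hl
  rcases hl with rfl | rfl | rfl | rfl | rfl | rfl | rfl <;> simp [h1, h2, h3]

lemma faces_spec {x y z : ℕ} (s : Finset ℕ) :
    (s ⊆ {x, y, z} ∧ s.Nonempty) ↔ ∃ l ∈ faces [x, y, z], l.toFinset = s := by
  constructor
  · rintro ⟨h1, h2⟩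
    have h3 : ∀ k ∈ s, k = x ∨ k = y ∨ k = z := by
      intro k hk
      simpa using h1 hk
    by_cases hx : x ∈ s <;> by_cases hy : y ∈ s <;> by_cases hz : z ∈ s
    · refine ⟨[x, y, z], by simp [faces], ?_⟩
      ext k
      simp only [List.toFinset_cons, List.toFinset_nil, Finset.mem_insert, Finset.notMem_empty,
        or_false]
      constructor
      · rintro (rfl | rfl | rfl) <;> assumption
      · intro hk
        rcases h3 k hk with rfl | rfl | rfl <;> simp
    · refine ⟨[x, y], by simp [faces], ?_⟩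
      ext k
      simp only [List.toFinset_cons, List.toFinset_nil, Finset.mem_insert, Finset.notMem_empty,
        or_false]
      constructor
      · rintro (rfl | rfl) <;> assumption
      · intro hk
        rcases h3 k hk with rfl | rfl | rfl
        · simp
        · simp
        · exact absurd hk hz
    · refine ⟨[x, z], by simp [faces], ?_⟩
      ext k
      simp only [List.toFinset_cons, List.toFinset_nil, Finset.mem_insert, Finset.notMem_empty,
        or_false]
      constructor
      · rintro (rfl | rfl) <;> assumption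
      · intro hk
        rcases h3 k hk with rfl | rfl | rfl
        · simp
        · exact absurd hk hy
        · simp
    · refine ⟨[x], by simp [faces], ?_⟩
      ext k
      simp only [List.toFinset_cons, List.toFinset_nil, Finset.mem_insert, Finset.notMem_empty,
        or_false]
      constructor
      · rintro rfl
        assumption
      · intro hk
        rcases h3 k hk with rfl | rfl | rfl
        · simp
        · exact absurd hk hy
        · exact absurd hk hz
    · refine ⟨[y, z], by simp [faces], ?_⟩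
      ext k
      simp only [List.toFinset_cons, List.toFinset_nil, Finset.mem_insert, Finset.notMem_empty,
        or_false]
      constructor
      · rintro (rfl | rfl) <;> assumption
      · intro hk
        rcases h3 k hk with rfl | rfl | rfl
        · exact absurd hk hx
        · simp
        · simp
    · refine ⟨[y], by simp [faces], ?_⟩
      ext k
      simp only [List.toFinset_cons, List.toFinset_nil, Finset.mem_insert, Finset.notMem_empty,
        or_false]
      constructor
      · rintro rfl
        assumption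
      · intro hk
        rcases h3 k hk with rfl | rfl | rfl
        · exact absurd hk hx
        · simp
        · exact absurd hk hz
    · refine ⟨[z], by simp [faces], ?_⟩
      ext k
      simp only [List.toFinset_cons, List.toFinset_nil, Finset.mem_insert, Finset.notMem_empty,
        or_false]
      constructor
      · rintro rfl
        assumption
      · intro hk
        rcases h3 k hk with rfl | rfl | rfl
        · exact absurd hk hx
        · exact absurd hk hy
        · simp
    · exfalso
      obtain ⟨k, hk⟩ := h2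
      rcases h3 k hk with rfl | rfl | rfl
      · exact hx hk
      · exact hy hk
      · exact hz hk
  · rintro ⟨l, hl, rfl⟩
    simp [faces] at hl
    rcases hl with rfl | rfl | rfl | rfl | rfl | rfl | rfl <;>
      simp [Finset.subset_iff]

/-- the vertices of the triangles of the gadget -/
def Q : Fin 13 → Fin 7 × Fin 7 × Fin 7 :=
  ![(0, 2, 4), (0, 1, 4), (0, 2, 5), (0, 3, 5), (0, 1, 6), (0, 3, 6), (2, 4, 5), (3, 4, 5),
    (1, 3, 4), (1, 2, 5), (1, 2, 6), (2, 3, 6), (1, 3, 5)]

lemma P_eq : ∀ j, P j = {(Q j).1, (Q j).2.1, (Q j).2.2} := by decide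

lemma PL_eq : PL = List.ofFn fun j => [((Q j).1 : ℕ), ((Q j).2.1 : ℕ), ((Q j).2.2 : ℕ)] := by
  decide

lemma mem_gadL {w : List ℕ} {t : List ℕ} : t ∈ gadL w ↔ ∃ j, t =
    [w.getD (Q j).1 0, w.getD (Q j).2.1 0, w.getD (Q j).2.2 0] := by
  rw [gadL, PL_eq, List.mem_map]
  constructor
  · rintro ⟨s, hs, rfl⟩
    obtain ⟨j, rfl⟩ := List.mem_ofFn.1 hs
    exact ⟨j, rfl⟩
  · rintro ⟨j, rfl⟩
    exact ⟨_, List.mem_ofFn.2 ⟨j, rfl⟩, rfl⟩

lemma gad_image (i : Gad n) (j : Fin 13) : (vs A (.g i j)).image code =
    {code (emb A i (Q j).1), code (emb A i (Q j).2.1), code (emb A i (Q j).2.2)} := by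
  change ((P j).image (emb A i)).image code = _
  rw [P_eq]
  simp

lemma emb_2' {i : Gad n} {v : Fin n} {u : Fin n} {p : Bool} (h : side A i = some (v, num u p)) :
    emb A i 2 = .b v (num u p + 1) := G2.emb_2 h (num_le u p)

lemma emb_none {i : Gad n} (h : side A i = none) : emb A i 2 = .g i 2 ∧ emb A i 3 = .g i 3 := by
  simp [emb, h]

lemma dV_spec (arc : ℕ → Bool → ℕ → Bool) (u : Fin n) (p : Bool) (v : Fin n) (k : Fin 7) :
    (dV n (arc u p v) u p v).getD k 0 =
      code (emb (fun (u : Fin n) p (v : Fin n) => arc u p v) (.D u p v) k) := by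
  fin_cases k
  · rw [show (⟨0, by omega⟩ : Fin 7) = 0 from rfl, G2.emb_0]
    simp [dV, port, code]
  · rw [show (⟨1, by omega⟩ : Fin 7) = 1 from rfl, G2.emb_1]
    cases p <;> simp [dV, port, code]
  · rw [show (⟨2, by omega⟩ : Fin 7) = 2 from rfl]
    cases h : arc u p v
    · rw [(emb_none (by simp [side, h])).1]
      simp [dV, code, gc]
    · rw [emb_2' (u := u) (p := p) (v := v) (by simp [side, h])]
      simp [dV, code, num]
  · rw [show (⟨3, by omega⟩ : Fin 7) = 3 from rfl]
    cases h : arc u p v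
    · rw [(emb_none (by simp [side, h])).2]
      simp [dV, code, gc]
    · rw [G2.emb_3 (v := v) (j := num u p) (by simp [side, h])]
      simp [dV, code, num]
  · rw [emb_ge (by decide)]
    simp [dV, code, gc]
  · rw [emb_ge (by decide)]
    simp [dV, code, gc]
  · rw [emb_ge (by decide)]
    simp [dV, code, gc]

lemma bV_spec (arc : ℕ → Bool → ℕ → Bool) (u : Fin n) (p : Bool) (v : Fin n) (k : Fin 7) :
    (bV n (arc u p v) u p v).getD k 0 =
      code (emb (fun (u : Fin n) p (v : Fin n) => arc u p v) (.B u p v) k) := by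
  fin_cases k
  · rw [show (⟨0, by omega⟩ : Fin 7) = 0 from rfl, G2.emb_0]
    simp [bV, port, code, gc]
  · rw [show (⟨1, by omega⟩ : Fin 7) = 1 from rfl, G2.emb_1]
    simp [bV, port, code, gc]
  · rw [show (⟨2, by omega⟩ : Fin 7) = 2 from rfl]
    cases h : arc u p v
    · rw [emb_2' (u := u) (p := p) (v := v) (by simp [side, h])]
      simp [bV, code, num]
    · rw [(emb_none (by simp [side, h])).1]
      simp [bV, code, gc]
  · rw [show (⟨3, by omega⟩ : Fin 7) = 3 from rfl]
    cases h : arc u p v
    · rw [G2.emb_3 (v := v) (j := num u p) (by simp [side, h])]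
      simp [bV, code, num]
    · rw [(emb_none (by simp [side, h])).2]
      simp [bV, code, gc]
  · rw [emb_ge (by decide)]
    simp [bV, code, gc]
  · rw [emb_ge (by decide)]
    simp [bV, code, gc]
  · rw [emb_ge (by decide)]
    simp [bV, code, gc]

lemma eV_spec (A : Fin n → Bool → Fin n → Bool) (v : Fin n) (l : Bool) (k : Fin 7) :
    (eV n v l).getD k 0 = code (emb A (.E v l) k) := by
  fin_cases k
  · rw [show (⟨0, by omega⟩ : Fin 7) = 0 from rfl, G2.emb_0]
    simp [eV, port, code, gc]
  · rw [show (⟨1, by omega⟩ : Fin 7) = 1 from rfl, G2.emb_1]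
    simp [eV, port, code, gc]
  · rw [show (⟨2, by omega⟩ : Fin 7) = 2 from rfl]
    cases l <;> simp [eV, emb, side, code]
  · rw [show (⟨3, by omega⟩ : Fin 7) = 3 from rfl]
    cases l <;> simp [eV, emb, side, code]
  · rw [emb_ge (by decide)]
    simp [eV, code, gc]
  · rw [emb_ge (by decide)]
    simp [eV, code, gc]
  · rw [emb_ge (by decide)]
    simp [eV, code, gc]

lemma mem_tris {arc : ℕ → Bool → ℕ → Bool} {t : List ℕ} : t ∈ tris n arc ↔
    (∃ v : Fin n, t = [Nat.pair 0 v, Nat.pair 2 (Nat.pair v 0), Nat.pair 1 v]) ∨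
    (∃ (v : Fin n) (j : Fin (2 * n + 1)), t = [Nat.pair 1 v, Nat.pair 2 (Nat.pair v j),
      Nat.pair 2 (Nat.pair v (j + 1))]) ∨
    (∃ (u : Fin n) (p : Bool) (v : Fin n), t ∈ gadL (dV n (arc u p v) u p v) ∨
      t ∈ gadL (bV n (arc u p v) u p v)) ∨
    ∃ (v : Fin n) (l : Bool), t ∈ gadL (eV n v l) := by
  unfold tris
  rw [List.mem_append, List.mem_append, List.mem_append, List.mem_map, List.mem_flatMap,
    List.mem_flatMap, List.mem_flatMap]
  refine or_congr ?_ (or_congr ?_ (or_congr ?_ ?_))
  · constructor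
    · rintro ⟨v, hv, rfl⟩
      exact ⟨⟨v, List.mem_range.1 hv⟩, rfl⟩
    · rintro ⟨v, rfl⟩
      exact ⟨v, List.mem_range.2 v.2, rfl⟩
  · constructor
    · rintro ⟨v, hv, h⟩
      obtain ⟨j, hj, rfl⟩ := List.mem_map.1 h
      exact ⟨⟨v, List.mem_range.1 hv⟩, ⟨j, List.mem_range.1 hj⟩, rfl⟩
    · rintro ⟨v, j, rfl⟩
      exact ⟨v, List.mem_range.2 v.2, List.mem_map.2 ⟨j, List.mem_range.2 j.2, rfl⟩⟩
  · constructor
    · rintro ⟨u, hu, h⟩
      obtain ⟨p, -, h⟩ := List.mem_flatMap.1 h
      obtain ⟨v, hv, h⟩ := List.mem_flatMap.1 h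
      exact ⟨⟨u, List.mem_range.1 hu⟩, p, ⟨v, List.mem_range.1 hv⟩, List.mem_append.1 h⟩
    · rintro ⟨u, p, v, h⟩
      refine ⟨u, List.mem_range.2 u.2, List.mem_flatMap.2 ⟨p, by cases p <;> simp,
        List.mem_flatMap.2 ⟨v, List.mem_range.2 v.2, List.mem_append.2 h⟩⟩⟩
  · constructor
    · rintro ⟨v, hv, h⟩
      obtain ⟨l, -, h⟩ := List.mem_flatMap.1 h
      exact ⟨⟨v, List.mem_range.1 hv⟩, l, h⟩
    · rintro ⟨v, l, h⟩
      exact ⟨v, List.mem_range.2 v.2, List.mem_flatMap.2 ⟨l, by cases l <;> simp, h⟩⟩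

/-- the triangles of the list are the images of the triangles -/
lemma tris_iff (arc : ℕ → Bool → ℕ → Bool) (s : Finset ℕ) :
    (∃ t ∈ tris n arc, ∃ a b c, t = [a, b, c] ∧ {a, b, c} = s) ↔
    ∃ x : Nod n, (vs (fun (u : Fin n) p (v : Fin n) => arc u p v) x).image code = s := by
  constructor
  · rintro ⟨t, ht, a, b, c, rfl, rfl⟩
    rcases mem_tris.1 ht with ⟨v, h⟩ | ⟨v, j, h⟩ | ⟨u, p, v, h | h⟩ | ⟨v, l, h⟩
    · refine ⟨.s v, ?_⟩
      simp only [List.cons.injEq, and_true] at h
      obtain ⟨rfl, rfl, rfl⟩ := h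
      simp [vs, code]
    · refine ⟨.c v j, ?_⟩
      simp only [List.cons.injEq, and_true] at h
      obtain ⟨rfl, rfl, rfl⟩ := h
      simp [vs, code]
    · obtain ⟨j, h⟩ := mem_gadL.1 h
      simp only [List.cons.injEq, and_true] at h
      obtain ⟨rfl, rfl, rfl⟩ := h
      exact ⟨.g (.D u p v) j, by rw [gad_image, dV_spec, dV_spec, dV_spec]⟩
    · obtain ⟨j, h⟩ := mem_gadL.1 h
      simp only [List.cons.injEq, and_true] at h
      obtain ⟨rfl, rfl, rfl⟩ := h
      exact ⟨.g (.B u p v) j, by rw [gad_image, bV_spec, bV_spec, bV_spec]⟩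
    · obtain ⟨j, h⟩ := mem_gadL.1 h
      simp only [List.cons.injEq, and_true] at h
      obtain ⟨rfl, rfl, rfl⟩ := h
      refine ⟨.g (.E v l) j, ?_⟩
      rw [gad_image, ← eV_spec, ← eV_spec, ← eV_spec]
  · rintro ⟨x, rfl⟩
    cases x with
    | s v =>
      refine ⟨_, mem_tris.2 (Or.inl ⟨v, rfl⟩), _, _, _, rfl, ?_⟩
      simp [vs, code]
    | c v j =>
      refine ⟨_, mem_tris.2 (Or.inr (Or.inl ⟨v, j, rfl⟩)), _, _, _, rfl, ?_⟩
      simp [vs, code]
    | g i j =>
      cases i with
      | D u p v =>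
        refine ⟨_, mem_tris.2 (Or.inr (Or.inr (Or.inl ⟨u, p, v, Or.inl (mem_gadL.2 ⟨j, rfl⟩)⟩))),
          _, _, _, rfl, ?_⟩
        rw [gad_image, dV_spec, dV_spec, dV_spec]
      | B u p v =>
        refine ⟨_, mem_tris.2 (Or.inr (Or.inr (Or.inl ⟨u, p, v, Or.inr (mem_gadL.2 ⟨j, rfl⟩)⟩))),
          _, _, _, rfl, ?_⟩
        rw [gad_image, bV_spec, bV_spec, bV_spec]
      | E v l =>
        refine ⟨_, mem_tris.2 (Or.inr (Or.inr (Or.inr ⟨v, l, mem_gadL.2 ⟨j, rfl⟩⟩))),
          _, _, _, rfl, ?_⟩
        rw [gad_image, ← eV_spec, ← eV_spec, ← eV_spec]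

/-- **ME-LIST.** -/
theorem main : S_LIST := by
  intro n arc hG
  refine ⟨code_injective, List.nodup_dedup _, ?_, ?_⟩
  · intro s hs
    rw [cxList, List.mem_dedup, List.mem_flatMap] at hs
    obtain ⟨t', ht', hs⟩ := hs
    obtain ⟨t, ht, rfl⟩ := List.mem_map.1 ht'
    obtain ⟨a, b, c, rfl, ⟨x, hx⟩⟩ : ∃ a b c, t = [a, b, c] ∧ ∃ x : Nod n,
        (vs (fun (u : Fin n) p (v : Fin n) => arc u p v) x).image code = {a, b, c} := by
      obtain ⟨a, b, c, rfl⟩ : ∃ a b c, t = [a, b, c] := by
        rcases mem_tris.1 ht with ⟨v, h⟩ | ⟨v, j, h⟩ | ⟨u, p, v, h | h⟩ | ⟨v, l, h⟩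
        · exact ⟨_, _, _, h⟩
        · exact ⟨_, _, _, h⟩
        · obtain ⟨j, h⟩ := mem_gadL.1 h
          exact ⟨_, _, _, h⟩
        · obtain ⟨j, h⟩ := mem_gadL.1 h
          exact ⟨_, _, _, h⟩
        · obtain ⟨j, h⟩ := mem_gadL.1 h
          exact ⟨_, _, _, h⟩
      exact ⟨a, b, c, rfl, (tris_iff arc _).1 ⟨_, ht, a, b, c, rfl, rfl⟩⟩
    have hcard : ({a, b, c} : Finset ℕ).card = 3 := by
      rw [← hx, Finset.card_image_of_injective _ code_injective]
      exact hG.vs_card x
    obtain ⟨h1, h2, h3⟩ : a ≠ b ∧ a ≠ c ∧ b ≠ c := by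
      refine ⟨?_, ?_, ?_⟩
      · rintro rfl
        have := Finset.card_le_two (a := a) (b := c)
        simp at hcard
        omega
      · rintro rfl
        have := Finset.card_le_two (a := b) (b := a)
        simp at hcard
        omega
      · rintro rfl
        have := Finset.card_le_two (a := a) (b := b)
        simp at hcard
        omega
    obtain ⟨x', y', z', h4, h5, h6, -⟩ := sort3_spec h1 h2 h3
    rw [h4] at hs
    exact faces_pairwise h5 h6 hs
  · ext s
    rw [List.mem_toFinset, List.mem_map]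
    have hmem : s ∈ cx (fun x : Nod n => (vs (fun (u : Fin n) p (v : Fin n) => arc u p v)
        x).image code) ↔ ∃ r : Finset ℕ, (∃ x : Nod n,
          (vs (fun (u : Fin n) p (v : Fin n) => arc u p v) x).image code = r) ∧
          s ⊆ r ∧ s.Nonempty := by
      simp [cx]
    rw [hmem]
    have hdist : ∀ a b c : ℕ, (∃ x : Nod n,
        (vs (fun (u : Fin n) p (v : Fin n) => arc u p v) x).image code = {a, b, c}) →
        a ≠ b ∧ a ≠ c ∧ b ≠ c := by
      rintro a b c ⟨x, hx⟩
      have hcard : ({a, b, c} : Finset ℕ).card = 3 := by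
        rw [← hx, Finset.card_image_of_injective _ code_injective]
        exact hG.vs_card x
      refine ⟨?_, ?_, ?_⟩
      · rintro rfl
        have := Finset.card_le_two (a := a) (b := c)
        simp at hcard
        omega
      · rintro rfl
        have := Finset.card_le_two (a := b) (b := a)
        simp at hcard
        omega
      · rintro rfl
        have := Finset.card_le_two (a := a) (b := b)
        simp at hcard
        omega
    constructor
    · rintro ⟨r, hr, h1, h2⟩
      obtain ⟨t, ht, a, b, c, rfl, rfl⟩ := (tris_iff arc _).2 hr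
      obtain ⟨d1, d2, d3⟩ := hdist a b c hr
      obtain ⟨x', y', z', h4, h5, h6, h7⟩ := sort3_spec d1 d2 d3
      rw [← h7] at h1
      obtain ⟨l, hl, hls⟩ := (faces_spec s).1 ⟨h1, h2⟩
      refine ⟨l, ?_, hls⟩
      rw [cxList, List.mem_dedup, List.mem_flatMap]
      exact ⟨sort3 [a, b, c], List.mem_map.2 ⟨_, ht, rfl⟩, by rw [h4]; exact hl⟩
    · rintro ⟨l, hl, hls⟩
      rw [cxList, List.mem_dedup, List.mem_flatMap] at hl
      obtain ⟨t', ht', hl⟩ := hl
      obtain ⟨t, ht, rfl⟩ := List.mem_map.1 ht'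
      obtain ⟨a, b, c, rfl⟩ : ∃ a b c, t = [a, b, c] := by
        rcases mem_tris.1 ht with ⟨v, h⟩ | ⟨v, j, h⟩ | ⟨u, p, v, h | h⟩ | ⟨v, l, h⟩
        · exact ⟨_, _, _, h⟩
        · exact ⟨_, _, _, h⟩
        · obtain ⟨j, h⟩ := mem_gadL.1 h
          exact ⟨_, _, _, h⟩
        · obtain ⟨j, h⟩ := mem_gadL.1 h
          exact ⟨_, _, _, h⟩
        · obtain ⟨j, h⟩ := mem_gadL.1 h
          exact ⟨_, _, _, h⟩
      have hx := (tris_iff arc _).1 ⟨_, ht, a, b, c, rfl, rfl⟩
      obtain ⟨d1, d2, d3⟩ := hdist a b c hx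
      obtain ⟨x', y', z', h4, h5, h6, h7⟩ := sort3_spec d1 d2 d3
      rw [h4] at hl
      have := (faces_spec s).2 ⟨l, hl, hls⟩
      rw [h7] at this
      exact ⟨_, hx, this⟩

end Pool.Agent.Q206.ME.LL
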