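import Pool.Agent.Q206.ME.Stm

/-!
# Matchings of the face poset and families of edges
-/

set_option autoImplicit false

namespace Pool.Agent.Q206.ME.Match

open Finset Relation

/-- an acyclic relation on a finite type has a rank function -/
lemma exists_rank {T : Type} [Finite T] (R : T → T → Prop) (h : ∀ t, ¬ TransGen R t t) :
    ∃ r : T → ℕ, ∀ a b, R a b → r b < r a := by
  classical
  refine ⟨fun a => {b | TransGen R a b}.ncard, fun a b hab => ?_⟩
  refine Set.ncard_lt_ncard ?_ (Set.toFinite _)
  refine ⟨fun c hc => TransGen.head hab hc, fun hc => ?_⟩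
  exact h b (hc (TransGen.single hab))

variable {T : Type} [Fintype T] {f : T → Finset ℕ}

lemma mem_cx {s : Finset ℕ} : s ∈ cx f ↔ ∃ t, s ⊆ f t ∧ s.Nonempty := by
  simp [cx]

lemma card_le (h3 : ∀ t, (f t).card = 3) {s : Finset ℕ} (hs : s ∈ cx f) :
    1 ≤ s.card ∧ s.card ≤ 3 := by
  obtain ⟨t, h1, h2⟩ := mem_cx.1 hs
  exact ⟨h2.card_pos, (Finset.card_le_card h1).trans (h3 t).le⟩

lemma eq_of_card (h3 : ∀ t, (f t).card = 3) {s : Finset ℕ} (hs : s ∈ cx f) (hc : s.card = 3) :
    ∃ t, s = f t := by
  obtain ⟨t, h1, -⟩ := mem_cx.1 hs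
  exact ⟨t, Finset.eq_of_subset_of_card_le h1 (by rw [h3, hc])⟩

lemma f_mem (h3 : ∀ t, (f t).card = 3) (t : T) : f t ∈ cx f :=
  mem_cx.2 ⟨t, subset_rfl, Finset.card_pos.1 (by rw [h3]; norm_num)⟩

/-- the matching given by a family -/
noncomputable def toM (f φ : T → Finset ℕ) : Finset (Finset ℕ × Finset ℕ) :=
  univ.image fun t => (φ t, f t)

lemma mem_toM {φ : T → Finset ℕ} {p : Finset ℕ × Finset ℕ} :
    p ∈ toM f φ ↔ ∃ t, p = (φ t, f t) := by
  simp [toM, eq_comm]

lemma phi_mem {φ : T → Finset ℕ} (hφ : IsFam f φ) (t : T) : φ t ∈ cx f :=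
  mem_cx.2 ⟨t, hφ.sub t, Finset.card_pos.1 (by rw [hφ.card]; norm_num)⟩

open Classical in
/-- the rank of a simplex -/
noncomputable def rho (f φ : T → Finset ℕ) (r : T → ℕ) (s : Finset ℕ) : ℕ :=
  if s.card = 1 then 2 * (∑ t, r t) + 4
  else if h : ∃ t, s = φ t then 2 * r h.choose + 1
  else if h : ∃ t, s = f t then 2 * r h.choose + 2
  else 2 * (∑ t, r t) + 3

section

variable (hf : Function.Injective f) (h3 : ∀ t, (f t).card = 3) {φ : T → Finset ℕ}
  (hφ : IsFam f φ) (r : T → ℕ)

include hφ in
lemma rho_phi (t : T) : rho f φ r (φ t) = 2 * r t + 1 := by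
  have h : ∃ t', φ t = φ t' := ⟨t, rfl⟩
  have h1 : ¬ (φ t).card = 1 := by rw [hφ.card]; norm_num
  rw [rho, if_neg h1, dif_pos h]
  rw [← hφ.inj h.choose_spec]

include hf h3 hφ in
lemma rho_f (t : T) : rho f φ r (f t) = 2 * r t + 2 := by
  have h : ∃ t', f t = f t' := ⟨t, rfl⟩
  have h1 : ¬ (f t).card = 1 := by rw [h3]; norm_num
  have h2 : ¬ ∃ t', f t = φ t' := by
    rintro ⟨t', h2⟩
    have := congrArg Finset.card h2
    rw [h3, hφ.card] at this
    omega
  rw [rho, if_neg h1, dif_neg h2, dif_pos h]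
  rw [← hf h.choose_spec]

lemma r_le (t : T) : r t ≤ ∑ t, r t :=
  Finset.single_le_sum (fun _ _ => Nat.zero_le _) (Finset.mem_univ t)

lemma rho_one (s : Finset ℕ) (h : s.card = 1) : rho f φ r s = 2 * (∑ t, r t) + 4 := by
  rw [rho, if_pos h]

lemma rho_le (s : Finset ℕ) (h : s.card ≠ 1) : rho f φ r s ≤ 2 * (∑ t, r t) + 3 := by
  rw [rho, if_neg h]
  split_ifs with h1 h2
  · have := r_le r h1.choose
    omega
  · have := r_le r h2.choose
    omega
  · exact le_rfl

include hf h3 hφ in
lemma matching : IsAcyclicMatching (cx f) (toM f φ) where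
  covers := by
    intro p hp
    obtain ⟨t, rfl⟩ := mem_toM.1 hp
    exact ⟨phi_mem hφ t, f_mem h3 t, hφ.sub t, by rw [h3, hφ.card]⟩
  disjoint := by
    intro p hp q hq hpq
    obtain ⟨t, rfl⟩ := mem_toM.1 hp
    obtain ⟨t', rfl⟩ := mem_toM.1 hq
    have ht : t ≠ t' := by
      rintro rfl
      exact hpq rfl
    refine ⟨fun h => ht (hφ.inj h), fun h => ?_, fun h => ht (hf h)⟩
    have := congrArg Finset.card h
    simp only at this
    rw [h3, hφ.card] at this
    omega
  acyclic := by
    obtain ⟨r, hr⟩ := exists_rank _ hφ.acyc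
    have key : ∀ a b, Arc (cx f) (toM f φ) a b → rho f φ r a < rho f φ r b := by
      rintro a b (⟨⟨hb, ha, hba, hc⟩, hn⟩ | ⟨-, h⟩)
      · have hb1 := card_le h3 hb
        have ha1 := card_le h3 ha
        by_cases hb2 : b.card = 1
        · rw [rho_one r b hb2]
          have := rho_le (f := f) (φ := φ) r a (by omega)
          omega
        · obtain ⟨t, rfl⟩ := eq_of_card h3 ha (by omega)
          rw [rho_f hf h3 hφ]
          by_cases hb3 : ∃ t', b = φ t'
          · obtain ⟨t', rfl⟩ := hb3
            rw [rho_phi hφ]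
            have h4 : t ≠ t' := by
              rintro rfl
              exact hn (mem_toM.2 ⟨t, rfl⟩)
            have := hr t' t ⟨h4, hba⟩
            omega
          · have hb4 : ¬ ∃ t', b = f t' := by
              rintro ⟨t', rfl⟩
              have e1 := h3 t
              have e2 := h3 t'
              omega
            rw [rho, if_neg hb2, dif_neg hb3, dif_neg hb4]
            have := r_le r t
            omega
      · obtain ⟨t, ht⟩ := mem_toM.1 h
        simp only [Prod.mk.injEq] at ht
        obtain ⟨rfl, rfl⟩ := ht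
        rw [rho_f hf h3 hφ, rho_phi hφ]
        omega
    have key2 : ∀ a b, TransGen (Arc (cx f) (toM f φ)) a b → rho f φ r a < rho f φ r b := by
      intro a b hab
      induction hab with
      | single h => exact key _ _ h
      | tail _ h ih => exact ih.trans (key _ _ h)
    intro s hs
    exact lt_irrefl _ (key2 s s hs)

end

/-- **ME-MATCH.** -/
theorem main : S_MATCH := by
  intro T _ f hf h3
  symm
  have hfor : ∀ φ : {φ : T → Finset ℕ // IsFam f φ}, IsAcyclicMatching (cx f) (toM f φ.1) ∧
      crit (cx f) (toM f φ.1) 0 = ((cx f).filter fun s => s.card = 1).card ∧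
      crit (cx f) (toM f φ.1) 2 = 0 := by
    rintro ⟨φ, hφ⟩
    refine ⟨matching hf h3 hφ, ?_, ?_⟩
    · unfold crit
      congr 1
      refine Finset.filter_congr fun s hs => ?_
      constructor
      · rintro ⟨h1, -⟩
        exact h1
      · intro h1
        refine ⟨h1, fun p hp => ?_⟩
        obtain ⟨t, rfl⟩ := mem_toM.1 hp
        constructor
        · rintro rfl
          simp only at h1
          rw [hφ.card] at h1
          omega
        · rintro rfl
          simp only at h1
          rw [h3] at h1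
          omega
    · unfold crit
      rw [Finset.card_eq_zero, Finset.filter_eq_empty_iff]
      rintro s hs ⟨h1, h2⟩
      obtain ⟨t, rfl⟩ := eq_of_card h3 hs h1
      exact (h2 _ (mem_toM.2 ⟨t, rfl⟩)).2 rfl
  refine Nat.card_congr (Equiv.ofBijective
    (fun φ : {φ : T → Finset ℕ // IsFam f φ} => (⟨toM f φ.1, hfor φ⟩ :
      {M : Finset (Finset ℕ × Finset ℕ) // IsAcyclicMatching (cx f) M ∧
        crit (cx f) M 0 = ((cx f).filter fun s => s.card = 1).card ∧ crit (cx f) M 2 = 0})) ⟨?_, ?_⟩)
  · rintro ⟨φ, hφ⟩ ⟨φ', hφ'⟩ h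
    simp only [Subtype.mk.injEq] at h ⊢
    funext t
    have h1 : (φ t, f t) ∈ toM f φ' := by
      rw [← h]
      exact mem_toM.2 ⟨t, rfl⟩
    obtain ⟨t', h2⟩ := mem_toM.1 h1
    simp only [Prod.mk.injEq] at h2
    rw [h2.1, ← hf h2.2]
  · rintro ⟨M, hM, h0, h2⟩
    have hv : ∀ s ∈ cx f, s.card = 1 → ∀ p ∈ M, s ≠ p.1 ∧ s ≠ p.2 := by
      intro s hs hc
      unfold crit at h0
      have h4 : (cx f).filter (fun s => s.card = 0 + 1 ∧ ∀ p ∈ M, s ≠ p.1 ∧ s ≠ p.2) =
          (cx f).filter fun s => s.card = 1 := by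
        refine Finset.eq_of_subset_of_card_le ?_ (by rw [h0])
        intro x hx
        rw [Finset.mem_filter] at hx ⊢
        exact ⟨hx.1, hx.2.1⟩
      have h5 : s ∈ (cx f).filter fun s => s.card = 1 := Finset.mem_filter.2 ⟨hs, hc⟩
      rw [← h4, Finset.mem_filter] at h5
      exact h5.2.2
    have hex : ∀ t, ∃ e, (e, f t) ∈ M := by
      intro t
      by_contra hno
      unfold crit at h2
      rw [Finset.card_eq_zero, Finset.filter_eq_empty_iff] at h2
      refine h2 (f_mem h3 t) ⟨h3 t, fun p hp => ⟨?_, ?_⟩⟩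
      · intro h
        have h4 := (hM.covers p hp).2.2.2
        have h5 := card_le h3 (hM.covers p hp).2.1
        rw [← h, h3] at h4
        omega
      · intro h
        exact hno ⟨p.1, by rw [h]; exact hp⟩
    choose φ hφ using hex
    have hcov := fun t => hM.covers _ (hφ t)
    have hfam : IsFam f φ := by
      refine ⟨fun t => (hcov t).2.2.1, fun t => ?_, ?_, ?_⟩
      · have := (hcov t).2.2.2
        simp only at this
        rw [h3] at this
        omega
      · intro t t' h
        by_contra hne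
        have h4 : ((φ t, f t) : Finset ℕ × Finset ℕ) ≠ (φ t', f t') := by
          intro h5
          exact hne (hf (Prod.mk.inj h5).2)
        exact (hM.disjoint _ (hφ t) _ (hφ t') h4).1 h
      · have key : ∀ a b, Rel f φ a b → TransGen (Arc (cx f) M) (f b) (f a) := by
          rintro a b ⟨hne, hsub⟩
          have hc : Covers (cx f) (φ a) (f b) := by
            refine ⟨(hcov a).1, f_mem h3 b, hsub, ?_⟩
            have := (hcov a).2.2.2
            simp only at this
            rw [h3] at this ⊢
            exact this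
          have h4 : (φ a, f b) ∉ M := by
            intro h5
            have h6 : ((φ a, f a) : Finset ℕ × Finset ℕ) ≠ (φ a, f b) := by
              intro h7
              exact hne (hf (Prod.mk.inj h7).2.symm)
            exact (hM.disjoint _ (hφ a) _ h5 h6).1 rfl
          exact TransGen.head (Or.inl ⟨hc, h4⟩) (TransGen.single (Or.inr ⟨hcov a, hφ a⟩))
        intro t ht
        have : ∀ a b, TransGen (Rel f φ) a b → TransGen (Arc (cx f) M) (f b) (f a) := by
          intro a b hab
          induction hab with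
          | single h => exact key _ _ h
          | tail _ h ih => exact (key _ _ h).trans ih
        exact hM.acyclic _ (this t t ht)
    refine ⟨⟨φ, hfam⟩, ?_⟩
    simp only [Subtype.mk.injEq]
    ext p
    rw [mem_toM]
    constructor
    · rintro ⟨t, rfl⟩
      exact hφ t
    · intro hp
      have hc := hM.covers p hp
      have h4 := card_le h3 hc.1
      have h5 := card_le h3 hc.2.1
      have h6 := hc.2.2.2
      have h7 : p.1.card ≠ 1 := fun h => (hv p.1 hc.1 h p hp).1 rfl
      obtain ⟨t, ht⟩ := eq_of_card h3 hc.2.1 (by omega)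
      refine ⟨t, ?_⟩
      by_contra hne
      exact (hM.disjoint _ hp _ (hφ t) hne).2.2 ht

end Pool.Agent.Q206.ME.Match
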