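import Pool.Agent.Q206.ME.Rank

/-!
# Acyclic states of the network for the permanent
-/

namespace Pool.Agent.Q206.ME

open Finset

theorem block_lt {N : ℕ} (w : Fin (nn N)) (hw : N * N ≤ (w : ℕ)) :
    ((w : ℕ) - N * N) / (N * N + 1) < N * N := by
  have key : ∀ q x : ℕ, q ≤ x → x < q * (q + 2) → (x - q) / (q + 1) < q := by
    intro q x hq hx
    rw [Nat.div_lt_iff_lt_mul (by omega)]
    have : q * (q + 2) = q * (q + 1) + q := by ring
    omega
  exact key (N * N) w hw w.2

/-- **ME-NET1** -/
theorem s_NET1 : S_NET1 := by
  intro N e s
  constructor
  · intro h
    constructor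
    · intro u v hu hv huv hl hs
      have h1 : netArc N e u (s u) v = true := by
        unfold netArc
        rw [if_pos hu, if_pos hv, hs.1]
        have : (u : ℕ) ≠ v := fun h => huv (Fin.ext h)
        rcases hl with hl | hl
        · simp [this, hl]
        · simp [this, hl]
      have h2 : netArc N e v (s v) u = true := by
        unfold netArc
        rw [if_pos hv, if_pos hu, hs.2]
        have : (v : ℕ) ≠ u := fun h => huv (Fin.ext h.symm)
        rcases hl with hl | hl
        · simp [this, hl]
        · simp [this, hl]
      exact h u (.tail (.single h1) h2)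
    · intro u w hu hw hb hsw
      by_contra hc
      have h1 : netArc N e u (s u) w = true := by
        unfold netArc
        rw [if_pos hu, if_neg (by omega)]
        have : (!s u || !e u) = true := by
          rcases hsu : s u with _ | _
          · simp
          · rcases heu : e u with _ | _
            · simp
            · exact absurd ⟨hsu, heu⟩ hc
        simp [this, hb]
      have h2 : netArc N e w (s w) u = true := by
        unfold netArc
        rw [if_neg (by omega), hsw]
        simp [hb]
      exact h u (.tail (.single h1) h2)
  · rintro ⟨h1, h2⟩
    refine acyclic_of_rank (fun v : Fin (nn N) => if (v : ℕ) < N * N then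
      (if s v = true then 3 else 2) else (if s v = true then 4 else 1)) ?_
    intro u w huw
    simp only [netArc] at huw
    split_ifs at huw with hu hw
    · simp only [Bool.and_eq_true, decide_eq_true_eq, Bool.or_eq_true] at huw
      obtain ⟨a, b, c⟩ := huw
      have hs : ¬ s w = true := fun hw' => h1 u w hu hw (fun h => b (by rw [h])) c ⟨a, hw'⟩
      simp [hu, hw, a, hs]
    · simp only [Bool.and_eq_true, decide_eq_true_eq] at huw
      obtain ⟨a, b⟩ := huw
      have hs : ¬ s w = true := by
        intro hw'
        obtain ⟨c, d⟩ := h2 u w hu (by omega) b hw'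
        rw [c, d] at a
        simp at a
      rw [Bool.not_eq_true] at hs
      rw [if_neg hw, if_pos hu, hs]
      split_ifs <;> simp_all
    · simp only [Bool.and_eq_true, decide_eq_true_eq] at huw
      obtain ⟨a, b⟩ := huw
      have hw : (w : ℕ) < N * N := by rw [b]; exact block_lt u (by omega)
      rw [if_neg hu, if_pos hw, a]
      split_ifs <;> simp_all

end Pool.Agent.Q206.ME
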