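import Pool.Agent.Q206.ME.Stm

/-!
# Counting the acyclic states of the network for the permanent
-/

namespace Pool.Agent.Q206.ME

open Finset
open Pool.Agent.H549R2.Convex (ent F)

/-- No two cells in one line. -/
def Ind {N : ℕ} (I : Finset (Fin N × Fin N)) : Prop :=
  ∀ c ∈ I, ∀ c' ∈ I, (c.1 = c'.1 ∨ c.2 = c'.2) → c = c'

instance {N : ℕ} (I : Finset (Fin N × Fin N)) : Decidable (Ind I) := by
  unfold Ind; infer_instance

/-- The numbering of the nodes. -/
def EE (N : ℕ) : (Fin N × Fin N) ⊕ ((Fin N × Fin N) × Fin (N * N + 1)) ≃ Fin (nn N) :=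
  (Equiv.sumCongr finProdFinEquiv ((Equiv.prodCongr finProdFinEquiv (Equiv.refl _)).trans
    finProdFinEquiv)).trans (finSumFinEquiv.trans (finCongr (by unfold nn; ring)))

theorem EE_inl {N : ℕ} (c : Fin N × Fin N) : (EE N (.inl c) : ℕ) = c.2 + N * c.1 := by
  simp [EE, finProdFinEquiv]

theorem EE_inr {N : ℕ} (c : Fin N × Fin N) (r : Fin (N * N + 1)) :
    (EE N (.inr (c, r)) : ℕ) = N * N + (r + (N * N + 1) * (c.2 + N * c.1)) := by
  simp [EE, finProdFinEquiv]

theorem cell_lt {N : ℕ} (c : Fin N × Fin N) : (c.2 : ℕ) + N * c.1 < N * N := by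
  have h1 := c.1.2
  have h2 := c.2.2
  have h3 : N * ((c.1 : ℕ) + 1) ≤ N * N := Nat.mul_le_mul_left _ h1
  rw [Nat.mul_add] at h3
  omega

theorem cell_div {N : ℕ} (c : Fin N × Fin N) : ((c.2 : ℕ) + N * c.1) / N = c.1 := by
  have h2 := c.2.2
  rw [Nat.add_mul_div_left _ _ (by omega), Nat.div_eq_of_lt h2, zero_add]

theorem cell_mod {N : ℕ} (c : Fin N × Fin N) : ((c.2 : ℕ) + N * c.1) % N = c.2 := by
  rw [Nat.add_mul_mod_self_left, Nat.mod_eq_of_lt c.2.2]

/-- The good states. -/
theorem good_iff {N : ℕ} (A : List (List Bool)) (s : Fin (nn N) → Bool) :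
    Good N (fun x => ent A (x / N) (x % N)) s ↔
      Ind (univ.filter fun c => s (EE N (.inl c)) = true) ∧
      ∀ c r, s (EE N (.inr (c, r))) = true →
        s (EE N (.inl c)) = true ∧ ent A c.1 c.2 = true := by
  constructor
  · rintro ⟨h1, h2⟩
    constructor
    · intro c hc c' hc' hl
      rw [mem_filter] at hc hc'
      by_contra hne
      refine h1 (EE N (.inl c)) (EE N (.inl c')) ?_ ?_ ?_ ?_ ⟨hc.2, hc'.2⟩
      · rw [EE_inl]; exact cell_lt c
      · rw [EE_inl]; exact cell_lt c'
      · intro h
        exact hne (Sum.inl_injective ((EE N).injective h))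
      · rw [EE_inl, EE_inl, cell_div, cell_div, cell_mod, cell_mod]
        rcases hl with hl | hl
        · left; rw [hl]
        · right; rw [hl]
    · intro c r hs
      have := h2 (EE N (.inl c)) (EE N (.inr (c, r))) (by rw [EE_inl]; exact cell_lt c)
        (by rw [EE_inr]; omega) ?_ hs
      · simp only [EE_inl, cell_div, cell_mod] at this
        exact this
      · rw [EE_inr, EE_inl, Nat.add_sub_cancel_left, Nat.add_mul_div_left _ _ (by omega),
          Nat.div_eq_of_lt r.2, zero_add]
  · rintro ⟨h1, h2⟩
    constructor
    · intro u v hu hv huv hl hs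
      obtain ⟨x, rfl⟩ := (EE N).surjective u
      obtain ⟨y, rfl⟩ := (EE N).surjective v
      rcases x with c | ⟨c, r⟩
      · rcases y with c' | ⟨c', r'⟩
        · rw [EE_inl, EE_inl, cell_div, cell_div, cell_mod, cell_mod] at hl
          refine huv (congrArg _ (congrArg _ (h1 c ?_ c' ?_ ?_)))
          · rw [mem_filter]; exact ⟨mem_univ _, hs.1⟩
          · rw [mem_filter]; exact ⟨mem_univ _, hs.2⟩
          · rcases hl with hl | hl
            · left; exact Fin.ext hl
            · right; exact Fin.ext hl
        · rw [EE_inr] at hv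
          omega
      · rw [EE_inr] at hu
        omega
    · intro u w hu hw hb hs
      obtain ⟨x, rfl⟩ := (EE N).surjective u
      obtain ⟨y, rfl⟩ := (EE N).surjective w
      rcases y with c' | ⟨c', r'⟩
      · rw [EE_inl] at hw
        have := cell_lt c'
        omega
      · rcases x with c | ⟨c, r⟩
        · rw [EE_inr, EE_inl, Nat.add_sub_cancel_left, Nat.add_mul_div_left _ _ (by omega),
            Nat.div_eq_of_lt r'.2, zero_add] at hb
          have hcc : c' = c := by
            have e1 := congrArg (· / N) hb
            have e2 := congrArg (· % N) hb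
            simp only [cell_div, cell_mod] at e1 e2
            exact Prod.ext (Fin.ext e1) (Fin.ext e2)
          subst hcc
          have := h2 c' r' hs
          simp only [EE_inl, cell_div, cell_mod]
          exact this
        · rw [EE_inr] at hu
          omega

/-- The number of good states with a given set of cells in the state `true`. -/
theorem card_fibre {N : ℕ} (A : List (List Bool)) (I : Finset (Fin N × Fin N)) (hI : Ind I) :
    (univ.filter fun s : Fin (nn N) → Bool =>
      (Ind (univ.filter fun c => s (EE N (.inl c)) = true) ∧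
        ∀ c r, s (EE N (.inr (c, r))) = true →
          s (EE N (.inl c)) = true ∧ ent A c.1 c.2 = true) ∧
      (univ.filter fun c => s (EE N (.inl c)) = true) = I).card =
    2 ^ ((N * N + 1) * (I.filter fun c => ent A c.1 c.2 = true).card) := by
  classical
  let T : (Fin N × Fin N) ⊕ ((Fin N × Fin N) × Fin (N * N + 1)) → Finset Bool :=
    Sum.elim (fun c => if c ∈ I then {true} else {false})
      (fun x => if x.1 ∈ I ∧ ent A x.1.1 x.1.2 = true then univ else {false})
  have h1 : (univ.filter fun s : Fin (nn N) → Bool =>
      (Ind (univ.filter fun c => s (EE N (.inl c)) = true) ∧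
        ∀ c r, s (EE N (.inr (c, r))) = true →
          s (EE N (.inl c)) = true ∧ ent A c.1 c.2 = true) ∧
      (univ.filter fun c => s (EE N (.inl c)) = true) = I).card = (Fintype.piFinset T).card := by
    refine card_bij (fun s _ => fun x => s (EE N x)) ?_ ?_ ?_
    · intro s hs
      rw [mem_filter] at hs
      obtain ⟨-, ⟨-, h2⟩, h3⟩ := hs
      rw [Fintype.mem_piFinset]
      have h4 : ∀ c, s (EE N (.inl c)) = true ↔ c ∈ I := by
        intro c; rw [← h3, mem_filter]; simp
      rintro (c | ⟨c, r⟩)
      · simp only [T, Sum.elim_inl]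
        split_ifs with hc
        · rw [mem_singleton]; exact (h4 c).2 hc
        · rw [mem_singleton, ← Bool.not_eq_true, h4]; exact hc
      · simp only [T, Sum.elim_inr]
        split_ifs with hc
        · exact mem_univ _
        · rw [mem_singleton, ← Bool.not_eq_true]
          intro h5
          obtain ⟨a, b⟩ := h2 c r h5
          exact hc ⟨(h4 c).1 a, b⟩
    · intro s _ s' _ h
      funext u
      have := congrFun h ((EE N).symm u)
      simpa using this
    · intro t ht
      rw [Fintype.mem_piFinset] at ht
      refine ⟨fun u => t ((EE N).symm u), ?_, ?_⟩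
      · have h4 : ∀ c, t (.inl c) = true ↔ c ∈ I := by
          intro c
          have := ht (.inl c)
          simp only [T, Sum.elim_inl] at this
          split_ifs at this with hc
          · rw [mem_singleton] at this; simp [this, hc]
          · rw [mem_singleton] at this; simp [this, hc]
        have h5 : (univ.filter fun c => t ((EE N).symm (EE N (.inl c))) = true) = I := by
          ext c
          rw [mem_filter, Equiv.symm_apply_apply, h4]
          simp
        rw [mem_filter]
        refine ⟨mem_univ _, ⟨?_, ?_⟩, h5⟩
        · rw [h5]; exact hI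
        · intro c r hcr
          simp only [Equiv.symm_apply_apply] at hcr ⊢
          have := ht (.inr (c, r))
          simp only [T, Sum.elim_inr] at this
          split_ifs at this with hc
          · exact ⟨(h4 c).2 hc.1, hc.2⟩
          · rw [mem_singleton] at this
            rw [this] at hcr
            exact absurd hcr (by simp)
      · funext x
        simp
  rw [h1, Fintype.card_piFinset, Fintype.prod_sum_type]
  have h2 : ∏ c : Fin N × Fin N, (T (.inl c)).card = 1 := by
    refine prod_eq_one fun c _ => ?_
    simp only [T, Sum.elim_inl]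
    split_ifs <;> rfl
  have h3 : ∏ x : (Fin N × Fin N) × Fin (N * N + 1), (T (.inr x)).card =
      ∏ c : Fin N × Fin N, (if c ∈ I ∧ ent A c.1 c.2 = true then 2 else 1) ^ (N * N + 1) := by
    rw [Fintype.prod_prod_type]
    refine prod_congr rfl fun c _ => ?_
    have : ∀ r : Fin (N * N + 1), (T (.inr (c, r))).card =
        if c ∈ I ∧ ent A c.1 c.2 = true then 2 else 1 := by
      intro r
      simp only [T, Sum.elim_inr]
      split_ifs <;> rfl
    rw [prod_congr rfl fun r _ => this r, prod_const, card_univ, Fintype.card_fin]
  rw [h2, one_mul, h3, prod_pow, prod_ite, prod_const, prod_const_one, mul_one, ← pow_mul]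
  congr 1
  rw [mul_comm]
  congr 2
  ext c
  simp [mem_filter]

/-- The number of good states. -/
theorem card_good {N : ℕ} (A : List (List Bool)) :
    Nat.card {s : Fin (nn N) → Bool // Good N (fun x => ent A (x / N) (x % N)) s} =
      ∑ I ∈ (univ : Finset (Finset (Fin N × Fin N))).filter Ind,
        2 ^ ((N * N + 1) * (I.filter fun c => ent A c.1 c.2 = true).card) := by
  classical
  rw [Nat.card_congr (Equiv.subtypeEquivRight fun s => good_iff A s), Nat.card_eq_fintype_card,
    Fintype.card_subtype,
    card_eq_sum_card_fiberwise (f := fun s : Fin (nn N) → Bool =>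
      univ.filter fun c => s (EE N (.inl c)) = true) (t := univ.filter Ind)]
  · refine sum_congr rfl fun I hI => ?_
    rw [filter_filter]
    exact card_fibre A I (mem_filter.1 hI).2
  · intro s hs
    rw [mem_coe, mem_filter] at hs
    rw [mem_coe, mem_filter]
    exact ⟨mem_univ _, hs.2.1⟩

/-- At most one cell in each column. -/
theorem card_le {N : ℕ} (I : Finset (Fin N × Fin N)) (hI : Ind I) : I.card ≤ N := by
  have : (I.image Prod.snd).card = I.card := by
    refine card_image_of_injOn ?_
    intro c hc c' hc' h
    exact hI c hc c' hc' (.inr h)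
  rw [← this]
  refine (card_le_univ _).trans ?_
  simp

theorem Ind.mono {N : ℕ} {I J : Finset (Fin N × Fin N)} (hI : Ind I) (h : J ⊆ I) : Ind J :=
  fun c hc c' hc' => hI c (h hc) c' (h hc')

/-- The permanent counts the full independent sets. -/
theorem perm_eq {N : ℕ} (A : List (List Bool)) :
    Matrix.permanent (Matrix.of fun i j : Fin N =>
      if (A.getD i.val []).getD j.val false = true then 1 else 0) =
    ((univ : Finset (Finset (Fin N × Fin N))).filter fun I => Ind I ∧
      (I.filter fun c => ent A c.1 c.2 = true).card = N).card := by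
  classical
  have h1 : Matrix.permanent (Matrix.of fun i j : Fin N =>
      if (A.getD i.val []).getD j.val false = true then 1 else 0) =
      (univ.filter fun σ : Equiv.Perm (Fin N) => ∀ j, ent A (σ j) j = true).card := by
    rw [Matrix.permanent, card_filter]
    refine sum_congr rfl fun σ _ => ?_
    simp only [Matrix.of_apply]
    rw [prod_ite_zero]
    simp [ent]
  rw [h1]
  refine card_bij (fun σ _ => univ.image fun j => (σ j, j)) ?_ ?_ ?_
  · intro σ hσ
    rw [mem_filter] at hσ ⊢
    refine ⟨mem_univ _, ?_, ?_⟩
    · intro c hc c' hc' h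
      obtain ⟨j, -, rfl⟩ := mem_image.1 hc
      obtain ⟨j', -, rfl⟩ := mem_image.1 hc'
      rcases h with h | h
      · simp only [EmbeddingLike.apply_eq_iff_eq] at h
        rw [h]
      · simp only at h
        rw [h]
    · rw [filter_true_of_mem, card_image_of_injective]
      · simp
      · intro a b hab
        exact (Prod.ext_iff.1 hab).2
      · intro c hc
        obtain ⟨j, -, rfl⟩ := mem_image.1 hc
        exact hσ.2 j
  · intro σ _ τ _ h
    ext j
    have : (σ j, j) ∈ univ.image fun j => (τ j, j) := by
      rw [← h]
      exact mem_image.2 ⟨j, mem_univ _, rfl⟩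
    obtain ⟨k, -, hk⟩ := mem_image.1 this
    simp only [Prod.mk.injEq] at hk
    rw [← hk.1, hk.2]
  · intro I hI
    rw [mem_filter] at hI
    obtain ⟨-, hI, hcard⟩ := hI
    set S := I.filter fun c => ent A c.1 c.2 = true with hS
    have hSI : Ind S := hI.mono (filter_subset _ _)
    have hcol : S.image Prod.snd = univ := by
      rw [← card_eq_iff_eq_univ, card_image_of_injOn, hcard, Fintype.card_fin]
      intro c hc c' hc' h
      exact hSI c hc c' hc' (.inr h)
    have h2 : ∀ j : Fin N, ∃ i : Fin N, (i, j) ∈ S := by
      intro j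
      have : j ∈ S.image Prod.snd := by rw [hcol]; exact mem_univ _
      obtain ⟨⟨i, j'⟩, h3, rfl⟩ := mem_image.1 this
      exact ⟨i, h3⟩
    choose f hf using h2
    have hfinj : Function.Injective f := by
      intro a b hab
      have := hSI _ (hf a) _ (hf b) (.inl hab)
      exact (Prod.ext_iff.1 this).2
    refine ⟨Equiv.ofBijective f (Finite.injective_iff_bijective.1 hfinj), ?_, ?_⟩
    · rw [mem_filter]
      refine ⟨mem_univ _, fun j => ?_⟩
      exact (mem_filter.1 (hf j)).2
    · ext c
      simp only [mem_image, mem_univ, true_and, Equiv.ofBijective_apply]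
      constructor
      · rintro ⟨j, rfl⟩
        exact (mem_filter.1 (hf j)).1
      · intro hc
        refine ⟨c.2, ?_⟩
        exact hI _ (mem_filter.1 (hf c.2)).1 _ hc (.inr rfl)

/-- **ME-NET2** -/
theorem s_NET2 : S_NET2 := by
  classical
  intro A hA
  rw [card_good, F, if_pos hA, perm_eq]
  set N := A.length with hN
  set f : Finset (Fin N × Fin N) → ℕ := fun I =>
    (I.filter fun c => ent A c.1 c.2 = true).card with hf
  have hle : ∀ I : Finset (Fin N × Fin N), Ind I → f I ≤ N := fun I hI =>
    card_le _ (hI.mono (filter_subset _ _))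
  change (∑ I ∈ univ.filter Ind, 2 ^ ((N * N + 1) * f I)) / 2 ^ ((N * N + 1) * N) =
    (univ.filter fun I => Ind I ∧ f I = N).card
  rw [← sum_filter_add_sum_filter_not (univ.filter Ind) (fun I => f I = N)]
  have h1 : ∑ I ∈ (univ.filter Ind).filter (fun I => f I = N), 2 ^ ((N * N + 1) * f I) =
      (univ.filter fun I => Ind I ∧ f I = N).card * 2 ^ ((N * N + 1) * N) := by
    rw [filter_filter]
    refine sum_const_nat fun I hI => ?_
    rw [(mem_filter.1 hI).2.2]
  have h2 : ∑ I ∈ (univ.filter Ind).filter (fun I => ¬ f I = N), 2 ^ ((N * N + 1) * f I) <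
      2 ^ ((N * N + 1) * N) := by
    rcases Nat.eq_zero_or_pos N with h0 | hpos
    · have : (univ.filter Ind).filter (fun I => ¬ f I = N) = ∅ := by
        rw [filter_eq_empty_iff]
        intro I hI hne
        exact hne (le_antisymm (hle I (mem_filter.1 hI).2) (by omega))
      rw [this, sum_empty]
      positivity
    · calc ∑ I ∈ (univ.filter Ind).filter (fun I => ¬ f I = N), 2 ^ ((N * N + 1) * f I)
          ≤ ∑ I ∈ (univ.filter Ind).filter (fun I => ¬ f I = N),
            2 ^ ((N * N + 1) * (N - 1)) := by
            refine sum_le_sum fun I hI => ?_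
            have a := hle I (mem_filter.1 (mem_filter.1 hI).1).2
            have b := (mem_filter.1 hI).2
            exact Nat.pow_le_pow_right (by omega) (Nat.mul_le_mul_left _ (by omega))
        _ = ((univ.filter Ind).filter (fun I => ¬ f I = N)).card *
            2 ^ ((N * N + 1) * (N - 1)) := by rw [sum_const, smul_eq_mul]
        _ ≤ 2 ^ (N * N) * 2 ^ ((N * N + 1) * (N - 1)) := by
            refine Nat.mul_le_mul_right _ ?_
            refine (card_le_univ _).trans ?_
            rw [Fintype.card_finset, Fintype.card_prod, Fintype.card_fin]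
        _ < 2 ^ (N * N + 1) * 2 ^ ((N * N + 1) * (N - 1)) := by
            refine Nat.mul_lt_mul_of_pos_right ?_ (by positivity)
            exact Nat.pow_lt_pow_right (by omega) (by omega)
        _ = 2 ^ ((N * N + 1) * N) := by
            rw [← pow_add]
            congr 1
            obtain ⟨M, hM⟩ : ∃ M, N = M + 1 := ⟨N - 1, by omega⟩
            have : N - 1 = M := by omega
            rw [this]
            generalize N * N + 1 = q
            rw [hM]
            ring
  rw [h1, Nat.mul_comm, Nat.mul_add_div (by positivity), Nat.div_eq_of_lt h2, add_zero]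

end Pool.Agent.Q206.ME
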