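import Pool.Agent.Q206.ME.Stm

/-!
# Hardness for string-valued oracles
-/

namespace Pool.Agent.Q206.ME

open Pool.Agent.NPC Pool.Agent.NPC.H549NRed Pool.Agent.NPC.Cnt

/-- Nonadaptive polynomial-time reductions to a function on strings. -/
theorem turingReduces_of_list' {α : Type} [TEnc α] {f : List Bool → ℕ}
    {g : List Bool → List Bool} (qs : List Bool → List α)
    (post : List Bool × List (List Bool) → ℕ) (hqs : Poly qs) (hpost : Poly post)
    (hf : ∀ x, f x = post (x, (qs x).map fun a => g (bits a)))
    (r : Polynomial ℕ) (hr : ∀ x, ∀ a ∈ qs x, (g (bits a)).length ≤ r.eval (sz a)) :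
    ME.TuringReduces f g := by
  let next : List Bool × List (List Bool) → List Bool ⊕ ℕ := fun s =>
    match (qs s.1)[s.2.length]? with
    | none => Sum.inr (post s)
    | some a => Sum.inl (bits a)
  have hbits : NPC.Poly (fun a : α => bits a) := poly_enc.comp (f := fun a : α => toT a)
    (Poly.toT' Poly.id)
  have hnext : NPC.Poly next := by
    refine (Poly.optCases (o := fun s : List Bool × List (List Bool) => (qs s.1)[s.2.length]?)
      (g := fun s => Sum.inr (post s)) (h := fun _ a => Sum.inl (bits a))
      (Poly.getElem? (hqs.comp (Poly.fst Poly.id)) (Poly.length (Poly.snd Poly.id)))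
      (Poly.inr hpost) (Poly.inl (hbits.comp (Poly.snd Poly.id)))).congr ?_
    intro s
    simp only [next]
    cases (qs s.1)[s.2.length]? <;> rfl
  obtain ⟨c1, hc1⟩ := hqs.sz_le
  have hdec : NPC.Poly (fun s : List Bool =>
      ((decode s).getD ([], []) : List Bool × List (List Bool))) :=
    (Poly.optCases (o := fun s : List Bool => (decode s : Option (List Bool × List (List Bool))))
      (g := fun _ => ([], [])) (h := fun _ b => b) poly_decode (NPC.Poly.const _)
      (Poly.snd Poly.id)).congr fun s => by
        cases (decode s : Option (List Bool × List (List Bool))) <;> rfl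
  refine ⟨next, fun s => bits (next ((decode s).getD ([], []))),
    c1.comp (Polynomial.C 4 * Polynomial.X + Polynomial.C 1) +
      r.comp (c1.comp (Polynomial.C 4 * Polynomial.X + Polynomial.C 1)), ?_, ?_, ?_⟩
  · apply PC.toPolyTime
    have h0 : NPC.Poly (fun s : List Bool => next ((decode s).getD ([], []))) :=
      Poly.comp (g := next) (f := fun s : List Bool =>
        ((decode s).getD ([], []) : List Bool × List (List Bool))) hnext hdec
    exact PC.comp (g := fun s : List Bool => next ((decode s).getD ([], [])))
      (f := fun s : List Bool => s) h0 PC.ofBits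
  · intro s
    have : decode (bits s) = some s := decode_eq_some.2 rfl
    simp only [this, Option.getD_some]
  · intro x
    have hsx : sz x ≤ 4 * x.length + 1 := sz_listBool_le x
    have e1 : (c1.comp (Polynomial.C 4 * Polynomial.X + Polynomial.C 1)).eval x.length =
        c1.eval (4 * x.length + 1) := by
      simp [Polynomial.eval_comp]
    have e2 : (r.comp (c1.comp (Polynomial.C 4 * Polynomial.X + Polynomial.C 1))).eval x.length =
        r.eval (c1.eval (4 * x.length + 1)) := by
      simp [Polynomial.eval_comp]
    have h1 : sz (qs x) ≤ c1.eval (4 * x.length + 1) := (hc1 x).trans (eval_mono c1 hsx)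
    refine ⟨(qs x).map fun a => g (bits a), ?_, ?_, ?_⟩
    · rw [Polynomial.eval_add, e1, e2, List.length_map]
      have := length_lt_sz (qs x)
      omega
    · intro i hi
      rw [List.length_map] at hi
      have hq : (qs x)[i]'hi ∈ qs x := List.getElem_mem hi
      have hsz := sz_le_of_mem hq
      refine ⟨bits ((qs x)[i]'hi), ?_, ?_, ?_, ?_⟩
      · simp only [next]
        have hl : ((List.map (fun a => g (bits a)) (qs x)).take i).length = i := by simp; omega
        rw [hl, List.getElem?_eq_getElem hi]
      · rw [bits_length, Polynomial.eval_add, e1, e2]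
        omega
      · rw [List.getElem_map]
      · rw [Polynomial.eval_add, e1, e2]
        have h3 := hr x ((qs x)[i]'hi) hq
        have h4 := eval_mono r (hsz.le.trans h1)
        omega
    · simp only [next]
      have hl : (List.map (fun a => g (bits a)) (qs x)).length = (qs x).length := by simp
      rw [hl, List.getElem?_eq_none le_rfl]
      simp only
      rw [hf x]

/-- the value from the answer -/
def val {α β : Type} [TEnc β] [TDec β] (ext : α × β → ℕ) (p : α × List Bool) : ℕ :=
  match (decode p.2 : Option β) with
  | none => 0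
  | some b => ext (p.1, b)

theorem val_poly {α β : Type} [TEnc α] [TEnc β] [TDec β] {ext : α × β → ℕ} (h : NPC.Poly ext) :
    NPC.Poly (val ext) := by
  have hp : NPC.Poly (fun q : (α × List Bool) × β => ext (q.1.1, q.2)) :=
    h.comp (Poly.pair (Poly.fst (Poly.fst Poly.id)) (Poly.snd Poly.id))
  refine (Poly.optCases (o := fun p : α × List Bool => (decode p.2 : Option β))
    (g := fun _ => 0) (h := fun p b => ext (p.1, b)) (poly_decode.comp (Poly.snd Poly.id))
    (NPC.Poly.const _) hp).congr fun x => ?_
  rw [val]
  cases (decode x.2 : Option β) <;> rfl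

/-- **ME-ORACLE** -/
theorem s_ORACLE : S_ORACLE := by
  rintro α β _ _ _ S f ext g r ⟨qs, post, hqs, hpost, hc⟩ hext hg f' ⟨V, p, hV, hf⟩
  obtain ⟨G, hG, hGf⟩ := parsimonious hV p
  have hG' : NPC.Poly G := PC.comp hG pc_raw
  have hQ : NPC.Poly (fun x => qs (G x)) := hqs.comp hG'
  have h1 : NPC.Poly (fun s : List Bool × List (List Bool) =>
      ((qs (G s.1)).zip s.2).map (val ext)) :=
    NPC.Poly.map (F := fun (_ : List Bool × List (List Bool)) x => val ext x)
      (Poly.zip (hQ.comp (Poly.fst Poly.id)) (Poly.snd Poly.id))
      ((val_poly hext).comp (Poly.snd Poly.id))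
  have h2 : NPC.Poly (fun s : List Bool × List (List Bool) =>
      post (G s.1, ((qs (G s.1)).zip s.2).map (val ext))) :=
    hpost.comp (Poly.pair (hG'.comp (Poly.fst Poly.id)) h1)
  refine turingReduces_of_list' (fun x => qs (G x)) _ hQ h2 ?_ r ?_
  · intro x
    obtain ⟨h3, h4⟩ := hc (G x) trivial
    rw [hf x, ← hGf x]
    refine h4.symm.trans ?_
    simp only
    congr 2
    have e : (qs (G x)).zip ((qs (G x)).map fun a => g (bits a)) =
        (qs (G x)).map fun a => (a, g (bits a)) := by
      induction qs (G x) with
      | nil => rfl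
      | cons a Q ih => rw [List.map_cons, List.zip_cons_cons, ih, List.map_cons]
    rw [e, List.map_map]
    refine List.map_congr_left fun a ha => ?_
    obtain ⟨b, hb1, hb2, -⟩ := hg a (h3 a ha)
    have hd : (decode (g (bits a)) : Option β) = some b := decode_eq_some.2 hb1.symm
    simp only [Function.comp, val, hd, hb2]
  · intro x a ha
    obtain ⟨b, hb1, -, hb3⟩ := hg a ((hc (G x) trivial).1 a ha)
    rw [hb1, bits_length]
    exact hb3

end Pool.Agent.Q206.ME
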