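import Pool.Agent.Q206.ME.Rank

/-!
# The facts on the gadget
-/

namespace Pool.Agent.Q206.ME

open Finset

set_option maxRecDepth 100000

/-- a matching which does not use the tap -/
def φ0 : Fin 13 → Finset (Fin 7) :=
  ![{0, 2}, {1, 4}, {0, 5}, {0, 3}, {0, 6}, {3, 6}, {2, 5}, {4, 5}, {3, 4}, {1, 2}, {2, 6}, {2, 3},
    {1, 5}]

/-- its ranks -/
def r0 : Fin 13 → ℕ := ![7, 11, 6, 3, 2, 1, 8, 9, 10, 5, 4, 0, 12]

theorem isFam_φ0 : IsFam P φ0 := by
  refine ⟨by decide, by decide, by decide, acyclic_of_rank r0 ?_⟩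
  unfold Rel
  decide

theorem two_triangles : ∀ t : Fin 13, ∀ e ∈ (P t).powersetCard 2, e ≠ exE →
    ∃ t' : Fin 13, t' ≠ t ∧ e ⊆ P t' := by decide

theorem ex_unique : ∀ t : Fin 13, exE ⊆ P t → t = tEx := by decide

/-- **ME-P** -/
theorem s_P : S_P := by
  refine ⟨fun φ hφ => ?_, φ0, isFam_φ0, by decide⟩
  obtain ⟨r, hr⟩ := exists_rank hφ.acyc
  have key : ∀ n : ℕ, ∀ t, r t = n → φ tEx = exE ∧ Relation.ReflTransGen (Rel P φ) t tEx := by
    intro n
    induction n using Nat.strong_induction_on with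
    | _ n ih =>
      intro t ht
      by_cases he : φ t = exE
      · have h1 : t = tEx := ex_unique t (he ▸ hφ.sub t)
        subst h1
        exact ⟨he, .refl⟩
      · obtain ⟨t', h1, h2⟩ := two_triangles t (φ t)
          (mem_powersetCard.2 ⟨hφ.sub t, hφ.card t⟩) he
        have hrel : Rel P φ t t' := ⟨h1, h2⟩
        obtain ⟨h3, h4⟩ := ih (r t') (ht ▸ hr t t' hrel) t' rfl
        exact ⟨h3, .head hrel h4⟩
  exact ⟨(key _ tEx rfl).1, fun t => (key _ t rfl).2⟩

end Pool.Agent.Q206.ME
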