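import Pool.Agent.Q206.ME.Stm

/-!
# Reading off the number of matchings from the output
-/

set_option autoImplicit false

namespace Pool.Agent.Q206.ME.Pick

open Finset Relation

/-- the list of the numbers of critical simplices -/
def cr (K : Finset (Finset ℕ)) (M : Finset (Finset ℕ × Finset ℕ)) : List ℕ :=
  (List.range (K.sup Finset.card)).map (crit K M)

lemma length_cr (K : Finset (Finset ℕ)) (M : Finset (Finset ℕ × Finset ℕ)) :
    (cr K M).length = K.sup Finset.card := by
  simp [cr]

lemma getD_cr (K : Finset (Finset ℕ)) (M : Finset (Finset ℕ × Finset ℕ)) (i : ℕ) :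
    (cr K M).getD i 0 = crit K M i := by
  by_cases hi : i < K.sup Finset.card
  · rw [List.getD_eq_getElem _ _ (by rw [length_cr]; exact hi)]
    simp [cr]
  · rw [List.getD_eq_default _ _ (by rw [length_cr]; omega)]
    symm
    unfold crit
    rw [Finset.card_eq_zero, Finset.filter_eq_empty_iff]
    rintro s hs ⟨h1, -⟩
    have : s.card ≤ K.sup Finset.card := Finset.le_sup (f := Finset.card) hs
    omega

open Classical in
/-- the acyclic matchings -/
noncomputable def AM (K : Finset (Finset ℕ)) : Finset (Finset (Finset ℕ × Finset ℕ)) :=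
  (K ×ˢ K).powerset.filter (IsAcyclicMatching K)

lemma mem_AM {K : Finset (Finset ℕ)} {M : Finset (Finset ℕ × Finset ℕ)} :
    M ∈ AM K ↔ IsAcyclicMatching K M := by
  classical
  rw [AM, Finset.mem_filter, Finset.mem_powerset]
  refine ⟨fun h => h.2, fun h => ⟨fun p hp => ?_, h⟩⟩
  have := h.covers p hp
  exact Finset.mem_product.2 ⟨this.1, this.2.1⟩

lemma prod_eq (K : Finset (Finset ℕ)) (M : Finset (Finset ℕ × Finset ℕ)) :
    (∏ i ∈ range (K.sup Finset.card), MvPolynomial.X i ^ crit K M i : MvPolynomial ℕ ℕ) =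
      MvPolynomial.monomial (cr K M).toFinsupp 1 := by
  have h1 : (cr K M).toFinsupp =
      ∑ i ∈ range (K.sup Finset.card), Finsupp.single i (crit K M i) := by
    ext i
    rw [List.toFinsupp_apply, getD_cr, Finsupp.finsetSum_apply]
    simp only [Finsupp.single_apply]
    rw [Finset.sum_ite_eq']
    split_ifs with h
    · rfl
    · rw [← getD_cr, List.getD_eq_default]
      rw [length_cr]
      simpa using h
  rw [h1, MvPolynomial.monomial_sum_one]
  refine Finset.prod_congr rfl fun i _ => ?_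
  rw [MvPolynomial.X_pow_eq_monomial]

lemma toFinsupp_inj {c c' : List ℕ} (hl : c.length = c'.length)
    (h : c.toFinsupp = c'.toFinsupp) : c = c' := by
  apply List.ext_getElem hl
  intro i h1 h2
  have h3 := DFunLike.congr_fun h i
  rw [List.toFinsupp_apply, List.toFinsupp_apply, List.getD_eq_getElem _ _ h1,
    List.getD_eq_getElem _ _ h2] at h3
  exact h3

open Classical in
lemma coeff_eq (K : Finset (Finset ℕ)) (c : List ℕ) (hc : c.length = K.sup Finset.card) :
    (ensemble K).coeff c.toFinsupp = ((AM K).filter fun M => cr K M = c).card := by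
  unfold ensemble
  rw [MvPolynomial.coeff_sum, Finset.card_filter]
  unfold AM
  refine Finset.sum_congr rfl fun M _ => ?_
  rw [prod_eq, MvPolynomial.coeff_monomial]
  refine if_congr ⟨fun h => toFinsupp_inj (by rw [length_cr, hc]) h, fun h => by rw [h]⟩ rfl rfl

/-- **ME-PICK.** -/
theorem main : S_PICK := by
  classical
  intro K O f₀ hO
  obtain ⟨hnd, hmem⟩ := hO
  have hOnd : O.Nodup := List.Nodup.of_map _ hnd
  let p : List ℕ × ℕ → Bool := fun x => decide (x.1.getD 0 0 = f₀) && decide (x.1.getD 2 0 = 0)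
  have hnat : Nat.card {M : Finset (Finset ℕ × Finset ℕ) // IsAcyclicMatching K M ∧
      crit K M 0 = f₀ ∧ crit K M 2 = 0} =
      ((AM K).filter fun M => crit K M 0 = f₀ ∧ crit K M 2 = 0).card := by
    refine Nat.subtype_card _ fun M => ?_
    rw [Finset.mem_filter, mem_AM]
  rw [hnat]
  have hpick : pick f₀ O = ∑ x ∈ (O.filter p).toFinset, x.2 := by
    rw [List.sum_toFinset _ (hOnd.filter _)]
    rfl
  rw [hpick]
  let g : Finset (Finset ℕ × Finset ℕ) → List ℕ × ℕ := fun M =>
    (cr K M, (ensemble K).coeff (cr K M).toFinsupp)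
  have hmaps : ∀ M ∈ (AM K).filter (fun M => crit K M 0 = f₀ ∧ crit K M 2 = 0),
      g M ∈ (O.filter p).toFinset := by
    intro M hM
    obtain ⟨h1, h2, h3⟩ := Finset.mem_filter.1 hM
    rw [List.mem_toFinset, List.mem_filter]
    refine ⟨(hmem _ _).2 ⟨length_cr K M, ?_, rfl⟩, ?_⟩
    · rw [coeff_eq K _ (length_cr K M)]
      have : M ∈ (AM K).filter (fun M' => cr K M' = cr K M) := Finset.mem_filter.2 ⟨h1, rfl⟩
      exact (Finset.card_pos.2 ⟨M, this⟩).ne'
    · simp only [p, g, getD_cr, h2, h3, decide_true, Bool.and_true]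
  rw [Finset.card_eq_sum_card_fiberwise (f := g) (t := (O.filter p).toFinset) hmaps]
  refine Finset.sum_congr rfl fun x hx => ?_
  obtain ⟨c, a⟩ := x
  rw [List.mem_toFinset, List.mem_filter] at hx
  obtain ⟨h1, h2⟩ := hx
  obtain ⟨h3, -, h4⟩ := (hmem c a).1 h1
  simp only [p, Bool.and_eq_true, decide_eq_true_eq] at h2
  change a = _
  rw [h4, coeff_eq K c h3]
  congr 1
  ext M
  simp only [Finset.mem_filter, g, Prod.mk.injEq]
  constructor
  · rintro ⟨h5, rfl⟩
    rw [getD_cr, getD_cr] at h2
    exact ⟨⟨h5, h2⟩, rfl, coeff_eq K _ h3⟩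
  · rintro ⟨⟨h5, -⟩, h6, -⟩
    exact ⟨h5, h6⟩

end Pool.Agent.Q206.ME.Pick
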