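import Pool.Agent.Q206.ME.Stm

/-!
# The list of the simplices is computed in polynomial time
-/

namespace Pool.Agent.Q206.ME

open Pool.Agent.NPC

attribute [local fun_prop] Cnt.pNatPair

variable {β : Type} [TEnc β]

theorem gc_poly {c u v k : β → ℕ} {p : β → Bool} (hc : NPC.Poly c) (hu : NPC.Poly u)
    (hp : NPC.Poly p) (hv : NPC.Poly v) (hk : NPC.Poly k) :
    NPC.Poly (fun b => gc (c b) (u b) (p b) (v b) (k b)) := by
  unfold gc
  fun_prop

attribute [local fun_prop] gc_poly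

theorem dV_poly {n u v : β → ℕ} {t p : β → Bool} (hn : NPC.Poly n) (ht : NPC.Poly t)
    (hu : NPC.Poly u) (hp : NPC.Poly p) (hv : NPC.Poly v) :
    NPC.Poly (fun b => dV (n b) (t b) (u b) (p b) (v b)) := by
  unfold dV
  fun_prop

theorem bV_poly {n u v : β → ℕ} {t p : β → Bool} (hn : NPC.Poly n) (ht : NPC.Poly t)
    (hu : NPC.Poly u) (hp : NPC.Poly p) (hv : NPC.Poly v) :
    NPC.Poly (fun b => bV (n b) (t b) (u b) (p b) (v b)) := by
  unfold bV
  fun_prop

theorem eV_poly {n v : β → ℕ} {l : β → Bool} (hn : NPC.Poly n)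
    (hv : NPC.Poly v) (hl : NPC.Poly l) :
    NPC.Poly (fun b => eV (n b) (v b) (l b)) := by
  unfold eV
  fun_prop

theorem gadL_poly {w : β → List ℕ} (hw : NPC.Poly w) : NPC.Poly (fun b => gadL (w b)) := by
  unfold gadL
  fun_prop

theorem sort3_poly : NPC.Poly sort3 := by
  unfold sort3
  fun_prop

theorem faces_poly : NPC.Poly faces := by
  unfold faces
  fun_prop

attribute [local fun_prop] dV_poly bV_poly eV_poly gadL_poly

section Tris

variable {α : Type} [TEnc α] {R R' : α → List ℕ} {n : α → ℕ} {W : α × ℕ × Bool × ℕ → Bool}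

theorem part1 (hR : NPC.Poly R) : NPC.Poly (fun a =>
    (R a).map (fun v => [Nat.pair 0 v, Nat.pair 2 (Nat.pair v 0), Nat.pair 1 v])) :=
  NPC.Poly.map (F := fun (_ : α) v => [Nat.pair 0 v, Nat.pair 2 (Nat.pair v 0), Nat.pair 1 v]) hR
    (by fun_prop)

theorem part2 (hR : NPC.Poly R) (hR' : NPC.Poly R') : NPC.Poly (fun a =>
    (R a).flatMap (fun v => (R' a).map fun j =>
      [Nat.pair 1 v, Nat.pair 2 (Nat.pair v j), Nat.pair 2 (Nat.pair v (j + 1))])) := by
  refine NPC.Poly.flatMap (F := fun (a : α) v => (R' a).map fun j =>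
      [Nat.pair 1 v, Nat.pair 2 (Nat.pair v j), Nat.pair 2 (Nat.pair v (j + 1))]) hR ?_
  refine NPC.Poly.map (F := fun (x : α × ℕ) j =>
      [Nat.pair 1 x.2, Nat.pair 2 (Nat.pair x.2 j), Nat.pair 2 (Nat.pair x.2 (j + 1))])
      (hR'.comp (Poly.fst Poly.id)) ?_
  fun_prop

theorem part3 (hR : NPC.Poly R) (hn : NPC.Poly n) (hW : NPC.Poly W) : NPC.Poly (fun a =>
    (R a).flatMap (fun u => [false, true].flatMap fun p => (R a).flatMap fun v =>
      gadL (dV (n a) (W (a, u, p, v)) u p v) ++ gadL (bV (n a) (W (a, u, p, v)) u p v))) := by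
  refine NPC.Poly.flatMap (F := fun (a : α) u => [false, true].flatMap fun p =>
    (R a).flatMap fun v => gadL (dV (n a) (W (a, u, p, v)) u p v) ++
      gadL (bV (n a) (W (a, u, p, v)) u p v)) hR ?_
  refine NPC.Poly.flatMap (F := fun (x : α × ℕ) p =>
    (R x.1).flatMap fun v => gadL (dV (n x.1) (W (x.1, x.2, p, v)) x.2 p v) ++
      gadL (bV (n x.1) (W (x.1, x.2, p, v)) x.2 p v)) (NPC.Poly.const _) ?_
  refine NPC.Poly.flatMap (F := fun (x : (α × ℕ) × Bool) v =>
    gadL (dV (n x.1.1) (W (x.1.1, x.1.2, x.2, v)) x.1.2 x.2 v) ++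
      gadL (bV (n x.1.1) (W (x.1.1, x.1.2, x.2, v)) x.1.2 x.2 v))
    (hR.comp (Poly.fst (Poly.fst Poly.id))) ?_
  have h1 : NPC.Poly (fun x : ((α × ℕ) × Bool) × ℕ => n x.1.1.1) :=
    hn.comp (Poly.fst (Poly.fst (Poly.fst Poly.id)))
  have h2 : NPC.Poly (fun x : ((α × ℕ) × Bool) × ℕ => W (x.1.1.1, x.1.1.2, x.1.2, x.2)) :=
    hW.comp (f := fun x : ((α × ℕ) × Bool) × ℕ => (x.1.1.1, x.1.1.2, x.1.2, x.2)) (by fun_prop)
  have h3 : NPC.Poly (fun x : ((α × ℕ) × Bool) × ℕ => x.1.1.2) :=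
    Poly.snd (Poly.fst (Poly.fst Poly.id))
  have h4 : NPC.Poly (fun x : ((α × ℕ) × Bool) × ℕ => x.1.2) := Poly.snd (Poly.fst Poly.id)
  have h5 : NPC.Poly (fun x : ((α × ℕ) × Bool) × ℕ => x.2) := Poly.snd Poly.id
  exact Poly.append (gadL_poly (dV_poly h1 h2 h3 h4 h5)) (gadL_poly (bV_poly h1 h2 h3 h4 h5))

theorem part4 (hR : NPC.Poly R) (hn : NPC.Poly n) : NPC.Poly (fun a =>
    (R a).flatMap (fun v => [false, true].flatMap fun l => gadL (eV (n a) v l))) := by
  refine NPC.Poly.flatMap (F := fun (a : α) v => [false, true].flatMap fun l =>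
    gadL (eV (n a) v l)) hR ?_
  refine NPC.Poly.flatMap (F := fun (x : α × ℕ) l => gadL (eV (n x.1) x.2 l))
    (NPC.Poly.const _) ?_
  exact gadL_poly (eV_poly (hn.comp (Poly.fst (Poly.fst Poly.id))) (Poly.snd (Poly.fst Poly.id))
    (Poly.snd Poly.id))

end Tris

/-- **ME-POLY** -/
theorem s_POLY : S_POLY := by
  intro α _ n arc hn harc
  have hr : NPC.Poly (fun a => List.range (n a)) := hn.range
  have hr' : NPC.Poly (fun a => List.range (2 * n a + 1)) :=
    UPoly.range (UPoly.add (UPoly.mul (UPoly.const 2) hn) (UPoly.const 1))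
  have a1 := part1 hr
  have a2 := part2 hr hr'
  have a3 := part3 hr hn.toPoly harc
  have a4 := part4 hr hn.toPoly
  have h1 : NPC.Poly (fun a => tris (n a) (arc a)) := by
    unfold tris
    exact Poly.append a1 (Poly.append a2 (Poly.append a3 a4))
  have h2 : NPC.Poly (fun a => (tris (n a) (arc a)).map sort3) :=
    NPC.Poly.map (F := fun (_ : α) t => sort3 t) h1 (sort3_poly.comp (Poly.snd Poly.id))
  have h3 : NPC.Poly (fun a => ((tris (n a) (arc a)).map sort3).flatMap faces) :=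
    NPC.Poly.flatMap (F := fun (_ : α) t => faces t) h2 (faces_poly.comp (Poly.snd Poly.id))
  exact H612.poly_dedup h3

end Pool.Agent.Q206.ME
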