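import Pool.Agent.Q206.ME.JEx

/-!
# The size of the output
-/

set_option autoImplicit false

namespace Pool.Agent.Q206.ME.Size

open Finset Relation Pool.Agent.NPC Pool.Agent.Q206.ME.Pick Pool.Agent.Q206.ME.Ex

lemma size_le_self (n : ℕ) : n.size ≤ n := Nat.size_le.2 Nat.lt_two_pow_self

lemma crit_le (K : Finset (Finset ℕ)) (M : Finset (Finset ℕ × Finset ℕ)) (i : ℕ) :
    crit K M i ≤ K.card := Finset.card_filter_le _ _

/-- **ME-SIZE.** -/
theorem main : S_SIZE := by
  classical
  refine ⟨(Polynomial.X + 1) ^ 3 * (4 * Polynomial.X ^ 2 + 12 * Polynomial.X + 15) + 1, ?_⟩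
  intro L K O hL hK hO
  set F := sz L with hF
  have hKF : K.card ≤ F := by
    have h1 : K.card ≤ L.length := by
      rw [hL.2.2]
      refine (List.toFinset_card_le _).trans ?_
      rw [List.length_map]
    have := length_lt_sz L
    omega
  obtain ⟨hnd, hmem⟩ := hO
  have hc : ∀ x ∈ O, x.1.length = K.sup Finset.card ∧ (∃ M ∈ AM K, cr K M = x.1) ∧
      x.2 = ((AM K).filter fun M => cr K M = x.1).card := by
    rintro ⟨c, a⟩ hx
    obtain ⟨h1, h2, h3⟩ := (hmem c a).1 hx
    refine ⟨h1, (coeff_ne_zero K c h1).1 (h3 ▸ h2), ?_⟩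
    rw [← coeff_eq K c h1]
    exact h3
  have hentry : ∀ x ∈ O, ∀ i, x.1.getD i 0 ≤ F := by
    intro x hx i
    obtain ⟨-, ⟨M, -, h2⟩, -⟩ := hc x hx
    rw [← h2, getD_cr]
    exact (crit_le K M i).trans hKF
  have hsz1 : ∀ x ∈ O, sz x.1 ≤ 12 * F + 7 := by
    intro x hx
    have h1 : x.1.length ≤ 3 := by
      rw [(hc x hx).1]
      exact hK
    have h2 : ∀ a ∈ x.1, sz a ≤ 4 * F + 1 := by
      intro a ha
      obtain ⟨i, hi, rfl⟩ := List.getElem_of_mem ha
      have h3 := hentry x hx i
      rw [List.getD_eq_getElem _ _ hi] at h3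
      have h4 := sz_nat_le (x.1[i])
      have h5 := size_le_self (x.1[i])
      omega
    have h6 := sz_le_length_mul x.1 _ h2
    nlinarith
  have hsz2 : ∀ x ∈ O, sz x.2 ≤ 4 * (F ^ 2 + 1) + 1 := by
    intro x hx
    have h1 : x.2 ≤ 2 ^ (F ^ 2) := by
      rw [(hc x hx).2.2]
      refine (Finset.card_filter_le _ _).trans ?_
      have h2 : (AM K).card ≤ ((K ×ˢ K).powerset).card := by
        unfold AM
        exact Finset.card_filter_le _ _
      refine h2.trans ?_
      rw [Finset.card_powerset, Finset.card_product]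
      exact Nat.pow_le_pow_right (by norm_num) (by nlinarith)
    have h2 := sz_nat_le x.2
    have h3 : x.2.size ≤ F ^ 2 + 1 := Nat.size_le.2 (lt_of_le_of_lt h1
      (Nat.pow_lt_pow_right (by norm_num) (Nat.lt_succ_self _)))
    omega
  have hlen : O.length ≤ (F + 1) ^ 3 := by
    have h1 : O.length = (O.map Prod.fst).toFinset.card := by
      rw [List.toFinset_card_of_nodup hnd, List.length_map]
    rw [h1]
    have h2 : (Finset.range (F + 1) ×ˢ (Finset.range (F + 1) ×ˢ Finset.range (F + 1))).card =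
        (F + 1) ^ 3 := by
      simp only [Finset.card_product, Finset.card_range]
      ring
    rw [← h2]
    refine Finset.card_le_card_of_injOn
      (fun c : List ℕ => (c.getD 0 0, c.getD 1 0, c.getD 2 0)) ?_ ?_
    · intro c hcm
      simp only [Finset.mem_coe, List.mem_toFinset, List.mem_map] at hcm
      obtain ⟨x, hx, rfl⟩ := hcm
      simp only [Finset.mem_coe, Finset.mem_product, Finset.mem_range]
      have e0 := hentry x hx 0
      have e1 := hentry x hx 1
      have e2 := hentry x hx 2
      omega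
    · intro c hcm c' hcm' h
      simp only [Finset.mem_coe, List.mem_toFinset, List.mem_map] at hcm hcm'
      obtain ⟨x, hx, rfl⟩ := hcm
      obtain ⟨x', hx', rfl⟩ := hcm'
      simp only [Prod.mk.injEq] at h
      have l1 := (hc x hx).1
      have l2 := (hc x' hx').1
      refine List.ext_getElem (l1.trans l2.symm) ?_
      intro i hi hi'
      rw [← List.getD_eq_getElem _ 0 hi, ← List.getD_eq_getElem _ 0 hi']
      have : i = 0 ∨ i = 1 ∨ i = 2 := by omega
      rcases this with rfl | rfl | rfl
      · exact h.1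
      · exact h.2.1
      · exact h.2.2
  have hB : ∀ x ∈ O, sz x ≤ 4 * F ^ 2 + 12 * F + 14 := by
    intro x hx
    have e1 := hsz1 x hx
    have e2 := hsz2 x hx
    have e3 : sz x = sz x.1 + sz x.2 + 1 := sz_pair x.1 x.2
    omega
  have h7 := sz_le_length_mul O _ hB
  simp only [Polynomial.eval_add, Polynomial.eval_mul, Polynomial.eval_pow, Polynomial.eval_X,
    Polynomial.eval_one, Polynomial.eval_ofNat]
  refine h7.trans ?_
  refine Nat.add_le_add_right (Nat.mul_le_mul hlen ?_) 1
  omega

end Pool.Agent.Q206.ME.Size
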