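import Pool.Agent.Q206.ME.Stm

/-!
# The number of the matchings of the gadgets does not depend on the state
-/

set_option autoImplicit false

namespace Pool.Agent.Q206.ME.Val

open Finset Relation

variable {n : ℕ}

/-- exchange of the two ports of the switches in the state `false` -/
def sw (s : Fin n → Bool) : Gad n → Gad n
  | .D v p w => .D v (if s v = true then p else !p) w
  | .B v p w => .B v p w
  | .E v l => .E v l

lemma sw_sw (s : Fin n → Bool) (i : Gad n) : sw s (sw s i) = i := by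
  cases i with
  | D v p w => cases h : s v <;> simp [sw, h]
  | B v p w => rfl
  | E v l => rfl

lemma sw_true (s : Fin n → Bool) (v w : Fin n) : sw s (.D v true w) = .D v (s v) w := by
  cases h : s v <;> simp [sw, h]

lemma sw_false (s : Fin n → Bool) (v w : Fin n) : sw s (.D v false w) = .D v (!s v) w := by
  cases h : s v <;> simp [sw, h]

lemma tapOk_sw (s : Fin n → Bool) (μ : Gad n → Fin 13 → Finset (Fin 7)) :
    TapOk s μ ↔ TapOk (fun _ => true) (fun i => μ (sw s i)) := by
  unfold TapOk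
  simp only [Bool.not_true, sw_true, sw_false]
  refine and_congr ⟨fun h i => h _, fun h i => ?_⟩ Iff.rfl
  have := h (sw s i)
  rwa [sw_sw] at this

lemma sw_fun (s : Fin n → Bool) (μ : Gad n → Fin 13 → Finset (Fin 7)) :
    (fun i => (fun i => μ (sw s i)) (sw s i)) = μ := by
  funext i
  simp only [sw_sw]

/-- the bijection -/
def eqv (A : Fin n → Bool → Fin n → Bool) :
    {x : (Fin n → Bool) × (Gad n → Fin 13 → Finset (Fin 7)) // Acyc A x.1 ∧ TapOk x.1 x.2} ≃
    {μ : Gad n → Fin 13 → Finset (Fin 7) // TapOk (fun _ => true) μ} ×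
      {s : Fin n → Bool // Acyc A s} where
  toFun x := (⟨fun i => x.1.2 (sw x.1.1 i), (tapOk_sw _ _).1 x.2.2⟩, ⟨x.1.1, x.2.1⟩)
  invFun y := ⟨(y.2.1, fun i => y.1.1 (sw y.2.1 i)), y.2.2, by
    rw [tapOk_sw, sw_fun]
    exact y.1.2⟩
  left_inv := by
    rintro ⟨⟨s, μ⟩, h1, h2⟩
    simp only [Subtype.mk.injEq, Prod.mk.injEq, true_and]
    exact sw_fun s μ
  right_inv := by
    rintro ⟨⟨μ, h1⟩, ⟨s, h2⟩⟩
    simp only [Prod.mk.injEq, Subtype.mk.injEq, and_true]
    exact sw_fun s μ

/-- **ME-VAL.** -/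
theorem val : S_VAL := by
  intro hP n
  refine ⟨Nat.card {μ : Gad n → Fin 13 → Finset (Fin 7) // TapOk (fun _ => true) μ}, ?_, ?_⟩
  · obtain ⟨φ, h1, h2⟩ := hP.noTap
    have hno : ¬ uses φ := fun ⟨t, ht⟩ => h2 t ht
    have : Nonempty {μ : Gad n → Fin 13 → Finset (Fin 7) // TapOk (fun _ => true) μ} :=
      ⟨⟨fun _ => φ, fun _ => h1, fun v => ⟨fun _ => hno, fun _ _ h => absurd h hno⟩⟩⟩
    exact Nat.card_pos
  · intro A
    rw [Nat.card_congr (eqv A), Nat.card_prod]

end Pool.Agent.Q206.ME.Val
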