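import Pool.Agent.Q206.ME.Stm

/-!
# Acyclic relations and rank functions
-/

namespace Pool.Agent.Q206.ME

open Finset

/-- A relation with a rank function is acyclic. -/
theorem acyclic_of_rank {T : Type} {R : T → T → Prop} {ι : Type} [Preorder ι] (r : T → ι)
    (h : ∀ a b, R a b → r b < r a) : ∀ t, ¬ Relation.TransGen R t t := by
  have key : ∀ a b, Relation.TransGen R a b → r b < r a := by
    intro a b hab
    induction hab with
    | single h1 => exact h _ _ h1
    | tail _ h2 ih => exact (h _ _ h2).trans ih
  intro t ht
  exact lt_irrefl _ (key t t ht)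

/-- An acyclic relation on a finite type has a rank function. -/
theorem exists_rank {T : Type} [Finite T] {R : T → T → Prop}
    (h : ∀ t, ¬ Relation.TransGen R t t) : ∃ r : T → ℕ, ∀ a b, R a b → r b < r a := by
  classical
  have := Fintype.ofFinite T
  refine ⟨fun a => (univ.filter fun b => Relation.TransGen R a b).card, fun a b hab => ?_⟩
  refine card_lt_card ?_
  rw [Finset.ssubset_iff_of_subset]
  · refine ⟨b, ?_, ?_⟩
    · rw [mem_filter]; exact ⟨mem_univ _, .single hab⟩
    · rw [mem_filter]; exact fun hb => h b hb.2
  · intro c hc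
    rw [mem_filter] at hc ⊢
    exact ⟨mem_univ _, .head hab hc.2⟩

end Pool.Agent.Q206.ME
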