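import Pool.Agent.Q206.ME.Cnt

/-!
# The reduction of the permanent to the Morse ensemble polynomial
-/

namespace Pool.Agent.Q206.ME

open Finset Pool.Agent.NPC Pool.Agent.NPC.H549NRed
open Pool.Agent.H549R2.Convex (ent F)
open Pool.Agent.NPC.H549Convex (LL sqB sqB_poly ent_poly)
open Pool.Agent.NPC.H549PM (upoly_pow2)

/-- The complex with the given list of simplices. -/
def cplx (L : List (List ℕ)) : Finset (Finset ℕ) := (L.map List.toFinset).toFinset

/-- The number of the elements of the list of length one. -/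
def ones (L : List (List ℕ)) : ℕ := (L.filter fun s => decide (s.length = 1)).length

/-- The number of the acyclic matchings without vertices in pairs and critical triangles. -/
noncomputable def Zf (L : List (List ℕ)) : ℕ :=
  Nat.card {M : Finset (Finset ℕ × Finset ℕ) // IsAcyclicMatching (cplx L) M ∧
    crit (cplx L) M 0 = ones L ∧ crit (cplx L) M 2 = 0}

/-- Admissible inputs. -/
def Ok (L : List (List ℕ)) : Prop :=
  IsComplex (cplx L) ∧ Lists L (cplx L) ∧ (cplx L).sup Finset.card ≤ 3

/-- Extraction of `Zf` from the output. -/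
def ext (x : List (List ℕ) × List (List ℕ × ℕ)) : ℕ := pick (ones x.1) x.2

theorem ext_poly : Poly ext := by
  unfold ext pick ones
  fun_prop

/-- The query for the network. -/
def q1 (A : LL) : List (List ℕ) :=
  cxList (nn A.length) (netArc A.length fun x => ent A (x / A.length) (x % A.length))

/-- The query for the network without arcs. -/
def q0 (A : LL) : List (List ℕ) := cxList (nn A.length) fun _ _ _ => false

theorem nn_upoly : UPoly (fun A : LL => nn A.length) := by
  have h : UPoly (fun A : LL => A.length) := UPoly.length Poly.id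
  exact UPoly.mul (UPoly.mul h h) (UPoly.add (UPoly.mul h h) (UPoly.const 2))

theorem q0_poly (hp : S_POLY) : Poly q0 :=
  hp LL (fun A => nn A.length) (fun _ _ _ _ => false) nn_upoly (NPC.Poly.const _)

theorem netArc_poly : Poly (fun x : LL × ℕ × Bool × ℕ =>
    netArc x.1.length (fun y => ent x.1 (y / x.1.length) (y % x.1.length)) x.2.1 x.2.2.1
      x.2.2.2) := by
  have h1 : Poly (fun x : LL × ℕ × Bool × ℕ =>
      ent x.1 (x.2.1 / x.1.length) (x.2.1 % x.1.length)) :=
    ent_poly.comp (f := fun x : LL × ℕ × Bool × ℕ =>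
      (x.1, x.2.1 / x.1.length, x.2.1 % x.1.length)) (by fun_prop)
  unfold netArc
  fun_prop

theorem q1_poly (hp : S_POLY) : Poly q1 :=
  hp LL (fun A => nn A.length) (fun A => netArc A.length fun x =>
    ent A (x / A.length) (x % A.length)) nn_upoly netArc_poly

/-- The computation of the permanent from the answers. -/
def post (x : LL × List ℕ) : ℕ :=
  bif sqB x.1 then
    x.2.getD 0 0 * 2 ^ nn x.1.length / x.2.getD 1 0 /
      2 ^ ((x.1.length * x.1.length + 1) * x.1.length)
  else 0

theorem post_poly : Poly post := by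
  have h0 : UPoly (fun x : LL × List ℕ => x.1.length) := UPoly.length (Poly.fst Poly.id)
  have h1 : Poly (fun x : LL × List ℕ => 2 ^ nn x.1.length) :=
    upoly_pow2 (UPoly.mul (UPoly.mul h0 h0) (UPoly.add (UPoly.mul h0 h0) (UPoly.const 2)))
  have h2 : Poly (fun x : LL × List ℕ => 2 ^ ((x.1.length * x.1.length + 1) * x.1.length)) :=
    upoly_pow2 (UPoly.mul (UPoly.add (UPoly.mul h0 h0) (UPoly.const 1)) h0)
  have h3 : Poly (fun x : LL × List ℕ => sqB x.1) := sqB_poly.comp (Poly.fst Poly.id)
  unfold post
  fun_prop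

theorem netArc_self (N : ℕ) (e : ℕ → Bool) (u : Fin (nn N)) (p : Bool) :
    netArc N e u p u = false := by
  rcases Nat.eq_zero_or_pos N with h0 | hN
  · subst h0
    exact absurd u.2 (by simp [nn])
  unfold netArc
  split_ifs with h1
  · simp
  · have h2 : ((u : ℕ) - N * N) / (N * N + 1) < u := by
      have h4 : 0 < N * N := Nat.mul_pos hN hN
      have h5 : ((u : ℕ) - N * N) / (N * N + 1) ≤ (u : ℕ) - N * N := Nat.div_le_self _ _
      omega
    have h3 : ¬ ((u : ℕ) = ((u : ℕ) - N * N) / (N * N + 1)) := by omega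
    simp [h3]

/-- Families of triangles give complexes. -/
theorem isComplex_cx {T : Type} [Fintype T] (f : T → Finset ℕ) : IsComplex (cx f) := by
  intro s hs
  simp only [cx, mem_biUnion, mem_univ, true_and, mem_filter, mem_powerset] at hs ⊢
  obtain ⟨t, h1, h2⟩ := hs
  exact ⟨h2, fun u hu hne => ⟨t, hu.trans h1, hne⟩⟩

theorem sup_cx_le {T : Type} [Fintype T] (f : T → Finset ℕ) (h : ∀ t, (f t).card = 3) :
    (cx f).sup Finset.card ≤ 3 := by
  refine Finset.sup_le fun s hs => ?_
  simp only [cx, mem_biUnion, mem_univ, true_and, mem_filter, mem_powerset] at hs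
  obtain ⟨t, h1, -⟩ := hs
  exact (card_le_card h1).trans (h t).le

/-- The number of the vertices. -/
theorem ones_eq {L : List (List ℕ)} (h : Lists L (cplx L)) :
    ones L = ((cplx L).filter fun s => s.card = 1).card := by
  obtain ⟨h1, h2, -⟩ := h
  have hc : ∀ s ∈ L, s.toFinset.card = s.length := fun s hs =>
    List.toFinset_card_of_nodup ((h2 s hs).imp (fun h => Nat.ne_of_lt h))
  have hinj : ∀ s ∈ L, ∀ t ∈ L, s.toFinset = t.toFinset → s = t := by
    intro s hs t ht hst
    have hp : s.Perm t := by
      rw [List.perm_ext_iff_of_nodup ((h2 s hs).imp (fun h => Nat.ne_of_lt h))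
        ((h2 t ht).imp (fun h => Nat.ne_of_lt h))]
      intro a
      rw [← List.mem_toFinset, hst, List.mem_toFinset]
    exact hp.eq_of_pairwise (fun a b _ _ h h' => absurd h (Nat.lt_asymm h')) (h2 s hs) (h2 t ht)
  have e : (cplx L).filter (fun s => s.card = 1) =
      ((L.filter fun s => decide (s.length = 1)).map List.toFinset).toFinset := by
    ext s
    simp only [cplx, mem_filter, List.mem_toFinset, List.mem_map, List.mem_filter,
      decide_eq_true_eq]
    constructor
    · rintro ⟨⟨t, ht, rfl⟩, h3⟩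
      exact ⟨t, ⟨ht, by rw [← hc t ht]; exact h3⟩, rfl⟩
    · rintro ⟨t, ⟨ht, h3⟩, rfl⟩
      exact ⟨⟨t, ht, rfl⟩, by rw [hc t ht]; exact h3⟩
  rw [e, List.toFinset_card_of_nodup, List.length_map, ones]
  refine List.Nodup.map_on ?_ (h1.filter _)
  intro s hs t ht hst
  exact hinj s (List.mem_of_mem_filter hs) t (List.mem_of_mem_filter ht) hst

/-- The answer to a query. -/
theorem Zf_cxList (h1 : S_GEO1) (h2 : S_GEO2) (hL : S_LIST) (hM : S_MATCH) (n : ℕ)
    (arc : ℕ → Bool → ℕ → Bool) (harc : ∀ (v : Fin n) p, arc v p v = false) :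
    Ok (cxList n arc) ∧ Zf (cxList n arc) = Nat.card {φ : Nod n → Finset (Vtx n) //
      IsFam (vs fun (u : Fin n) p (v : Fin n) => arc u p v) φ} := by
  classical
  set A : Fin n → Bool → Fin n → Bool := fun u p v => arc u p v with hA
  have hG : Geo A := geo_of h1 h2 A harc
  obtain ⟨hc, hLs⟩ := hL n arc hG
  have hK : cplx (cxList n arc) = cx fun x : Nod n => (vs A x).image code := hLs.2.2.symm
  have hcard : ∀ t : Nod n, ((vs A t).image code).card = 3 := fun t => by
    rw [card_image_of_injective _ hc, hG.vs_card]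
  have hLs' : Lists (cxList n arc) (cplx (cxList n arc)) := by rw [hK]; exact hLs
  constructor
  · refine ⟨?_, hLs', ?_⟩
    · rw [hK]; exact isComplex_cx _
    · rw [hK]; exact sup_cx_le _ hcard
  · rw [Zf, ones_eq hLs', hK, hM (Nod n) (fun x => (vs A x).image code) ?_ hcard]
    · exact card_fam_image (vs A) code hc
    · intro x y hxy
      exact hG.vs_inj (image_injective hc hxy)

/-- **The reduction.** -/
theorem nred_perm (hP : S_P) (h1 : S_GEO1) (h2 : S_GEO2) (hF : S_FWD) (hB : S_BWD) (hV : S_VAL)
    (hN1 : S_NET1) (hN2 : S_NET2) (hM : S_MATCH) (hL : S_LIST) (hp : S_POLY) :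
    NRed (fun _ : LL => True) F Ok Zf := by
  refine ⟨fun A => [q1 A, q0 A], post, Poly.cons (q1_poly hp) (Poly.cons (q0_poly hp)
    (NPC.Poly.const _)), post_poly, fun A _ => ?_⟩
  have a1 := Zf_cxList h1 h2 hL hM (nn A.length)
    (netArc A.length fun x => ent A (x / A.length) (x % A.length))
    (fun v p => netArc_self A.length _ v p)
  have a0 := Zf_cxList h1 h2 hL hM (nn A.length) (fun _ _ _ => false) (fun _ _ => rfl)
  constructor
  · intro b hb
    simp only [List.mem_cons, List.not_mem_nil, or_false] at hb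
    rcases hb with rfl | rfl
    · exact a1.1
    · exact a0.1
  · obtain ⟨C, hC, hcount⟩ := count hP h1 h2 hF hB hV (nn A.length)
    have c1 : Zf (q1 A) = C * Nat.card {s : Fin (nn A.length) → Bool // Good A.length
        (fun x => ent A (x / A.length) (x % A.length)) s} := by
      rw [q1, a1.2, hcount _ (fun v p => netArc_self A.length _ v p)]
      congr 1
      exact Nat.card_congr (Equiv.subtypeEquivRight fun s => hN1 _ _ s)
    have c0 : Zf (q0 A) = C * 2 ^ nn A.length := by
      rw [q0, a0.2, hcount _ (fun _ _ => rfl)]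
      congr 1
      have : ∀ s : Fin (nn A.length) → Bool,
          Acyc (fun (_ : Fin (nn A.length)) (_ : Bool) (_ : Fin (nn A.length)) => false) s := by
        intro s v hv
        obtain ⟨b, -, hb⟩ := Relation.TransGen.tail'_iff.1 hv
        simp at hb
      rw [Nat.card_congr (Equiv.subtypeUnivEquiv this), Nat.card_fun]
      simp
    have hsq : sqB A = true ↔ ∀ r ∈ A, r.length = A.length := by
      simp [sqB]
    simp only [List.map_cons, List.map_nil, post, List.getD_cons_zero, List.getD_cons_succ]
    rw [c1, c0]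
    by_cases hA : ∀ r ∈ A, r.length = A.length
    · rw [hsq.2 hA, cond_true]
      have : C * Nat.card {s : Fin (nn A.length) → Bool // Good A.length
          (fun x => ent A (x / A.length) (x % A.length)) s} * 2 ^ nn A.length /
          (C * 2 ^ nn A.length) = Nat.card {s : Fin (nn A.length) → Bool // Good A.length
          (fun x => ent A (x / A.length) (x % A.length)) s} := by
        rw [mul_right_comm, Nat.mul_div_cancel_left _ (by positivity)]
      rw [this]
      exact hN2 A hA
    · have hs : sqB A = false := by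
        rw [← Bool.not_eq_true, hsq]
        exact hA
      rw [hs, cond_false, F, if_neg hA]

/-- **Hardness**, given the lemmas. -/
theorem hard (hP : S_P) (h1 : S_GEO1) (h2 : S_GEO2) (hF : S_FWD) (hB : S_BWD) (hV : S_VAL)
    (hN1 : S_NET1) (hN2 : S_NET2) (hM : S_MATCH) (hL : S_LIST) (hp : S_POLY) (hpk : S_PICK)
    (hsz : S_SIZE) (hO : S_ORACLE) (d : ℕ) (hd : 2 ≤ d) (g : List Bool → List Bool)
    (hg : Computes d g) : SharpPHard g := by
  obtain ⟨r, hr⟩ := hsz
  have hred : NRed (fun _ : Cnt.CNF ℕ => True) (fun φ => Cnt.satCount φ) Ok Zf :=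
    NRed.comp nred_sat (nred_perm hP h1 h2 hF hB hV hN1 hN2 hM hL hp)
  refine hO (List (List ℕ)) (List (List ℕ × ℕ)) Ok Zf ext g r hred ext_poly ?_
  rintro L ⟨hK, hLs, hdim⟩
  obtain ⟨O, hO1, hO2⟩ := hg L (cplx L) hK hLs (by omega)
  exact ⟨O, hO2, hpk (cplx L) O (ones L) hO1, hr L (cplx L) O hLs hdim hO1⟩

end Pool.Agent.Q206.ME
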