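import Pool.Agent.Q206.ME.Asm
import Pool.Agent.H549R2.NRed
import Pool.Agent.H671R2.PolyAuto
import Pool.Agent.H612.CollectPoly

/-!
# `#P`-hardness of the Morse ensemble polynomial: the statements of the lemmas

The complex: every node `v < n` of a network is a switch (the triangle `s v`) with two ports (two of
its edges), and every arc of the network from the port `(u, p)` to `v` is a gadget `D u p v` whose
tap is glued to the port `(u, p)` and whose exit is glued to the side `num u p` of the collector of
`v`. In a full acyclic matching of the triangles with edges the collectors are matched downward, the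
switches are matched with one of their ports, and the matching is acyclic if and only if the network
has no cycle of active arcs.
-/

namespace Pool.Agent.Q206.ME

open Finset Pool.Agent.NPC Pool.Agent.NPC.H549NRed

/-! ### The complex -/

/-- **ME-P.** (`PFacts` is in Asm.lean.) `noTap`: an explicit matching, e.g. found by a computer
search: match the 13 triangles one by one with edges; `IsFam P φ` for the explicit
`φ : Fin 13 → Finset (Fin 7)` can be proved with a rank function `Fin 13 → ℕ` and `decide`.
`exit`: Fact (by `decide` for all edges, i.e. all two-element subsets `{a, b}` of triangles):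
every edge `≠ exE` which lies in a triangle `t` lies also in a triangle `t' ≠ t`; and `exE ⊆ P t` only
for `t = tEx`. Let `φ` be a full acyclic matching. From every triangle `t` with `φ t ≠ exE` there is
a triangle `t'` with `Rel P φ t t'` (`t' ≠ t`, `φ t ⊆ P t'`). As `Rel P φ` is acyclic on a finite
type, from every `t` some walk ends in a triangle without successor, hence with `φ = exE`, and this
is `tEx` since `exE = φ t ⊆ P t`. -/
def S_P : Prop := PFacts

/-- **ME-GEO1.** The easy part of the structure `Geo` (see Asm.lean). Every vertex lies in few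
triangles: `X v` in `s v` and in the gadgets `D v p w` (as image of `0`); `Z v`: in `s v`, `c v j`,
`D v false w` (image of `1`) and `E v true` (image of `2`); `b v j`: in `s v` if `j = 0`, `c v j`,
`c v (j - 1)`, `D v true w` if `j = 0` (image of `1`), and in the gadgets with exits at the sides `j`
(image of `3`) and `j - 1` (image of `2`); `g i k`: only in the triangles of the gadget `i`.
Every triangle of `P` contains one of `4, 5, 6` (by `decide`). Note `1 ≤ num u p ≤ 2 * n` and `num` is
injective in `(u, p)`. -/
def S_GEO1 : Prop := ∀ (n : ℕ) (A : Fin n → Bool → Fin n → Bool), (∀ v p, A v p v = false) →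
  (∀ i, Function.Injective (emb A i)) ∧ Function.Injective (vs A) ∧ (∀ x, (vs A x).card = 3) ∧
  (∀ v p y, pe v p ⊆ vs A y → y = .s v ∨ ∃ w t, y = .g (.D v p w) t ∧ tapE ⊆ P t) ∧
  (∀ v j y, j < 2 * n + 1 → ce v j ⊆ vs A y →
    (j = 0 ∧ y = .s v) ∨ ∃ i : Fin (2 * n + 1), y = .c v i ∧ ((i : ℕ) = j ∨ (i : ℕ) + 1 = j)) ∧
  ∀ i y, port i = none → tapE.image (emb A i) ⊆ vs A y → ∃ t, y = .g i t ∧ tapE ⊆ P t

/-- **ME-GEO2.** The other two fields of `Geo`. An edge `e` of the gadget other than `{0, 1}` and
`{2, 3}` contains one of `4, 5, 6` (then clear: `g i k` with `4 ≤ k` is only in the triangles of the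
gadget `i`), or it is `{0, 2}, {0, 3}, {1, 2}, {1, 3}`; in the latter case, if one of its two
vertices is not glued, clear again; otherwise `i = D u p v` with `A u p v = true`, hence `u ≠ v`
(so `2 ≤ n`) and the images are `X u`, (`b u 0` or `Z u`), `b v (j + 1)`, `b v j` with
`j = num u p ≥ 1`; the triangles which contain one of the first two and one of the last two are only
triangles of `i` (`num u p` and `num u p'` do not differ by `1`, as `2 ≤ n`). Exits: `{b v (j + 1),
b v j}` or `{Z v, b v (2 n + 1)}`. The collectors: only `c v j` (resp. `c v (2 n)`). -/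
def S_GEO2 : Prop := ∀ (n : ℕ) (A : Fin n → Bool → Fin n → Bool), (∀ v p, A v p v = false) →
  (∀ i, Function.Injective (emb A i)) →
  (∀ i e y, e.card = 2 → e ≠ tapE → e ≠ exE → e.image (emb A i) ⊆ vs A y →
    ∃ t, y = .g i t ∧ e ⊆ P t) ∧
  ∀ i y, exE.image (emb A i) ⊆ vs A y → (∃ t, y = .g i t ∧ exE ⊆ P t) ∨
    ∃ v, ∃ j : Fin (2 * n + 1), y = .c v j ∧
      (side A i = some (v, (j : ℕ)) ∨ ((j : ℕ) = 2 * n ∧ side A i = some (v, 2 * n + 1)))

/-- **ME-FWD.** Every full acyclic matching comes from a state and matchings of the gadgets. Proof: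
(a) `φ (g i t)` is the image of a unique `μ i t ⊆ P t` of two elements (`emb_inj`), and `IsFam P
(μ i)` (a relation `Rel P (μ i) a b` gives `Rel (vs A) φ (g i a) (g i b)`). (b) Hence
`φ (g i tEx)` is the image of `exE`, for all `i` (`PFacts.exit`). (c) So by injectivity no `c v j` is
matched with its side `{b v j, b v (j + 1)}`: for `j = 0` it is the exit of `E v false`, for
`1 ≤ j ≤ 2 n` we have `j = num u p` for some `u, p`, and it is the exit of `D u p v` if
`A u p v = true` and of `B u p v` otherwise; and `{Z v, b v (2 n + 1)}` is the exit of `E v true`.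
(d) By downward induction on `j`: `φ (c v j) = ce v j`. (e) `φ (s v)` is not `ce v 0`, hence it is
`pe v p` for some `p =: s v`. (f) `TapOk`: the image of `tapE` in the gadget `D v p w` is `pe v p`;
injectivity. (g) `Acyc`: an active arc from `u` to `w` gives a path of `Rel (vs A) φ` from the
switch `u` to the switch `w`: `s u`, `g (D u (s u) w) tTap` (`tapE ⊆ P tTap`), then `PFacts.exit` to
`g (D u (s u) w) tEx`, then `c w (num u p)`, `c w (num u p - 1)`, ..., `c w 0`, `s w`. -/
def S_FWD : Prop := ∀ (n : ℕ) (A : Fin n → Bool → Fin n → Bool), Geo A → PFacts →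
  ∀ φ, IsFam (vs A) φ → ∃ s μ, Acyc A s ∧ TapOk s μ ∧ φ = phi A s μ

/-- **ME-BWD.** Proof. `sub`, `card`: clear. `inj`: if `phi x = phi y` then `phi x ⊆ vs A y`; use
`port_edge`, `chain_edge`, `inner_edge`, `exit_edge`, `tap_edge` of `Geo` according to the kind of
`x` (and of `μ i t`: equal to `tapE` glued or not, to `exE`, or neither); by `PFacts.exit` and
injectivity `μ i t = exE` iff `t = tEx`. `acyc`: rank functions. As `Rel P (μ i)` is acyclic on a
finite type, there is `r i : Fin 13 → ℕ` with `r i b < r i a` whenever `Rel P (μ i) a b` (number of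
elements that can be reached), and similarly there is `ρ : Fin n → ℕ` with `ρ w < ρ u` whenever
`A u (s u) w = true`. Rank of `s v`: `(2 ρ v + 2, 0)`; of `c v j`: `(2 ρ v + 2, j + 1)`; of
`g i t`: `(R i, r i t)` where `R i = BIG` (larger than all `2 ρ v + 3`) if `port i = some (v, p)`
with `p ≠ s v` and `uses (μ i)`; otherwise `R i = 2 ρ v + 3` if `side A i = some (v, _)` and
`R i = 1` if `side A i = none`. Every `Rel (vs A) (phi A s μ) x y` makes the rank smaller
(lexicographically): `x = s v`: `y = g (D v (s v) w) t`, whose tap is not used, with rank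
`≤ 2 ρ w + 3 < 2 ρ v + 2` or `1`; `x = c v j`: `y = c v (j - 1)` or `y = s v`; `x = g i t`: either
`y = g i t'` with `Rel P (μ i) t t'`, or `μ i t = exE` and `y = c v j` with `side A i = some (v, _)`
and rank `2 ρ v + 2 < R i`, or `μ i t = tapE` with the tap glued, then `R i = BIG` and `y` is `s v`
or in a gadget `D v (!s v) w'` which does not use its tap (by `TapOk`). -/
def S_BWD : Prop := ∀ (n : ℕ) (A : Fin n → Bool → Fin n → Bool), Geo A → PFacts →
  ∀ s μ, Acyc A s → TapOk s μ → IsFam (vs A) (phi A s μ)

/-- **ME-VAL.** The number `C` of the `μ` with `TapOk s μ` does not depend on `s`: the bijection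
which exchanges `μ (D v false w)` and `μ (D v true w)` for all `w` and all `v` with `s v = false`
maps these `μ` to the ones for the constant state `true`. `0 < C` by `PFacts.noTap` (all `μ i` equal
to a matching which does not use the tap). -/
def S_VAL : Prop := PFacts → ∀ n : ℕ, ∃ C : ℕ, 0 < C ∧ ∀ A : Fin n → Bool → Fin n → Bool,
  Nat.card {x : (Fin n → Bool) × (Gad n → Fin 13 → Finset (Fin 7)) //
    Acyc A x.1 ∧ TapOk x.1 x.2} = C * Nat.card {s : Fin n → Bool // Acyc A s}

/-! ### The network for the permanent -/

/-- The number of nodes. -/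
def nn (N : ℕ) : ℕ := N * N * (N * N + 2)

/-- The arcs: the nodes `u < q = N ^ 2` are the cells of an `N × N` matrix with entries `e u`; the
nodes `v ≥ q` belong in blocks of `q + 1` to the cells: `v` belongs to the cell `(v - q) / (q + 1)`. -/
def netArc (N : ℕ) (e : ℕ → Bool) (u : ℕ) (p : Bool) (v : ℕ) : Bool :=
  if u < N * N then
    if v < N * N then
      p && (decide (u ≠ v) && (decide (u / N = v / N) || decide (u % N = v % N)))
    else (!p || !e u) && decide ((v - N * N) / (N * N + 1) = u)
  else p && decide (v = (u - N * N) / (N * N + 1))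

/-- The acyclic states. -/
def Good (N : ℕ) (e : ℕ → Bool) (s : Fin (nn N) → Bool) : Prop :=
  (∀ u v : Fin (nn N), (u : ℕ) < N * N → (v : ℕ) < N * N → u ≠ v →
    ((u : ℕ) / N = (v : ℕ) / N ∨ (u : ℕ) % N = (v : ℕ) % N) → ¬ (s u = true ∧ s v = true)) ∧
  ∀ u w : Fin (nn N), (u : ℕ) < N * N → N * N ≤ (w : ℕ) →
    ((w : ℕ) - N * N) / (N * N + 1) = u → s w = true → s u = true ∧ e u = true

/-- **ME-NET1.** `→`: two cells of one line in the state `true` give a 2-cycle; a node `w` of the
block of `u` in the state `true` has an active arc to `u`, and if `s u = false` or `e u = false`,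
there is an active arc from `u` to `w`. (`N * N ≤ w < nn N` implies
`(w - N * N) / (N * N + 1) < N * N`.) `←`: rank function: active arcs go from ranks to smaller
ranks, where the rank of a node `w ≥ q` is `4` in the state `true` and `1` in the state `false`, and
the rank of a cell is `3` in the state `true` and `2` in the state `false`. -/
def S_NET1 : Prop := ∀ (N : ℕ) (e : ℕ → Bool) (s : Fin (nn N) → Bool),
  Acyc (fun u p v => netArc N e u p v) s ↔ Good N e s

/-- **ME-NET2.** Let `q = N ^ 2`, `m = q + 1`. For a set `I` of cells, no two in one row or column,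
there are `2 ^ (m * |I ∩ E|)` good states with `I` as the set of cells in the state `true`, where `E`
is the set of the cells with entry `true` (the nodes in the blocks of the cells of `I ∩ E` are free,
the others are `false`). So the number of good states is `∑ I, 2 ^ (m * |I ∩ E|)`. If
`|I ∩ E| = N` then `I` is a permutation matrix inside `E`: the number of these `I` is the permanent
`F A`; the others (at most `2 ^ q` sets `I` with `|I ∩ E| ≤ N - 1`) contribute at most
`2 ^ q * 2 ^ (m * (N - 1)) < 2 ^ (m * N)`. For `N = 0` both sides are `1`. -/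
def S_NET2 : Prop := ∀ A : List (List Bool), (∀ r ∈ A, r.length = A.length) →
  Nat.card {s : Fin (nn A.length) → Bool // Good A.length
    (fun x => Pool.Agent.H549R2.Convex.ent A (x / A.length) (x % A.length)) s} /
      2 ^ ((A.length * A.length + 1) * A.length) = Pool.Agent.H549R2.Convex.F A

/-! ### Matchings of the face poset, and the output -/

/-- **ME-MATCH.** The matchings without vertices in pairs and without critical triangles.
`M ↦ φ` where `(φ t, f t) ∈ M`; back: `M = {(φ t, f t) | t}`. All sets in `cx f` have one, two or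
three elements, those with three elements are the `f t`. As no vertex is in a pair (`crit 0` is the
number of vertices), all pairs are of the form (edge, triangle). A relation
`Rel f φ a b` gives the path `f b → φ a → f a` of `Arc`, so cycles of `Rel` give cycles of `Arc`.
Conversely a cycle of `Arc` stays in the edges and triangles (from a vertex there is no arc) and
alternates, and gives a cycle of `Rel` (`a ≠ b` as `(φ a, f a) ∈ M` and the arc `f b → φ a` is not in
`M`). -/
def S_MATCH : Prop := ∀ (T : Type) [Fintype T] (f : T → Finset ℕ), Function.Injective f →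
  (∀ t, (f t).card = 3) →
  Nat.card {M : Finset (Finset ℕ × Finset ℕ) // IsAcyclicMatching (cx f) M ∧
    crit (cx f) M 0 = ((cx f).filter fun s => s.card = 1).card ∧ crit (cx f) M 2 = 0} =
  Nat.card {φ : T → Finset ℕ // IsFam f φ}

/-- **ME-PICK.** `(ensemble K).coeff c` is the number of the `M ∈ (K ×ˢ K).powerset` with
`IsAcyclicMatching K M` and `crit K M i = c i` for all `i < K.sup card`, if `c i = 0` for
`i ≥ K.sup card` (the product is the monomial with the exponents `crit K M i`). So `pick` is the sum,
over the lists `c` of length `K.sup card` with `c₀ = f₀` and `c₂ = 0`, of these numbers; each `M`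
belongs to exactly one list. (If `K.sup card ≤ 2`, then `crit K M 2 = 0` since `K` has no set of
three elements, similarly `crit K M 0` if `K.sup card = 0`. `IsAcyclicMatching K M` implies
`M ⊆ K ×ˢ K`.) -/
def S_PICK : Prop := ∀ (K : Finset (Finset ℕ)) (O : List (List ℕ × ℕ)) (f₀ : ℕ), IsOutput K O →
  pick f₀ O = Nat.card {M : Finset (Finset ℕ × Finset ℕ) // IsAcyclicMatching K M ∧
    crit K M 0 = f₀ ∧ crit K M 2 = 0}

/-- **ME-SIZE.** With `f = K.card = L.length ≤ sz L`: for `(c, a) ∈ O` the list `c` has at most three
entries, all `≤ f` (`crit K M i ≤ K.card`), and `a` is at most the number of all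
`M ∈ (K ×ˢ K).powerset`, that is `2 ^ (f * f)`; so `O` has at most `3 * (f + 1) ^ 3` elements (its
first components are distinct), each of size polynomial in `f` (`sz` of a natural number is linear in
its number of binary digits; see the lemmas on `sz` in Pool/Agent/NPC, Pool/Agent/H527R2). -/
def S_SIZE : Prop := ∃ r : Polynomial ℕ, ∀ (L : List (List ℕ)) (K : Finset (Finset ℕ))
  (O : List (List ℕ × ℕ)), Lists L K → K.sup Finset.card ≤ 3 → IsOutput K O →
  sz O ≤ r.eval (sz L)

/-- **ME-EX.** Outputs exist: for every `K` there is `O` with `IsOutput K O` (the lists `c` of length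
`K.sup card` correspond to the exponents supported on `{0, ..., K.sup card - 1}`; all monomials of
`ensemble K` are of this kind; the support of a polynomial is finite). `g x`: if `x = bits L` for
some `L` (unique, `bits_injective`) and `L` lists some `K` (unique), then `bits O` for some output
`O`. -/
def S_EX : Prop := ∀ d : ℕ, ∃ g : List Bool → List Bool, Computes d g

/-! ### The machine part -/

/-- **ME-ORACLE.** The analogue for string-valued oracles of `hard_of_nred` in
Pool/Agent/H549R2/NRed.lean and of `turingReduces_of_list`, `sharpPHard_of_satCount` in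
Pool/Agent/H527R2/SharpP.lean (copy these proofs). If `qs, post` are the two functions of `NRed`,
`f` a function of `Cnt.SharpP` and `G` the parsimonious reduction of `f` to `satCount` (see
`sharpPHard_of_satCount`), then on `(x, answers)` the function `next` asks the query number
`answers.length` of the list `qs (G x)`, or, if there is none, outputs `post (G x, ns)` with
`ns = (zip (qs (G x)) answers).map fun (a, y) => match decode y with | none => 0 | some b =>
ext (a, b)`. -/
def S_ORACLE : Prop := ∀ (α β : Type) [TEnc α] [TEnc β] [Cnt.TDec β] (S : α → Prop) (f : α → ℕ)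
  (ext : α × β → ℕ) (g : List Bool → List Bool) (r : Polynomial ℕ),
  NRed (fun _ : Cnt.CNF ℕ => True) (fun φ => Cnt.satCount φ) S f → Poly ext →
  (∀ a, S a → ∃ b, g (bits a) = bits b ∧ ext (a, b) = f a ∧ sz b ≤ r.eval (sz a)) →
  SharpPHard g

/-! ### The list of the simplices -/

/-- The codes of the vertices. -/
def code {n : ℕ} : Vtx n → ℕ
  | .X v => Nat.pair 0 v
  | .Z v => Nat.pair 1 v
  | .b v j => Nat.pair 2 (Nat.pair v j)
  | .g (.D u p v) k => Nat.pair 3 (Nat.pair (Nat.pair u (if p = true then 1 else 0)) (Nat.pair v k))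
  | .g (.B u p v) k => Nat.pair 4 (Nat.pair (Nat.pair u (if p = true then 1 else 0)) (Nat.pair v k))
  | .g (.E v l) k => Nat.pair 5 (Nat.pair (Nat.pair v (if l = true then 1 else 0)) (Nat.pair 0 k))

/-- The code of a vertex of a gadget. -/
def gc (c u : ℕ) (p : Bool) (v k : ℕ) : ℕ :=
  Nat.pair c (Nat.pair (Nat.pair u (if p = true then 1 else 0)) (Nat.pair v k))

/-- The codes of the seven vertices of `D u p v`, where `t = A u p v`. -/
def dV (n : ℕ) (t : Bool) (u : ℕ) (p : Bool) (v : ℕ) : List ℕ :=
  [Nat.pair 0 u, if p = true then Nat.pair 2 (Nat.pair u 0) else Nat.pair 1 u,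
    if t = true then Nat.pair 2 (Nat.pair v (1 + u + (if p = true then n else 0) + 1))
      else gc 3 u p v 2,
    if t = true then Nat.pair 2 (Nat.pair v (1 + u + (if p = true then n else 0)))
      else gc 3 u p v 3,
    gc 3 u p v 4, gc 3 u p v 5, gc 3 u p v 6]

/-- The codes of the seven vertices of `B u p v`, where `t = A u p v`. -/
def bV (n : ℕ) (t : Bool) (u : ℕ) (p : Bool) (v : ℕ) : List ℕ :=
  [gc 4 u p v 0, gc 4 u p v 1,
    if t = true then gc 4 u p v 2
      else Nat.pair 2 (Nat.pair v (1 + u + (if p = true then n else 0) + 1)),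
    if t = true then gc 4 u p v 3
      else Nat.pair 2 (Nat.pair v (1 + u + (if p = true then n else 0))),
    gc 4 u p v 4, gc 4 u p v 5, gc 4 u p v 6]

/-- The codes of the seven vertices of `E v l`. -/
def eV (n : ℕ) (v : ℕ) (l : Bool) : List ℕ :=
  [gc 5 v l 0 0, gc 5 v l 0 1,
    if l = true then Nat.pair 1 v else Nat.pair 2 (Nat.pair v 1),
    if l = true then Nat.pair 2 (Nat.pair v (2 * n + 1)) else Nat.pair 2 (Nat.pair v 0),
    gc 5 v l 0 4, gc 5 v l 0 5, gc 5 v l 0 6]

/-- The triangles of the gadget. -/
def PL : List (List ℕ) :=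
  [[0, 2, 4], [0, 1, 4], [0, 2, 5], [0, 3, 5], [0, 1, 6], [0, 3, 6], [2, 4, 5], [3, 4, 5],
    [1, 3, 4], [1, 2, 5], [1, 2, 6], [2, 3, 6], [1, 3, 5]]

/-- The triangles of a copy of the gadget with the seven vertices `w`. -/
def gadL (w : List ℕ) : List (List ℕ) := PL.map fun t => t.map fun k => w.getD k 0

/-- The list of all triangles. -/
def tris (n : ℕ) (arc : ℕ → Bool → ℕ → Bool) : List (List ℕ) :=
  (List.range n).map (fun v => [Nat.pair 0 v, Nat.pair 2 (Nat.pair v 0), Nat.pair 1 v]) ++
  ((List.range n).flatMap (fun v => (List.range (2 * n + 1)).map fun j =>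
    [Nat.pair 1 v, Nat.pair 2 (Nat.pair v j), Nat.pair 2 (Nat.pair v (j + 1))]) ++
  ((List.range n).flatMap (fun u => [false, true].flatMap fun p => (List.range n).flatMap fun v =>
    gadL (dV n (arc u p v) u p v) ++ gadL (bV n (arc u p v) u p v)) ++
  (List.range n).flatMap (fun v => [false, true].flatMap fun l => gadL (eV n v l))))

/-- Sorts a list of three numbers. -/
def sort3 (t : List ℕ) : List ℕ :=
  [min (t.getD 0 0) (min (t.getD 1 0) (t.getD 2 0)),
    t.getD 0 0 + t.getD 1 0 + t.getD 2 0 - min (t.getD 0 0) (min (t.getD 1 0) (t.getD 2 0)) -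
      max (t.getD 0 0) (max (t.getD 1 0) (t.getD 2 0)),
    max (t.getD 0 0) (max (t.getD 1 0) (t.getD 2 0))]

/-- The nonempty faces of a triangle. -/
def faces (t : List ℕ) : List (List ℕ) :=
  [[t.getD 0 0], [t.getD 1 0], [t.getD 2 0], [t.getD 0 0, t.getD 1 0], [t.getD 0 0, t.getD 2 0],
    [t.getD 1 0, t.getD 2 0], [t.getD 0 0, t.getD 1 0, t.getD 2 0]]

/-- The list of all simplices of the complex of a network. -/
def cxList (n : ℕ) (arc : ℕ → Bool → ℕ → Bool) : List (List ℕ) :=
  (((tris n arc).map sort3).flatMap faces).dedup

/-- **ME-LIST.** `tris n arc` are the images under `code` (injective) of the triangles `vs A x`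
(each list has three different elements as `vs_card`). Note `num u p ≤ 2 * n`, so in `emb` the exit
of `D u p v` and `B u p v` at the side `num u p` is always `b v (num u p + 1), b v (num u p)`. -/
def S_LIST : Prop := ∀ (n : ℕ) (arc : ℕ → Bool → ℕ → Bool),
  Geo (fun (u : Fin n) p (v : Fin n) => arc u p v) →
  Function.Injective (code (n := n)) ∧
  Lists (cxList n arc) (cx fun x : Nod n => (vs (fun (u : Fin n) p (v : Fin n) => arc u p v)
    x).image code)

/-- **ME-POLY.** Polynomial time, with the library of Pool/Agent/NPC and `fun_prop`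
(Pool/Agent/H671R2/PolyAuto.lean); `Pool.Agent.H612.poly_dedup`, `Cnt.pNatPair`
(Pool/Agent/H527R2/GenPoly.lean), `UPoly.range` (ranges of unary bounded length). -/
def S_POLY : Prop := ∀ (α : Type) [TEnc α] (n : α → ℕ) (arc : α → ℕ → Bool → ℕ → Bool),
  UPoly n → Poly (fun x : α × ℕ × Bool × ℕ => arc x.1 x.2.1 x.2.2.1 x.2.2.2) →
  Poly (fun a => cxList (n a) (arc a))

end Pool.Agent.Q206.ME
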